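import Pool.Agent.Lib.MP_c82530_nt.UR.Stm

/-!
# MP_c82530_nt, project UR: piece DSC (descent)
-/

set_option autoImplicit false

namespace Pool.Agent.Lib.MP_c82530_nt.UR

/-- **(DSC)** -/
theorem p_DSC : DSC := by
  intro C Ω ι _ _ _ _ 𝒟 S hS hne
  classical
  obtain ⟨e₁, he₁, hne₁⟩ := (Submodule.ne_bot_iff S).1 hne
  -- the number of nonzero coordinates
  let supp : (ι → Ω) → ℕ := fun e => (Finset.univ.filter (fun i => e i ≠ 0)).card
  have hex : ∃ n, ∃ e ∈ S, e ≠ 0 ∧ supp e = n := ⟨_, e₁, he₁, hne₁, rfl⟩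
  obtain ⟨e, heS, he0, hen⟩ := Nat.find_spec hex
  have hmin : ∀ e' ∈ S, e' ≠ 0 → Nat.find hex ≤ supp e' := fun e' h1 h2 =>
    Nat.find_min' hex ⟨e', h1, h2, rfl⟩
  obtain ⟨i₀, hi₀⟩ : ∃ i, e i ≠ 0 := by
    by_contra h
    push Not at h
    exact he0 (funext h)
  -- normalize
  let v : ι → Ω := (e i₀)⁻¹ • e
  have hv : ∀ i, v i = (e i₀)⁻¹ * e i := fun i => rfl
  have hvS : v ∈ S := S.smul_mem _ heS
  have hv1 : v i₀ = 1 := by rw [hv]; exact inv_mul_cancel₀ hi₀
  have hv0 : v ≠ 0 := fun h => by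
    rw [h] at hv1
    exact zero_ne_one hv1
  refine ⟨v, hvS, hv0, ?_⟩
  intro i D hD
  by_contra hi
  let w : ι → Ω := fun i => D (v i)
  have hwS : w ∈ S := hS D hD v hvS
  have hw0 : w ≠ 0 := fun h => hi (congrFun h i)
  have hw1 : w i₀ = 0 := by
    show D (v i₀) = 0
    rw [hv1]
    exact D.map_one_eq_zero
  have hlt : supp w < supp e := by
    apply Finset.card_lt_card
    rw [Finset.ssubset_iff_of_subset]
    · exact ⟨i₀, by simp [hi₀], by simp [hw1]⟩
    · intro j hj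
      simp only [Finset.mem_filter, Finset.mem_univ, true_and] at hj ⊢
      intro hj0
      apply hj
      show D (v j) = 0
      rw [hv, hj0, mul_zero, map_zero]
  have := hmin w hwS hw0
  omega

end Pool.Agent.Lib.MP_c82530_nt.UR
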