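import Pool.Agent.Lib.MP_c82530_nt.UR.Stm

/-!
# MP_c82530_nt, project UR: the bracket of two derivations of a torus (piece `BRK`)
-/

set_option autoImplicit false

open Polynomial IntermediateField

namespace Pool.Agent.Lib.MP_c82530_nt.UR

private theorem brk_alg {K F : Type} [Field K] [Field F] [Algebra K F] [CharZero K]
    (δ : Derivation K F F) {x : F} (hx : IsAlgebraic K x) : δ x = 0 := by
  have hs : (minpoly K x).Separable := (minpoly.irreducible hx.isIntegral).separable
  have h1 : aeval x (derivative (minpoly K x)) ≠ 0 :=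
    hs.aeval_derivative_ne_zero (minpoly.aeval K x)
  have h2 : δ (aeval x (minpoly K x)) = 0 := by rw [minpoly.aeval, map_zero]
  rw [Derivation.map_aeval, smul_eq_mul] at h2
  exact (mul_eq_zero.1 h2).resolve_left h1

private theorem brk_alg' {K F : Type} [Field K] [Field F] [Algebra K F] [CharZero K]
    (δ : Derivation ℤ F F) (h : ∀ a : K, δ (algebraMap K F a) = 0) {x : F}
    (hx : IsAlgebraic K x) : δ x = 0 := by
  let δ' : Derivation K F F := Derivation.mk'
    { toFun := fun a => δ a
      map_add' := fun a b => map_add δ a b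
      map_smul' := fun c a => by
        rw [Algebra.smul_def, Derivation.leibniz, h]
        simp [Algebra.smul_def] }
    (fun a b => δ.leibniz a b)
  exact brk_alg δ' hx

private theorem brk_zero {C Ω W : Type} [Field C] [CharZero C] [Field Ω] [CharZero Ω]
    [Algebra C Ω] [AddCommGroup W] [Module ℚ W] (S : Tor C Ω W) (E : Derivation C Ω Ω)
    (h : ∀ w, E (S.x w) = 0) (z : Ω) : E z = 0 := by
  have h1 : ∀ b ∈ IntermediateField.adjoin C (Set.range S.x), E b = 0 := by
    intro b hb
    induction hb using IntermediateField.adjoin_induction with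
    | mem x hx =>
      obtain ⟨w, rfl⟩ := hx
      exact h w
    | algebraMap x => rw [Derivation.map_algebraMap]
    | add x y hx hy h1 h2 => rw [map_add, h1, h2, add_zero]
    | inv x hx h1 => rw [Derivation.leibniz_inv, h1, smul_zero]
    | mul x y hx hy h1 h2 => rw [Derivation.leibniz, h1, h2, smul_zero, smul_zero, add_zero]
  exact brk_alg' (K := IntermediateField.adjoin C (Set.range S.x)) (E.restrictScalars ℤ)
    (fun a => h1 a a.2) (S.alg z)

theorem p_BRK : BRK := by
  intro C Ω W _ _ _ _ _ _ _ S
  constructor
  · intro φ ψ χ hχ z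
    have h := brk_zero S (S.DD χ - ⁅S.DD φ, S.DD ψ⁆) (fun w => by
      rw [Derivation.sub_apply, Derivation.commutator_apply, S.DD_x, S.DD_x, S.DD_x,
        Derivation.leibniz, Derivation.leibniz, S.DD_x, S.DD_x, hχ]
      simp only [smul_eq_mul]
      ring) z
    rw [Derivation.sub_apply, Derivation.commutator_apply, sub_eq_zero] at h
    exact h
  · intro E
    have hx0 : S.x 0 = 1 := by
      have h := S.x_add 0 0
      rw [add_zero] at h
      exact mul_left_cancel₀ (S.x_ne 0) (by rw [mul_one]; exact h.symm)
    let ψ₀ : W →+ Ω :=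
      { toFun := fun w => E (S.x w) / S.x w
        map_zero' := by rw [hx0, E.map_one_eq_zero, zero_div]
        map_add' := fun v w => by
          have hv := S.x_ne v
          have hw := S.x_ne w
          rw [S.x_add, Derivation.leibniz]
          simp only [smul_eq_mul]
          field_simp
          ring }
    let ψ : W →ₗ[ℚ] Ω := ψ₀.toRatLinearMap
    refine ⟨ψ, ?_⟩
    ext z
    have h := brk_zero S (E - S.DD ψ) (fun w => by
      rw [Derivation.sub_apply, S.DD_x]
      change E (S.x w) - E (S.x w) / S.x w * S.x w = 0
      rw [div_mul_cancel₀ _ (S.x_ne w), sub_self]) z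
    rw [Derivation.sub_apply, sub_eq_zero] at h
    exact h

end Pool.Agent.Lib.MP_c82530_nt.UR
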