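import Pool.Agent.Lib.MP_c82530_nt.UR.Stm

set_option autoImplicit false

open Polynomial IntermediateField

namespace Pool.Agent.Lib.MP_c82530_nt.UR

/-- the shape of a logarithmic derivative: `n + x P(x) / Q(x)` with `Q(0) ≠ 0` -/
private def CT_Shape {K Ω : Type} [Field K] [Field Ω] [Algebra K Ω] (x y : Ω) (n : K) : Prop :=
  ∃ P Q : K[X], Q.coeff 0 ≠ 0 ∧ y = algebraMap K Ω n + x * (aeval x P / aeval x Q)

private theorem CT_transc {K Ω : Type} [Field K] [Field Ω] [Algebra K Ω] [CharZero K]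
    (E : Derivation K Ω Ω) {x : Ω} (hx : x ≠ 0) (hE : E x = x) {p : K[X]} (hp : p ≠ 0) :
    aeval x p ≠ 0 := by
  intro h0
  have hint : IsIntegral K x := isAlgebraic_iff_isIntegral.1 ⟨p, hp, h0⟩
  have hsep : (minpoly K x).Separable := (minpoly.irreducible hint).separable
  have h1 := hsep.aeval_derivative_ne_zero (minpoly.aeval K x)
  have h2 := E.map_aeval (minpoly K x) x
  rw [minpoly.aeval, map_zero, hE, smul_eq_mul] at h2
  rcases mul_eq_zero.1 h2.symm with h3 | h3
  · exact h1 h3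
  · exact hx h3

private theorem CT_zero {K Ω : Type} [Field K] [Field Ω] [Algebra K Ω] (x : Ω) :
    CT_Shape (K := K) x (0 : Ω) 0 := by
  refine ⟨0, 1, ?_, ?_⟩
  · rw [coeff_one_zero]
    exact one_ne_zero
  · rw [map_zero, map_zero, zero_div, mul_zero, zero_add]

private theorem CT_add {K Ω : Type} [Field K] [Field Ω] [Algebra K Ω] {x : Ω}
    (ht : ∀ p : K[X], p ≠ 0 → aeval x p ≠ 0) {y z : Ω} {m n : K}
    (hy : CT_Shape x y m) (hz : CT_Shape x z n) : CT_Shape x (y + z) (m + n) := by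
  obtain ⟨P, Q, hQ, rfl⟩ := hy
  obtain ⟨P', Q', hQ', rfl⟩ := hz
  refine ⟨P * Q' + P' * Q, Q * Q', ?_, ?_⟩
  · rw [mul_coeff_zero]
    exact mul_ne_zero hQ hQ'
  · have h1 : aeval x Q ≠ 0 := ht Q (fun h => hQ (by rw [h, coeff_zero]))
    have h2 : aeval x Q' ≠ 0 := ht Q' (fun h => hQ' (by rw [h, coeff_zero]))
    rw [map_add, map_add, map_mul, map_mul, map_mul]
    field_simp
    ring

private theorem CT_smul {K Ω : Type} [Field K] [Field Ω] [Algebra K Ω] {x : Ω}
    {y : Ω} {m : K} (a : K) (hy : CT_Shape x y m) :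
    CT_Shape x (algebraMap K Ω a * y) (a * m) := by
  obtain ⟨P, Q, hQ, rfl⟩ := hy
  refine ⟨C a * P, Q, hQ, ?_⟩
  rw [map_mul, map_mul, aeval_C]
  ring

private theorem CT_sum {K Ω : Type} [Field K] [Field Ω] [Algebra K Ω] {x : Ω}
    (ht : ∀ p : K[X], p ≠ 0 → aeval x p ≠ 0) {ι : Type} (S : Finset ι) (y : ι → Ω) (m : ι → K)
    (h : ∀ i ∈ S, CT_Shape x (y i) (m i)) : CT_Shape x (∑ i ∈ S, y i) (∑ i ∈ S, m i) := by
  classical
  induction S using Finset.induction_on with
  | empty =>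
    rw [Finset.sum_empty, Finset.sum_empty]
    exact CT_zero x
  | insert i S hi ih =>
    rw [Finset.sum_insert hi, Finset.sum_insert hi]
    exact CT_add ht (h i (Finset.mem_insert_self i S))
      (ih fun j hj => h j (Finset.mem_insert_of_mem hj))

/-- polynomials -/
private theorem CT_poly {K Ω : Type} [Field K] [Field Ω] [Algebra K Ω] {E : Derivation K Ω Ω}
    {x : Ω} (hE : E x = x) (ht : ∀ p : K[X], p ≠ 0 → aeval x p ≠ 0) {p : K[X]} (hp : p ≠ 0) :
    ∃ n : ℕ, CT_Shape (K := K) x (E (aeval x p) / aeval x p) (n : K) := by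
  obtain ⟨a, ha, hna⟩ := exists_eq_pow_rootMultiplicity_mul_and_not_dvd p hp 0
  rw [C_0, sub_zero] at ha hna
  rw [X_dvd_iff] at hna
  set n := p.rootMultiplicity 0 with hn
  refine ⟨n, derivative a, a, hna, ?_⟩
  have ha0 : a ≠ 0 := fun h => hna (by rw [h, coeff_zero])
  have hax : aeval x a ≠ 0 := ht a ha0
  have hx : x ≠ 0 := by
    have := ht X X_ne_zero
    rwa [aeval_X] at this
  have hpx : aeval x p = x ^ n * aeval x a := by
    rw [ha, map_mul, map_pow, aeval_X]
  have hxn : x ^ n ≠ 0 := pow_ne_zero n hx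
  have hE1 : E (x ^ n) = (n : Ω) * x ^ n := by
    rw [Derivation.leibniz_pow, hE, smul_eq_mul, nsmul_eq_mul]
    rcases Nat.eq_zero_or_pos n with h0 | h0
    · rw [h0, Nat.cast_zero, zero_mul, zero_mul]
    · rw [← pow_succ, Nat.sub_add_cancel h0]
  rw [hpx, Derivation.leibniz, hE1, E.map_aeval, hE, map_natCast]
  simp only [smul_eq_mul]
  field_simp
  ring

theorem p_CT : CT := by
  intro K Ω _ _ _ _ E x hx hE s ε g c hg hgx hsum
  have ht : ∀ p : K[X], p ≠ 0 → aeval x p ≠ 0 := fun p hp => CT_transc E hx hE hp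
  have hshape : ∀ k, ∃ n : ℤ, CT_Shape (K := K) x (E (g k) / g k) (n : K) := by
    intro k
    obtain ⟨p, q, hpq⟩ := (mem_adjoin_simple_iff K (g k)).1 (hgx k)
    have hp0 : p ≠ 0 := by
      rintro rfl
      rw [map_zero, zero_div] at hpq
      exact hg k hpq
    have hq0 : q ≠ 0 := by
      rintro rfl
      rw [map_zero, div_zero] at hpq
      exact hg k hpq
    obtain ⟨m, hm⟩ := CT_poly hE ht hp0
    obtain ⟨n, hn⟩ := CT_poly hE ht hq0
    have hpx := ht p hp0
    have hqx := ht q hq0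
    refine ⟨(m : ℤ) - n, ?_⟩
    have h1 := CT_add ht hm (CT_smul (-1) hn)
    have h2 : E (aeval x p) / aeval x p + algebraMap K Ω (-1) * (E (aeval x q) / aeval x q) =
        E (g k) / g k := by
      have h3 : aeval x p = g k * aeval x q := by
        rw [hpq]
        field_simp
      have h4 : E (aeval x p) = g k * E (aeval x q) + aeval x q * E (g k) := by
        rw [h3, Derivation.leibniz]
        simp only [smul_eq_mul]
      rw [h4, h3, map_neg, map_one]
      have := hg k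
      field_simp
      ring
    rw [h2] at h1
    have h5 : (m : K) + -1 * (n : K) = (((m : ℤ) - n : ℤ) : K) := by
      push_cast
      ring
    rwa [h5] at h1
  choose n hn using hshape
  refine ⟨n, ?_⟩
  have h1 : CT_Shape (K := K) x (∑ k, algebraMap K Ω (ε k) * (E (g k) / g k))
      (∑ k, ε k * (n k : K)) :=
    CT_sum ht Finset.univ _ _ fun k _ => CT_smul (ε k) (hn k)
  rw [hsum] at h1
  obtain ⟨P, Q, hQ, h2⟩ := h1
  have hQ0 : Q ≠ 0 := fun h => hQ (by rw [h, coeff_zero])
  have hQx := ht Q hQ0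
  by_contra hne
  have h3 : C (c - ∑ k, ε k * (n k : K)) * Q - X * P ≠ 0 := by
    intro h0
    have h4 := congrArg (fun r => coeff r 0) h0
    simp only [coeff_sub, mul_coeff_zero, coeff_C_zero, coeff_X_zero, zero_mul, sub_zero,
      coeff_zero] at h4
    rcases mul_eq_zero.1 h4 with h5 | h5
    · apply hne
      rw [sub_eq_zero.1 h5]
      exact Finset.sum_congr rfl fun k _ => mul_comm _ _
    · exact hQ h5
  apply ht _ h3
  rw [map_sub, map_mul, map_mul, aeval_C, aeval_X, map_sub, h2]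
  field_simp
  ring

end Pool.Agent.Lib.MP_c82530_nt.UR
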