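import Pool.Agent.Lib.MP_c82530_nt.UR.Stm
import Pool.Agent.Lib.MP_52aaf2_al.Theta
import Pool.Agent.Lib.MP_52aaf2_al.EX.Acl

/-!
# MP_c82530_nt, project UR: a derivation over a large field of constants
-/

set_option autoImplicit false

open Polynomial IntermediateField

namespace Pool.Agent.Lib.MP_c82530_nt.UR

open MP52exp

theorem p_EXD : EXD := by
  intro k F _ _ _ _ C' y hC hyC'
  have hy : y ∉ acl k (C' : Set F) := by
    intro h
    rw [mem_acl] at h
    have e : IntermediateField.adjoin k (C' : Set F) = C' := IntermediateField.adjoin_self k C'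
    rw [e] at h
    exact hyC' (hC y h)
  have hE : (AlgebraicIndependent.matroid k F).E = Set.univ := by simp
  have hy' : y ∉ (AlgebraicIndependent.matroid k F).closure (C' : Set F) := by
    rwa [mem_acl_iff_closure] at hy
  obtain ⟨B₀, hB₀⟩ := (AlgebraicIndependent.matroid k F).exists_isBasis (C' : Set F)
    (by rw [hE]; exact Set.subset_univ (C' : Set F))
  have hcl : (AlgebraicIndependent.matroid k F).closure B₀ =
      (AlgebraicIndependent.matroid k F).closure (C' : Set F) := hB₀.closure_eq_closure
  have hi : (AlgebraicIndependent.matroid k F).Indep (insert y B₀) ∧ y ∉ B₀ := by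
    rw [← hB₀.indep.notMem_closure_iff (by rw [hE]; exact Set.mem_univ y), hcl]
    exact hy'
  obtain ⟨B, hB, hsub⟩ := hi.1.exists_isBase_superset
  have hyB : y ∈ B := hsub (Set.mem_insert y B₀)
  have hB₀B : B₀ ⊆ B \ {y} := fun x hx =>
    ⟨hsub (Set.mem_insert_of_mem y hx), fun h => hi.2 (by rw [← (h : x = y)]; exact hx)⟩
  have hyC : y ∉ acl k (B \ {y}) := by
    rw [mem_acl_iff_closure]
    exact hB.indep.notMem_closure_sdiff_of_mem hyB
  have htr : Transcendental (acl k (B \ {y})) y := fun h => hyC (acl_closed h)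
  have hall : ∀ a : F, IsAlgebraic (IntermediateField.adjoin k B) a := by
    intro a
    rw [← mem_acl, mem_acl_iff_closure, hB.closure_eq, hE]
    exact Set.mem_univ a
  have halg : ∀ a : F, IsAlgebraic (acl k (B \ {y}))⟮y⟯ a := by
    intro a
    have hle : IntermediateField.adjoin k B ≤
        IntermediateField.restrictScalars k ((acl k (B \ {y}))⟮y⟯) := by
      rw [IntermediateField.adjoin_le_iff]
      intro x hx
      by_cases hxy : x = y
      · rw [hxy]
        exact IntermediateField.mem_adjoin_simple_self (acl k (B \ {y})) y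
      · have h1 : x ∈ acl k (B \ {y}) := subset_acl _ ⟨hx, hxy⟩
        have h2 := ((acl k (B \ {y}))⟮y⟯).algebraMap_mem ⟨x, h1⟩
        exact h2
    have h3 := (hall a).ringHom_of_comp_eq
      (S := (acl k (B \ {y}))⟮y⟯) (B := F)
      ((IntermediateField.inclusion hle).toRingHom : IntermediateField.adjoin k B →+*
        ((acl k (B \ {y}))⟮y⟯)) (RingHom.id F)
      (RingHom.injective _) (by ext x; rfl)
    exact h3
  have : CharZero (acl k (B \ {y})) :=
    charZero_of_injective_algebraMap (algebraMap k (acl k (B \ {y}))).injective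
  obtain ⟨θ, hθ⟩ := MP52aaf2.exists_theta htr halg
  refine ⟨acl k (B \ {y}), ?_, halg, θ, hθ⟩
  intro a ha
  have ha' : a ∈ acl k (C' : Set F) := subset_acl _ ha
  rw [mem_acl_iff_closure, ← hcl] at ha'
  rw [mem_acl_iff_closure]
  exact (AlgebraicIndependent.matroid k F).closure_subset_closure hB₀B ha'

end Pool.Agent.Lib.MP_c82530_nt.UR
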