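import Pool.Agent.Lib.MP_c82530_nt.UR.Stm

/-!
# MP_c82530_nt, project UR, piece GNA
-/

set_option autoImplicit false

open Polynomial IntermediateField

namespace Pool.Agent.Lib.MP_c82530_nt.UR

/-! ### generic sequences of rational tuples -/

private theorem GNA_seq (σ : Type) [Fintype σ] : ∃ t : ℕ → σ → ℚ, ∀ P : MvPolynomial σ ℚ,
    P ≠ 0 → ∀ᶠ q in Filter.atTop, MvPolynomial.eval (t q) P ≠ 0 := by
  classical
  have : Countable (MvPolynomial σ ℚ) := by
    rw [← Cardinal.mk_le_aleph0_iff]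
    refine le_trans MvPolynomial.cardinalMk_le_max ?_
    refine max_le (max_le Cardinal.mk_le_aleph0 Cardinal.mk_le_aleph0) le_rfl
  have : Nonempty {P : MvPolynomial σ ℚ // P ≠ 0} := ⟨⟨1, one_ne_zero⟩⟩
  obtain ⟨e, he⟩ := exists_surjective_nat {P : MvPolynomial σ ℚ // P ≠ 0}
  have h1 : ∀ q : ℕ, ∃ t : σ → ℚ, ∀ i ≤ q, MvPolynomial.eval t (e i).1 ≠ 0 := by
    intro q
    have h2 : (∏ i ∈ Finset.range (q + 1), (e i).1) ≠ 0 :=
      Finset.prod_ne_zero_iff.2 fun i _ => (e i).2
    by_contra hc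
    push Not at hc
    apply h2
    apply MvPolynomial.funext
    intro x
    obtain ⟨i, hi, h3⟩ := hc x
    rw [map_prod, map_zero]
    exact Finset.prod_eq_zero (Finset.mem_range.2 (by omega)) h3
  choose t ht using h1
  refine ⟨t, fun P hP => ?_⟩
  obtain ⟨i, hi⟩ := he ⟨P, hP⟩
  filter_upwards [Filter.eventually_ge_atTop i] with q hq
  have h2 := ht q i hq
  rw [hi] at h2
  exact h2

/-- a polynomial over a larger field which vanishes at infinitely many of the tuples is zero -/
private theorem GNA_zero (F σ : Type) [Field F] [CharZero F] [Fintype σ] (t : ℕ → σ → ℚ)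
    (ht : ∀ P : MvPolynomial σ ℚ, P ≠ 0 → ∀ᶠ q in Filter.atTop, MvPolynomial.eval (t q) P ≠ 0)
    (Q : MvPolynomial σ F)
    (hQ : ∃ᶠ q in Filter.atTop, MvPolynomial.eval (fun s => (t q s : F)) Q = 0) : Q = 0 := by
  classical
  by_contra hne
  obtain ⟨e, he⟩ := MvPolynomial.ne_zero_iff.1 hne
  obtain ⟨l, hl⟩ := Module.Projective.exists_dual_ne_zero ℚ he
  let Q' : MvPolynomial σ ℚ := ∑ d ∈ Q.support, MvPolynomial.monomial d (l (Q.coeff d))
  have h1 : Q'.coeff e = l (Q.coeff e) := by
    simp only [Q', MvPolynomial.coeff_sum, MvPolynomial.coeff_monomial]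
    rw [Finset.sum_eq_single e]
    · rw [if_pos rfl]
    · intro d _ hd
      rw [if_neg hd]
    · intro h2
      exact absurd (MvPolynomial.mem_support_iff.2 he) h2
  have h2 : Q' ≠ 0 := by
    intro hc
    rw [hc, MvPolynomial.coeff_zero] at h1
    exact hl h1.symm
  obtain ⟨q, hq1, hq2⟩ := (hQ.and_eventually (ht Q' h2)).exists
  apply hq2
  have h3 : l (MvPolynomial.eval (fun s => (t q s : F)) Q) = MvPolynomial.eval (t q) Q' := by
    rw [MvPolynomial.eval_eq, map_sum]
    simp only [Q', map_sum, MvPolynomial.eval_monomial]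
    refine Finset.sum_congr rfl fun d _ => ?_
    have h4 : Q.coeff d * ∏ i ∈ d.support, ((t q i : ℚ) : F) ^ d i =
        (∏ i ∈ d.support, (t q i) ^ d i : ℚ) • Q.coeff d := by
      rw [Algebra.smul_def, mul_comm]
      congr 1
      rw [map_prod]
      refine Finset.prod_congr rfl fun i _ => ?_
      rw [map_pow]
      rfl
    rw [h4, map_smul, smul_eq_mul, mul_comm]
    rfl
  rw [← h3, hq1, map_zero]

/-! ### germs -/

private noncomputable def GNA_gm (F : Type) [Field F] : (ℕ → F) →+* UP F :=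
  Filter.Germ.coeRingHom _

private noncomputable def GNA_cst (F : Type) [Field F] : F →+* UP F :=
  (GNA_gm F).comp (Pi.constRingHom ℕ F)

private theorem GNA_gm_eq {F : Type} [Field F] (f g : ℕ → F) : GNA_gm F f = GNA_gm F g ↔
    ∀ᶠ q in (Filter.hyperfilter ℕ : Filter ℕ), f q = g q :=
  Filter.Germ.coe_eq

private theorem GNA_gm_zero {F : Type} [Field F] (f : ℕ → F) : GNA_gm F f = 0 ↔
    ∀ᶠ q in (Filter.hyperfilter ℕ : Filter ℕ), f q = 0 := by
  rw [← map_zero (GNA_gm F), GNA_gm_eq]
  rfl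

private theorem GNA_cst_apply {F : Type} [Field F] (c : F) :
    GNA_cst F c = GNA_gm F (fun _ => c) := rfl

private theorem GNA_gm_surj {F : Type} [Field F] (z : UP F) : ∃ f : ℕ → F, GNA_gm F f = z := by
  induction z using Filter.Germ.inductionOn with
  | _ f => exact ⟨f, rfl⟩

private theorem GNA_det {F : Type} [Field F] (r : ℕ) (A : Fin r → Fin r → ℕ → F) :
    (Matrix.of fun i j => GNA_gm F (A i j)).det =
      GNA_gm F (fun q => (Matrix.of fun i j => A i j q).det) := by
  have h1 : (Matrix.of fun i j => GNA_gm F (A i j)) =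
      (GNA_gm F).mapMatrix (Matrix.of fun i j => A i j) := rfl
  rw [h1, ← RingHom.map_det]
  congr 1
  funext q
  have h2 := (Pi.evalRingHom (fun _ : ℕ => F) q).map_det (Matrix.of fun i j => A i j)
  rw [Pi.evalRingHom_apply] at h2
  rw [h2]
  rfl

private theorem GNA_rat {F : Type} [Field F] [CharZero F] {d : ℕ}
    (D : Fin d → Derivation ℤ F F) (q : ℚ) (a : Fin d) : D a (q : F) = 0 := by
  have h : (q : F) ∈ Cst0 D := SubfieldClass.ratCast_mem _ q
  exact h a

section alg

variable {F W : Type} [Field F] [CharZero F] {d : ℕ} (D : Fin d → Derivation ℤ F F)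
  (D' : Fin d → Derivation ℤ (UP F) (UP F)) (x : W → F)

omit [CharZero F] in
private theorem GNA_cstmem (hD' : ∀ a (f : ℕ → F), D' a (GNA_gm F f) = GNA_gm F (fun q => D a (f q)))
    {c : F} (hc : c ∈ Cst0 D) : GNA_cst F c ∈ Cst0 D' := by
  intro a
  rw [GNA_cst_apply, hD' a, GNA_gm_zero]
  exact Filter.Eventually.of_forall fun _ => hc a

private theorem GNA_ratmem (hD' : ∀ a (f : ℕ → F), D' a (GNA_gm F f) = GNA_gm F (fun q => D a (f q)))
    (t : ℕ → ℚ) : GNA_gm F (fun q => (t q : F)) ∈ Cst0 D' := by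
  intro a
  rw [hD' a, GNA_gm_zero]
  exact Filter.Eventually.of_forall fun q => GNA_rat D (t q) a

private theorem GNA_adj (hD' : ∀ a (f : ℕ → F), D' a (GNA_gm F f) = GNA_gm F (fun q => D a (f q)))
    {y : F} (hy : y ∈ IntermediateField.adjoin (Cst0 D) (Set.range x)) :
    GNA_cst F y ∈ IntermediateField.adjoin (Cst0 D') (Set.range fun w => GNA_cst F (x w)) := by
  induction hy using IntermediateField.adjoin_induction with
  | mem y hy =>
    obtain ⟨w, rfl⟩ := hy
    exact IntermediateField.subset_adjoin _ _ ⟨w, rfl⟩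
  | algebraMap c =>
    exact IntermediateField.algebraMap_mem _
      (⟨GNA_cst F c, GNA_cstmem D D' hD' c.2⟩ : Cst0 D')
  | add y z _ _ h1 h2 => rw [map_add]; exact add_mem h1 h2
  | inv y _ h1 => rw [map_inv₀]; exact inv_mem h1
  | mul y z _ _ h1 h2 => rw [map_mul]; exact mul_mem h1 h2

private theorem GNA_alg (hD' : ∀ a (f : ℕ → F), D' a (GNA_gm F f) = GNA_gm F (fun q => D a (f q)))
    {z : F} (hz : IsAlgebraic (IntermediateField.adjoin (Cst0 D) (Set.range x)) z) :
    IsAlgebraic (IntermediateField.adjoin (Cst0 D') (Set.range fun w => GNA_cst F (x w)))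
      (GNA_cst F z) := by
  let f : IntermediateField.adjoin (Cst0 D) (Set.range x) →+*
      IntermediateField.adjoin (Cst0 D') (Set.range fun w => GNA_cst F (x w)) :=
    { toFun := fun y => ⟨GNA_cst F y.1, GNA_adj D D' x hD' y.2⟩
      map_one' := Subtype.ext (map_one (GNA_cst F))
      map_zero' := Subtype.ext (map_zero (GNA_cst F))
      map_add' := fun a b => Subtype.ext (map_add (GNA_cst F) _ _)
      map_mul' := fun a b => Subtype.ext (map_mul (GNA_cst F) _ _) }
  refine IsAlgebraic.ringHom_of_comp_eq f (GNA_cst F) hz f.injective ?_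
  ext y
  rfl

private theorem GNA_alg2 (hD' : ∀ a (f : ℕ → F), D' a (GNA_gm F f) = GNA_gm F (fun q => D a (f q)))
    {N : ℕ} (m : Fin N → F)
    (hm : ∀ j, IsAlgebraic (IntermediateField.adjoin (Cst0 D) (Set.range x)) (m j))
    (c : Fin N → ℕ → ℚ) :
    IsAlgebraic (IntermediateField.adjoin (Cst0 D') (Set.range fun w => GNA_cst F (x w)))
      (GNA_gm F (fun q => ∑ j, (c j q : F) * m j)) := by
  have h1 : GNA_gm F (fun q => ∑ j, (c j q : F) * m j) =
      ∑ j, GNA_gm F (fun q => (c j q : F)) * GNA_cst F (m j) := by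
    have h2 : (fun q => ∑ j, (c j q : F) * m j) =
        ∑ j, (fun q => (c j q : F)) * (fun _ : ℕ => m j) := by
      funext q
      rw [Finset.sum_apply]
      rfl
    rw [h2, map_sum]
    refine Finset.sum_congr rfl fun j _ => ?_
    rw [map_mul]
    rfl
  rw [h1, ← mem_algebraicClosure_iff]
  refine sum_mem fun j _ => mul_mem ?_ ?_
  · have h3 := GNA_ratmem D D' hD' (c j)
    have h4 : GNA_gm F (fun q => (c j q : F)) ∈
        IntermediateField.adjoin (Cst0 D') (Set.range fun w => GNA_cst F (x w)) :=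
      IntermediateField.algebraMap_mem _ (⟨_, h3⟩ : Cst0 D')
    exact (algebraicClosure (IntermediateField.adjoin (Cst0 D')
      (Set.range fun w => GNA_cst F (x w))) (UP F)).algebraMap_mem ⟨_, h4⟩
  · rw [mem_algebraicClosure_iff]
    exact GNA_alg D D' x hD' (hm j)

end alg

private theorem GNA_forms {W : Type} [AddCommGroup W] [Module ℚ W] [FiniteDimensional ℚ W]
    (V : Submodule ℚ W) (δ : ℕ) (h : Module.finrank ℚ V + δ ≤ Module.finrank ℚ W) :
    ∃ ξ : Fin δ → (W →ₗ[ℚ] ℚ), LinearIndependent ℚ ξ ∧ ∀ α, ∀ v ∈ V, ξ α v = 0 := by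
  have h1 := Subspace.finrank_add_finrank_dualAnnihilator_eq V
  have h2 : δ ≤ Module.finrank ℚ V.dualAnnihilator := by omega
  obtain ⟨f, hf⟩ := exists_linearIndependent_of_le_finrank h2
  refine ⟨fun α => (f α).1, ?_, ?_⟩
  · exact hf.map' V.dualAnnihilator.subtype (Submodule.ker_subtype _)
  · intro α v hv
    exact (Submodule.mem_dualAnnihilator (f α).1).1 (f α).2 v hv

private theorem GNA_final {F : Type} [Field F] [CharZero F] {d r N : ℕ}
    (D : Fin d → Derivation ℤ F F) (m : Fin N → F) (e : Fin r → Fin d → ℚ)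
    (t : ℕ → Fin r × Fin N → ℚ)
    (ht : ∀ P : MvPolynomial (Fin r × Fin N) ℚ,
      P ≠ 0 → ∀ᶠ q in Filter.atTop, MvPolynomial.eval (t q) P ≠ 0)
    (h : ∃ᶠ q in Filter.atTop, (Matrix.of fun i k => ∑ a, (e i a : F) *
      D a (∑ l, (t q (k, l) : F) * m l)).det = 0) (k : Fin r → Fin N) :
    (Matrix.of fun i i' => ∑ a, (e i a : F) * D a (m (k i'))).det = 0 := by
  classical
  let c : Fin r → Fin N → F := fun i l => ∑ a, (e i a : F) * D a (m l)
  let Q : MvPolynomial (Fin r × Fin N) F :=
    (Matrix.of fun i k => ∑ l, MvPolynomial.X (k, l) * MvPolynomial.C (c i l)).det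
  have hQ : ∀ v : Fin r × Fin N → F, MvPolynomial.eval v Q =
      (Matrix.of fun i k => ∑ l, v (k, l) * c i l).det := by
    intro v
    rw [RingHom.map_det]
    congr 1
    ext i k
    simp only [RingHom.mapMatrix_apply, Matrix.map_apply, Matrix.of_apply, map_sum, map_mul,
      MvPolynomial.eval_X, MvPolynomial.eval_C]
  have h0 : Q = 0 := by
    refine GNA_zero F _ t ht Q (h.mono fun q hq => ?_)
    rw [hQ, ← hq]
    congr 1
    ext i k
    simp only [Matrix.of_apply, c, map_sum, Finset.mul_sum]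
    rw [Finset.sum_comm]
    refine Finset.sum_congr rfl fun a _ => Finset.sum_congr rfl fun l _ => ?_
    rw [Derivation.leibniz, GNA_rat, smul_zero, add_zero, smul_eq_mul]
    ring
  have h1 := hQ (fun s => if s.2 = k s.1 then 1 else 0)
  rw [h0, map_zero] at h1
  rw [h1]
  congr 1
  ext i i'
  simp only [Matrix.of_apply, c]
  rw [Finset.sum_eq_single (k i')]
  · rw [if_pos rfl, one_mul]
  · intro l _ hl
    rw [if_neg hl, zero_mul]
  · intro h2
    exact absurd (Finset.mem_univ _) h2

theorem p_GNA (h1 : RAT) (h2 : UAC) (h3 : UDR) (h4 : TORC) (h5 : LI) : GNA := by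
  intro F W _ _ _ _ _ d b D x hx0 hxa hDx r N n m hm ht
  classical
  have hfin : FiniteDimensional ℚ W := Module.Finite.of_basis b
  have hd : Module.finrank ℚ W = d := by simpa using Module.finrank_eq_card_basis b
  rcases Nat.eq_zero_or_pos r with rfl | hr
  · exfalso
    obtain ⟨V, -, hV⟩ := ht 0
    have h6 := hV (fun i => i.elim0) (fun i => i.elim0)
    rw [Matrix.det_isEmpty] at h6
    exact one_ne_zero h6
  by_cases hn : d ≤ n
  · refine ⟨⊤, by rw [finrank_top, hd]; exact hn, fun ξ hξ k => ?_⟩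
    refine Matrix.det_eq_zero_of_row_eq_zero ⟨0, hr⟩ fun i' => ?_
    rw [Matrix.of_apply]
    refine Finset.sum_eq_zero fun a _ => ?_
    rw [hξ _ (b a) Submodule.mem_top, Rat.cast_zero, zero_mul]
  push Not at hn
  obtain ⟨t, htg⟩ := GNA_seq (Fin r × Fin N)
  choose V hVn hVd using fun q => ht (t q)
  choose ξ hξi hξv using fun q => GNA_forms (V q) (d - n) (by have := hVn q; omega)
  choose D' hD'0 using fun a => h3 F (D a)
  have hD' : ∀ a (f : ℕ → F), D' a (GNA_gm F f) = GNA_gm F (fun q => D a (f q)) := hD'0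
  have hcz : CharZero (UP F) := charZero_of_injective_ringHom (GNA_cst F).injective
  have hac : IsAlgClosed (UP F) := h2 F
  obtain ⟨C, Ω, i1, i2, i3, i4, i5, i6, S, j, hjx, hjD, hjC, hjC', hjalg⟩ :=
    h4 (UP F) W d b D' (fun w => GNA_cst F (x w)) (fun w => (_root_.map_ne_zero _).2 (hx0 w))
      (fun v w => by rw [hxa, map_mul]) (fun a w => by
        rw [GNA_cst_apply, hD']
        have h6 : (fun _ : ℕ => D a (x w)) = fun _ => ((b.coord a w : ℚ) : F) * x w :=
          funext fun _ => hDx a w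
        rw [h6, ← GNA_cst_apply, ← GNA_cst_apply, map_mul, map_ratCast])
  have hc : ∀ (α : Fin (d - n)) (a : Fin d), ∃ c : C,
      j (algebraMap C Ω c) = GNA_gm F (fun q => (ξ q α (b a) : F)) := fun α a =>
    hjC _ (GNA_ratmem D D' hD' fun q => ξ q α (b a))
  choose c hc using hc
  let u : Fin (d - n) → (W →ₗ[ℚ] C) := fun α => b.constr ℚ (c α)
  have hu : ∀ α a, u α (b a) = c α a := fun α a => b.constr_basis ℚ (c α) a
  have hui : LinearIndependent C u := by
    rw [Fintype.linearIndependent_iff]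
    intro g hg α
    choose γ hγ using fun α => GNA_gm_surj (j (algebraMap C Ω (g α)))
    have h6 : ∀ a, ∀ᶠ q in (Filter.hyperfilter ℕ : Filter ℕ),
        ∑ α, γ α q * (ξ q α (b a) : F) = 0 := by
      intro a
      have h7 := congrArg (fun v : W →ₗ[ℚ] C => j (algebraMap C Ω (v (b a)))) hg
      simp only [LinearMap.sum_apply, LinearMap.smul_apply, smul_eq_mul, map_sum, map_mul, hu,
        hc, ← hγ, LinearMap.zero_apply, map_zero] at h7
      rw [← GNA_gm_zero, ← h7]
      have h8 : (fun q => ∑ α, γ α q * (ξ q α (b a) : F)) =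
          ∑ α, γ α * (fun q => (ξ q α (b a) : F)) := by
        funext q
        rw [Finset.sum_apply]
        rfl
      rw [h8, map_sum]
      refine Finset.sum_congr rfl fun α _ => ?_
      rw [map_mul]
    have h7 := Filter.eventually_all.2 h6
    have h8 : ∀ᶠ q in (Filter.hyperfilter ℕ : Filter ℕ), γ α q = 0 := by
      filter_upwards [h7] with q hq
      have hli := h5 ℚ F W (Fin (d - n)) (ξ q) (hξi q)
      rw [Fintype.linearIndependent_iff] at hli
      refine hli (fun α => γ α q) (b.ext fun a => ?_) α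
      rw [LinearMap.sum_apply, LinearMap.zero_apply, ← hq a]
      rfl
    have h9 : j (algebraMap C Ω (g α)) = 0 := by rw [← hγ, GNA_gm_zero]; exact h8
    exact (map_eq_zero _).1 ((map_eq_zero _).1 h9)
  have hf : ∀ k, ∃ z, j z = GNA_gm F (fun q => ∑ l, (t q (k, l) : F) * m l) := fun k =>
    hjalg _ (GNA_alg2 D D' x hD' m hm fun l q => t q (k, l))
  choose f hf using hf
  have key : ∀ (κ : Fin r → (W →ₗ[ℚ] Ω)) (e : Fin r → Fin d → ℕ → ℚ),
      (∀ i a, j (κ i (b a)) = GNA_gm F (fun q => (e i a q : F))) →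
      j (Matrix.of fun i k => S.DD (κ i) (f k)).det =
        GNA_gm F (fun q => (Matrix.of fun i k => ∑ a, (e i a q : F) *
          D a (∑ l, (t q (k, l) : F) * m l)).det) := by
    intro κ e he
    rw [RingHom.map_det, ← GNA_det r fun i k q => ∑ a, (e i a q : F) *
          D a (∑ l, (t q (k, l) : F) * m l)]
    congr 1
    ext i k
    rw [RingHom.mapMatrix_apply, Matrix.map_apply, Matrix.of_apply, Matrix.of_apply, hjD]
    have h8 : (fun q => ∑ a, (e i a q : F) * D a (∑ l, (t q (k, l) : F) * m l)) =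
        ∑ a, (fun q => (e i a q : F)) * (fun q => D a (∑ l, (t q (k, l) : F) * m l)) := by
      funext q
      rw [Finset.sum_apply]
      rfl
    rw [h8, map_sum]
    refine Finset.sum_congr rfl fun a _ => ?_
    rw [map_mul, he, hf, hD']
  obtain ⟨V0, hV0, hV0'⟩ := h1 C Ω W S r (d - n) f u hui (by
    intro k
    apply j.injective
    rw [map_zero, key (fun i => up Ω (u (k i))) (fun i a q => ξ q (k i) (b a))
      (fun i a => by rw [up_apply, hu, hc]), GNA_gm_zero]
    exact Filter.Eventually.of_forall fun q =>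
      hVd q (fun i => ξ q (k i)) (fun i v hv => hξv q (k i) v hv))
  refine ⟨V0, by omega, fun η hη k => ?_⟩
  have h6 := congrArg j (hV0' η hη)
  rw [map_zero, key (fun i => up Ω (η i)) (fun i a _ => η i (b a)) (fun i a => by
    rw [up_apply, ← GNA_cst_apply, map_ratCast]
    exact map_ratCast (j.comp (algebraMap ℚ Ω)) _), GNA_gm_zero] at h6
  exact GNA_final D m (fun i a => η i (b a)) t htg
    (h6.frequently.filter_mono Nat.hyperfilter_le_atTop) k

end Pool.Agent.Lib.MP_c82530_nt.UR
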