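import Pool.Agent.Lib.MP_c82530_nt.UR.Stm

/-!
# MP_c82530_nt, project UR: algebraically dependent elements have vanishing Jacobian determinants
-/

set_option autoImplicit false

namespace Pool.Agent.Lib.MP_c82530_nt.UR

open MvPolynomial

/-- the chain rule -/
private theorem JAC_chain {K F : Type} [Field K] [Field F] [Algebra K F] {r : ℕ}
    (f : Fin r → F) (D : Derivation K F F) (P : MvPolynomial (Fin r) K) :
    D (aeval f P) = ∑ k, D (f k) * aeval f (pderiv k P) := by
  induction P using MvPolynomial.induction_on with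
  | C a => simp
  | add p q hp hq =>
    simp only [map_add, hp, hq, mul_add, Finset.sum_add_distrib]
  | mul_X p j hp =>
    have h1 : ∀ k, D (f k) * aeval f (pderiv k (p * X j)) =
        f j * (D (f k) * aeval f (pderiv k p)) + aeval f p * (D (f k) * if k = j then 1 else 0) := by
      intro k
      have h2 : (pderiv k (X j : MvPolynomial (Fin r) K)) = if k = j then 1 else 0 := by
        rcases eq_or_ne k j with rfl | h
        · rw [pderiv_X_self, if_pos rfl]
        · rw [pderiv_X_of_ne h.symm, if_neg h]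
      rw [pderiv_mul, h2, map_add, map_mul, map_mul, aeval_X]
      split_ifs
      · rw [map_one]
        ring
      · rw [map_zero]
        ring
    rw [Finset.sum_congr rfl fun k _ => h1 k, Finset.sum_add_distrib, ← Finset.mul_sum, ← hp,
      ← Finset.mul_sum, map_mul, aeval_X, Derivation.leibniz, smul_eq_mul, smul_eq_mul]
    have h3 : ∑ k, D (f k) * (if k = j then (1 : F) else 0) = D (f j) := by
      rw [Finset.sum_eq_single j]
      · rw [if_pos rfl, mul_one]
      · intro k _ hk
        rw [if_neg hk, mul_zero]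
      · intro h
        exact absurd (Finset.mem_univ j) h
    rw [h3]
    ring

/-- a polynomial which is not constant has a nonzero derivative, of smaller degree -/
private theorem JAC_der {K : Type} [Field K] [CharZero K] {r : ℕ} (P : MvPolynomial (Fin r) K)
    (m : Fin r →₀ ℕ) (hm : m ≠ 0) (hc : coeff m P ≠ 0) :
    ∃ k, pderiv k P ≠ 0 ∧ (pderiv k P).totalDegree < P.totalDegree := by
  obtain ⟨k, hk⟩ : ∃ k, m k ≠ 0 := by
    by_contra h
    push Not at h
    exact hm (Finsupp.ext h)
  have h0 : m - Finsupp.single k 1 + Finsupp.single k 1 = m := by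
    ext j
    rw [Finsupp.add_apply, Finsupp.tsub_apply]
    rcases eq_or_ne j k with rfl | h
    · rw [Finsupp.single_eq_same]
      omega
    · rw [Finsupp.single_eq_of_ne h]
      omega
  have h1 : coeff (m - Finsupp.single k 1) (pderiv k P) ≠ 0 := by
    rw [coeff_pderiv, h0]
    refine mul_ne_zero hc ?_
    exact Nat.cast_add_one_ne_zero _
  have h2 : pderiv k P ≠ 0 := by
    intro h
    rw [h, coeff_zero] at h1
    exact h1 rfl
  refine ⟨k, h2, ?_⟩
  obtain ⟨n, hn, hd⟩ := Finset.exists_mem_eq_sup (pderiv k P).support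
    (by rwa [Finset.nonempty_iff_ne_empty, Ne, support_eq_empty]) (fun s => s.sum fun _ e => e)
  have h3 : coeff (n + Finsupp.single k 1) P ≠ 0 := by
    intro h
    rw [mem_support_iff, coeff_pderiv, h, zero_mul] at hn
    exact hn rfl
  have h4 := le_totalDegree (mem_support_iff.mpr h3)
  rw [Finsupp.sum_add_index' (fun _ => rfl) (fun _ _ _ => rfl), Finsupp.sum_single_index rfl] at h4
  have h5 : (pderiv k P).totalDegree = n.sum fun _ e => e := hd
  omega

theorem p_JAC : JAC := by
  classical
  intro K F _ _ _ _ r f D hf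
  rw [algebraicIndependent_iff] at hf
  push Not at hf
  have hex : ∃ n : ℕ, ∃ P : MvPolynomial (Fin r) K, P ≠ 0 ∧ aeval f P = 0 ∧ P.totalDegree = n := by
    obtain ⟨P, h1, h2⟩ := hf
    exact ⟨_, P, h2, h1, rfl⟩
  obtain ⟨P, hP, hPf, hdeg⟩ := Nat.find_spec hex
  have hmin : ∀ Q : MvPolynomial (Fin r) K, Q ≠ 0 → Q.totalDegree < P.totalDegree →
      aeval f Q ≠ 0 := by
    intro Q hQ hlt h
    rw [hdeg] at hlt
    exact Nat.find_min hex hlt ⟨Q, hQ, h, rfl⟩
  have hm : ∃ m : Fin r →₀ ℕ, m ≠ 0 ∧ coeff m P ≠ 0 := by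
    by_contra hcon
    push Not at hcon
    have h1 : P = C (coeff 0 P) := by
      ext m
      rw [coeff_C]
      rcases eq_or_ne m 0 with rfl | h
      · rw [if_pos rfl]
      · rw [if_neg h.symm, hcon m h]
    rw [h1, aeval_C] at hPf
    have h2 : coeff 0 P = 0 := (map_eq_zero_iff _ (algebraMap K F).injective).mp hPf
    rw [h2, map_zero] at h1
    exact hP h1
  obtain ⟨m, hm0, hmc⟩ := hm
  obtain ⟨k, hk, hkd⟩ := JAC_der P m hm0 hmc
  rw [← Matrix.exists_mulVec_eq_zero_iff]
  refine ⟨fun k => aeval f (pderiv k P), fun h => hmin _ hk hkd (congrFun h k), ?_⟩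
  funext i
  show ∑ k, D i (f k) * aeval f (pderiv k P) = 0
  rw [← JAC_chain, hPf, map_zero]

end Pool.Agent.Lib.MP_c82530_nt.UR
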