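import Pool.Agent.Lib.MP_c82530_nt.UR.Stm

/-!
# MP_c82530_nt, project UR: linear independence over `C` and over `Ω` (`LI`, `LIN`)
-/

set_option autoImplicit false

namespace Pool.Agent.Lib.MP_c82530_nt.UR

theorem p_LI : LI := by
  intro C Ω W ι _ _ _ _ _ _ _ _ u hu
  rw [Fintype.linearIndependent_iff] at hu ⊢
  intro g hg i
  rw [← Module.forall_dual_apply_eq_zero_iff C (g i)]
  intro l
  refine hu (fun i => l (g i)) ?_ i
  ext w
  have h1 := congrArg (fun f : W →ₗ[ℚ] Ω => l (f w)) hg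
  simp only [LinearMap.sum_apply, LinearMap.smul_apply, up_apply, map_sum, LinearMap.zero_apply,
    map_zero, smul_eq_mul] at h1 ⊢
  rw [← h1]
  refine Finset.sum_congr rfl fun j _ => ?_
  rw [mul_comm (g j), ← Algebra.smul_def, map_smul, smul_eq_mul, mul_comm]

private theorem LI_up_add {C Ω W : Type} [Field C] [CharZero C] [Field Ω] [CharZero Ω]
    [Algebra C Ω] [AddCommGroup W] [Module ℚ W] (u v : W →ₗ[ℚ] C) :
    up Ω (u + v) = up Ω u + up Ω v := by
  ext w
  simp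

private theorem LI_up_smul {C Ω W : Type} [Field C] [CharZero C] [Field Ω] [CharZero Ω]
    [Algebra C Ω] [AddCommGroup W] [Module ℚ W] (c : C) (u : W →ₗ[ℚ] C) :
    up Ω (c • u) = algebraMap C Ω c • up Ω u := by
  ext w
  rw [up_apply, LinearMap.smul_apply, LinearMap.smul_apply, up_apply, smul_eq_mul, smul_eq_mul,
    map_mul]

private theorem LI_up_sum {C Ω W ι : Type} [Field C] [CharZero C] [Field Ω] [CharZero Ω]
    [Algebra C Ω] [AddCommGroup W] [Module ℚ W] [Fintype ι] (c : ι → C) (u : ι → (W →ₗ[ℚ] C)) :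
    up Ω (∑ i, c i • u i) = ∑ i, algebraMap C Ω (c i) • up Ω (u i) := by
  ext w
  simp only [up_apply, LinearMap.sum_apply, LinearMap.smul_apply, smul_eq_mul, map_sum, map_mul]

private theorem LI_compl {C M : Type} [Field C] [AddCommGroup M] [Module C M]
    (U U₀ : Submodule C M) (h0 : U₀ ≤ U) [FiniteDimensional C U] :
    ∃ (k : ℕ) (b : Fin k → M), (∀ i, b i ∈ U) ∧
      (∀ c : Fin k → C, ∑ i, c i • b i ∈ U₀ → ∀ i, c i = 0) ∧
      ∀ u ∈ U, ∃ c : Fin k → C, u - ∑ i, c i • b i ∈ U₀ := by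
  classical
  obtain ⟨U₁', hU₁'⟩ := Submodule.exists_isCompl U₀
  obtain ⟨U₁, hU₁⟩ : ∃ U₁ : Submodule C M, U₁ = U₁' ⊓ U := ⟨_, rfl⟩
  have hdis : ∀ u ∈ U₁, u ∈ U₀ → u = 0 := by
    intro u h1 h2
    rw [hU₁] at h1
    have h3 : u ∈ U₀ ⊓ U₁' := ⟨h2, h1.1⟩
    rw [hU₁'.inf_eq_bot] at h3
    exact (Submodule.mem_bot C).1 h3
  have hle : U₁ ≤ U := by
    rw [hU₁]
    exact inf_le_right
  have hsum : ∀ u ∈ U, ∃ u₁ ∈ U₁, u - u₁ ∈ U₀ := by
    intro u hu
    have h1 : u ∈ U₀ ⊔ U₁' := by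
      rw [hU₁'.sup_eq_top]
      exact Submodule.mem_top
    obtain ⟨u₀, hu₀, u₁, hu₁, rfl⟩ := Submodule.mem_sup.1 h1
    refine ⟨u₁, ?_, ?_⟩
    · rw [hU₁]
      refine ⟨hu₁, ?_⟩
      have h2 := U.sub_mem hu (h0 hu₀)
      rwa [add_sub_cancel_left] at h2
    · rwa [add_sub_cancel_right]
  have hfd : FiniteDimensional C U₁ := Submodule.finiteDimensional_of_le hle
  have b := Module.finBasis C U₁
  refine ⟨Module.finrank C U₁, fun i => (b i : M), fun i => hle (b i).2, ?_, ?_⟩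
  · intro c hc i
    have h1 : (∑ i, c i • (b i : M)) ∈ U₁ :=
      Submodule.sum_mem _ fun i _ => Submodule.smul_mem _ _ (b i).2
    have h3 := hdis _ h1 hc
    have h4 : ∑ i, c i • b i = 0 := by
      apply Subtype.ext
      simpa using h3
    exact Fintype.linearIndependent_iff.1 b.linearIndependent c h4 i
  · intro u hu
    obtain ⟨u₁, hu₁, hu'⟩ := hsum u hu
    refine ⟨fun i => b.repr ⟨u₁, hu₁⟩ i, ?_⟩
    have h1 := b.sum_repr ⟨u₁, hu₁⟩
    have h2 := congrArg (Subtype.val) h1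
    have h3 : ∑ i, (b.repr ⟨u₁, hu₁⟩ i) • (b i : M) = u₁ := by
      refine Eq.trans ?_ h2
      rw [Submodule.coe_sum]
      rfl
    rw [h3]
    exact hu'

theorem p_LIN (h : LI) : LIN := by
  intro C Ω W _ _ _ _ _ _ _ U _ V φ hφ hV
  obtain ⟨k, b, hbU, hb0, hbs⟩ := LI_compl U (Van U V) (fun u hu => hu.1)
  -- the decomposition
  have hdec : UpS Ω U ≤ UpS Ω (Van U V) ⊔ Submodule.span Ω
      (Set.range fun i : Fin k => up Ω (b i)) := by
    unfold UpS
    rw [Submodule.span_le]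
    rintro _ ⟨u, hu, rfl⟩
    obtain ⟨c, hc⟩ := hbs u hu
    have h1 : up Ω u = up Ω (u - ∑ i, c i • b i) + ∑ i, algebraMap C Ω (c i) • up Ω (b i) := by
      rw [← LI_up_sum, ← LI_up_add, sub_add_cancel]
    show up Ω u ∈ _
    rw [h1]
    refine Submodule.add_mem_sup (Submodule.subset_span ⟨_, hc, rfl⟩) ?_
    exact Submodule.sum_mem _ fun i _ => Submodule.smul_mem _ _ (Submodule.subset_span ⟨i, rfl⟩)
  obtain ⟨φ₀, hφ₀, φ₁, hφ₁, rfl⟩ := Submodule.mem_sup.1 (hdec hφ)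
  -- elements of `UpS Ω (Van U V)` vanish on `V`
  have hvan : ∀ ψ ∈ UpS Ω (Van U V), ∀ v ∈ V, ψ v = 0 := by
    intro ψ hψ v hv
    induction hψ using Submodule.span_induction with
    | mem x hx =>
      obtain ⟨u, hu, rfl⟩ := hx
      rw [up_apply, hu.2 v hv, map_zero]
    | zero => rfl
    | add x y _ _ hx hy => rw [LinearMap.add_apply, hx, hy, add_zero]
    | smul c x _ hx => rw [LinearMap.smul_apply, hx, smul_zero]
  obtain ⟨g, rfl⟩ := (Submodule.mem_span_range_iff_exists_fun Ω).1 hφ₁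
  -- the restrictions are linearly independent
  have hr : LinearIndependent C (fun i => (b i).comp V.subtype) := by
    rw [Fintype.linearIndependent_iff]
    intro c hc
    refine hb0 c ⟨Submodule.sum_mem _ fun i _ => Submodule.smul_mem _ _ (hbU i), fun v hv => ?_⟩
    have h3 := congrArg (fun f : V →ₗ[ℚ] C => f ⟨v, hv⟩) hc
    simp only [LinearMap.sum_apply, LinearMap.smul_apply, LinearMap.zero_apply] at h3 ⊢
    exact h3
  have hr' := h C Ω V (Fin k) _ hr
  have hg : ∀ i, g i = 0 := by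
    refine Fintype.linearIndependent_iff.1 hr' g ?_
    ext v
    have h1 := hV v.1 v.2
    rw [LinearMap.add_apply, hvan _ hφ₀ v.1 v.2, zero_add] at h1
    simp only [LinearMap.sum_apply, LinearMap.smul_apply, LinearMap.zero_apply] at h1 ⊢
    exact h1
  have h1 : ∑ i, g i • up Ω (b i) = 0 := by
    refine Finset.sum_eq_zero fun i _ => ?_
    rw [hg i, zero_smul]
  rw [h1, add_zero]
  exact hφ₀

end Pool.Agent.Lib.MP_c82530_nt.UR
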