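import Pool.Agent.Lib.MP_c82530_nt.UR.Stm

/-!
# MP_c82530_nt, project UR: piece NRM (norms), and RES from CT and NRM
-/

set_option autoImplicit false

open Polynomial IntermediateField

namespace Pool.Agent.Lib.MP_c82530_nt.UR

/-- the derivation of a value of a polynomial -/
private theorem nrm_poly {K Ω : Type} [Field K] [Field Ω] [Algebra K Ω]
    (E : Derivation K Ω Ω) (L₀ : IntermediateField K Ω) (hE : ∀ a ∈ L₀, E a ∈ L₀) (p : L₀[X]) :
    ∃ q : L₀[X], ∀ w : Ω, E (aeval w p) = aeval w q + aeval w (derivative p) * E w := by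
  induction p using Polynomial.induction_on' with
  | add p q hp hq =>
    obtain ⟨p', hp'⟩ := hp
    obtain ⟨q', hq'⟩ := hq
    refine ⟨p' + q', fun w => ?_⟩
    simp only [map_add, hp', hq']
    ring
  | monomial n a =>
    refine ⟨monomial n (⟨E a, hE _ a.2⟩ : L₀), fun w => ?_⟩
    rw [aeval_monomial, aeval_monomial, derivative_monomial, aeval_monomial]
    have h1 : algebraMap L₀ Ω a = (a : Ω) := rfl
    have h2 : algebraMap L₀ Ω (⟨E a, hE _ a.2⟩ : L₀) = E a := rfl
    have h3 : algebraMap L₀ Ω (a * (n : L₀)) = (a : Ω) * (n : Ω) := by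
      rw [map_mul, map_natCast, h1]
    rw [h3, h1, h2, Derivation.leibniz, Derivation.leibniz_pow]
    simp only [smul_eq_mul, nsmul_eq_mul]
    ring

/-- the field `K(x)` is stable -/
private theorem nrm_stable {K Ω : Type} [Field K] [Field Ω] [Algebra K Ω]
    (E : Derivation K Ω Ω) (x : Ω) (hx : E x = x) : ∀ a ∈ K⟮x⟯, E a ∈ K⟮x⟯ := by
  intro a ha
  induction ha using IntermediateField.adjoin_induction with
  | mem y hy =>
    rw [Set.mem_singleton_iff] at hy
    rw [hy, hx]
    exact mem_adjoin_simple_self K x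
  | algebraMap y =>
    rw [Derivation.map_algebraMap]
    exact zero_mem _
  | add y z _ _ hy hz =>
    rw [map_add]
    exact add_mem hy hz
  | inv y hy' hy =>
    rw [Derivation.leibniz_inv, smul_eq_mul]
    exact mul_mem (neg_mem (pow_mem (inv_mem hy') 2)) hy
  | mul y z hy' hz' hy hz =>
    rw [Derivation.leibniz, smul_eq_mul, smul_eq_mul]
    exact add_mem (mul_mem hy' hz) (mul_mem hz' hy)

/-- the logarithmic derivative of a product -/
private theorem nrm_prod {K Ω ι : Type} [Field K] [Field Ω] [Algebra K Ω]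
    (E : Derivation K Ω Ω) (s : Finset ι) (f : ι → Ω) (hf : ∀ i ∈ s, f i ≠ 0) :
    E (∏ i ∈ s, f i) / ∏ i ∈ s, f i = ∑ i ∈ s, E (f i) / f i := by
  classical
  induction s using Finset.induction_on with
  | empty => simp
  | insert a s ha ih =>
    have h1 : f a ≠ 0 := hf a (Finset.mem_insert_self _ _)
    have h2 : ∏ i ∈ s, f i ≠ 0 :=
      Finset.prod_ne_zero_iff.2 fun i hi => hf i (Finset.mem_insert_of_mem hi)
    rw [Finset.prod_insert ha, Finset.sum_insert ha, ← ih fun i hi => hf i (Finset.mem_insert_of_mem hi),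
      Derivation.leibniz, smul_eq_mul, smul_eq_mul]
    field_simp
    ring

theorem p_NRM : NRM := by
  intro K Ω _ _ _ _ _ E x hx0 hx s ε z c hz halg hsum
  classical
  set L₀ : IntermediateField K Ω := K⟮x⟯ with hL₀
  have hchar : CharZero L₀ := charZero_of_injective_algebraMap (algebraMap K L₀).injective
  have hE : ∀ a ∈ L₀, E a ∈ L₀ := nrm_stable E x hx
  set L : IntermediateField L₀ Ω := IntermediateField.adjoin L₀ (Set.range z) with hL
  have hfin : FiniteDimensional L₀ L := by
    apply IntermediateField.finiteDimensional_adjoin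
    rintro _ ⟨k, rfl⟩
    exact (halg k).isIntegral
  have hzL : ∀ k, z k ∈ L := fun k => IntermediateField.subset_adjoin _ _ ⟨k, rfl⟩
  -- `E` maps `L` to `L`
  have key : ∀ y : L, ∃ y' : L, (y' : Ω) = E (y : Ω) ∧ ∀ σ : L →ₐ[L₀] Ω, E (σ y) = σ y' := by
    intro y
    have hy : IsIntegral L₀ y := Algebra.IsIntegral.isIntegral y
    set p : L₀[X] := minpoly L₀ y with hp
    obtain ⟨q, hq⟩ := nrm_poly E L₀ hE p
    have hsep : p.Separable := (minpoly.irreducible hy).separable
    have hpy : aeval y p = 0 := minpoly.aeval L₀ y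
    have hd : aeval y (derivative p) ≠ 0 := hsep.aeval_derivative_ne_zero hpy
    have hcoe : ∀ r : L₀[X], ((aeval y r : L) : Ω) = aeval (y : Ω) r := fun r =>
      (aeval_algHom_apply (IntermediateField.val L) y r).symm
    have hσ : ∀ (σ : L →ₐ[L₀] Ω) (r : L₀[X]), aeval (σ y) r = σ (aeval y r) := fun σ r =>
      aeval_algHom_apply σ y r
    set y' : L := - aeval y q / aeval y (derivative p) with hy'
    have hmul : aeval y q + aeval y (derivative p) * y' = 0 := by
      rw [hy']
      field_simp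
      ring
    refine ⟨y', ?_, ?_⟩
    · have h1 := hq (y : Ω)
      rw [← hcoe, ← hcoe, ← hcoe, hpy] at h1
      have h2 : ((aeval y q : L) : Ω) + ((aeval y (derivative p) : L) : Ω) * (y' : Ω) = 0 := by
        have := congrArg (fun t : L => (t : Ω)) hmul
        simpa using this
      have h3 : ((aeval y (derivative p) : L) : Ω) ≠ 0 := by
        intro h
        apply hd
        exact_mod_cast h
      have h4 : E (((0 : L) : Ω)) = 0 := by
        rw [show ((0 : L) : Ω) = 0 from rfl, map_zero]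
      rw [h4] at h1
      apply mul_left_cancel₀ h3
      linear_combination h2 - h1.symm
    · intro σ
      have h1 := hq (σ y)
      rw [hσ, hσ, hσ, hpy, map_zero, map_zero] at h1
      have h2 : σ (aeval y q) + σ (aeval y (derivative p)) * σ y' = 0 := by
        rw [← map_mul, ← map_add, hmul, map_zero]
      have h3 : σ (aeval y (derivative p)) ≠ 0 := by
        intro h
        exact hd ((map_eq_zero σ).1 h)
      apply mul_left_cancel₀ h3
      linear_combination h1.symm - h2
  -- the elements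
  set zL : Fin s → L := fun k => ⟨z k, hzL k⟩ with hzLdef
  choose D hD1 hD2 using key
  have hzL0 : ∀ k, zL k ≠ 0 := by
    intro k h
    apply hz k
    exact congrArg (fun t : L => (t : Ω)) h
  have hsumL : ∑ k, algebraMap K L (ε k) * (D (zL k) / zL k) = algebraMap K L c := by
    apply Subtype.val_injective
    have h1 : ((algebraMap K L c : L) : Ω) = algebraMap K Ω c := rfl
    rw [h1, ← hsum]
    push_cast
    apply Finset.sum_congr rfl
    intro k _
    rw [hD1]
    rfl
  have hσsum : ∀ σ : L →ₐ[L₀] Ω,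
      ∑ k, algebraMap K Ω (ε k) * (E (σ (zL k)) / σ (zL k)) = algebraMap K Ω c := by
    intro σ
    have hK : ∀ a : K, σ (algebraMap K L a) = algebraMap K Ω a := by
      intro a
      have h1 : algebraMap K L a = algebraMap L₀ L (algebraMap K L₀ a) := rfl
      rw [h1, AlgHom.commutes]
      rfl
    have h1 := congrArg σ hsumL
    rw [map_sum, hK] at h1
    rw [← h1]
    apply Finset.sum_congr rfl
    intro k _
    rw [map_mul, map_div₀, hK, hD2]
  have hnorm : ∀ k, algebraMap L₀ Ω (Algebra.norm L₀ (zL k)) = ∏ σ : L →ₐ[L₀] Ω, σ (zL k) :=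
    fun k => Algebra.norm_eq_prod_embeddings L₀ Ω (zL k)
  have hne : Nonempty (L →ₐ[L₀] Ω) := ⟨IntermediateField.val L⟩
  refine ⟨Fintype.card (L →ₐ[L₀] Ω), fun k => algebraMap L₀ Ω (Algebra.norm L₀ (zL k)),
    Fintype.card_ne_zero, ?_, ?_, ?_⟩
  · intro k
    show algebraMap L₀ Ω (Algebra.norm L₀ (zL k)) ≠ 0
    rw [hnorm]
    exact Finset.prod_ne_zero_iff.2 fun σ _ h => hzL0 k ((map_eq_zero σ).1 h)
  · intro k
    exact (Algebra.norm L₀ (zL k)).2
  · have h1 : ∀ k, E (algebraMap L₀ Ω (Algebra.norm L₀ (zL k))) /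
        algebraMap L₀ Ω (Algebra.norm L₀ (zL k)) =
        ∑ σ : L →ₐ[L₀] Ω, E (σ (zL k)) / σ (zL k) := by
      intro k
      rw [hnorm]
      exact nrm_prod E Finset.univ (fun σ : L →ₐ[L₀] Ω => σ (zL k))
        fun σ _ h => hzL0 k ((map_eq_zero σ).1 h)
    simp only [h1, Finset.mul_sum]
    rw [Finset.sum_comm]
    simp only [hσsum]
    rw [Finset.sum_const, Finset.card_univ, nsmul_eq_mul, map_mul, map_natCast]

theorem p_RES (h1 : CT) (h2 : NRM) : RES := by
  intro K Ω _ _ _ _ _ E x hx0 hx s ε z c hz halg hsum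
  obtain ⟨N, g, hN, hg0, hg, hgs⟩ := h2 K Ω E x hx0 hx s ε z c hz halg hsum
  obtain ⟨n, hn⟩ := h1 K Ω E x hx0 hx s ε g ((N : K) * c) hg0 hg hgs
  have hN' : (N : K) ≠ 0 := Nat.cast_ne_zero.2 hN
  refine ⟨fun k => (n k : ℚ) / N, ?_⟩
  apply mul_left_cancel₀ hN'
  rw [hn, Finset.mul_sum]
  apply Finset.sum_congr rfl
  intro k _
  push_cast
  field_simp

end Pool.Agent.Lib.MP_c82530_nt.UR
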