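import Pool.Agent.Lib.MP_c82530_nt.UR.Stm

/-!
# MP_c82530_nt, project UR: [SZ] the main step, after J. Ax
-/

set_option autoImplicit false

open Polynomial IntermediateField

namespace Pool.Agent.Lib.MP_c82530_nt.UR

section

variable {C Ω W : Type} [Field C] [CharZero C] [Field Ω] [CharZero Ω] [Algebra C Ω]
  [AddCommGroup W] [Module ℚ W]

/-- a derivation killing an intermediate field kills what is algebraic over it -/
private theorem sz_alg (L : IntermediateField C Ω) (D : Derivation C Ω Ω)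
    (hD : ∀ h ∈ L, D h = 0) (z : Ω) (hz : IsAlgebraic L z) : D z = 0 := by
  let D' : Derivation L Ω Ω :=
    { toFun := D
      map_add' := fun a b => map_add D a b
      map_smul' := by
        intro c w
        show D (c • w) = c • D w
        rw [Algebra.smul_def, Algebra.smul_def, Derivation.leibniz, smul_eq_mul, smul_eq_mul,
          hD _ (show algebraMap L Ω c ∈ L from c.2), mul_zero, add_zero]
      map_one_eq_zero' := D.map_one_eq_zero
      leibniz' := D.leibniz }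
  have hi : IsIntegral L z := hz.isIntegral
  have hm : (minpoly L z).Separable := (minpoly.irreducible hi).separable
  have h1 := Derivation.map_aeval D' (minpoly L z) z
  rw [minpoly.aeval, map_zero] at h1
  have h2 : aeval z (derivative (minpoly L z)) ≠ 0 :=
    hm.aeval_derivative_ne_zero (minpoly.aeval _ _)
  have h3 : D' z = 0 := by
    have h4 : aeval z (derivative (minpoly L z)) * D' z = 0 := h1.symm
    exact (mul_eq_zero.1 h4).resolve_left h2
  exact h3

/-- the vectors orthogonal to `Tan 𝒟` and to `U₀` -/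
private def szS (S : Tor C Ω W) (𝒟 : Submodule Ω (W →ₗ[ℚ] Ω)) (U₀ : Submodule C (W →ₗ[ℚ] C))
    {p : ℕ} (y : Fin p → W) : Submodule Ω (Fin p → Ω) where
  carrier := {e | (∀ ψ ∈ S.Tan 𝒟, ∑ j, e j * ψ (y j) = 0) ∧
    ∀ u ∈ U₀, ∑ j, e j * algebraMap C Ω (u (y j)) = 0}
  zero_mem' := ⟨fun ψ _ => by simp, fun u _ => by simp⟩
  add_mem' := by
    rintro a b ⟨ha, ha'⟩ ⟨hb, hb'⟩
    refine ⟨fun ψ hψ => ?_, fun u hu => ?_⟩
    · simp only [Pi.add_apply, add_mul, Finset.sum_add_distrib]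
      rw [ha ψ hψ, hb ψ hψ, add_zero]
    · simp only [Pi.add_apply, add_mul, Finset.sum_add_distrib]
      rw [ha' u hu, hb' u hu, add_zero]
  smul_mem' := by
    rintro c a ⟨ha, ha'⟩
    refine ⟨fun ψ hψ => ?_, fun u hu => ?_⟩
    · simp only [Pi.smul_apply, smul_eq_mul, mul_assoc]
      rw [← Finset.mul_sum, ha ψ hψ, mul_zero]
    · simp only [Pi.smul_apply, smul_eq_mul, mul_assoc]
      rw [← Finset.mul_sum, ha' u hu, mul_zero]

/-- a vector orthogonal to `U₀` is orthogonal to `Ω ⊗ U₀` and to its derivatives -/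
private theorem sz_up (U₀ : Submodule C (W →ₗ[ℚ] C)) {p : ℕ} (y : Fin p → W) (e : Fin p → Ω)
    (he : ∀ u ∈ U₀, ∑ j, e j * algebraMap C Ω (u (y j)) = 0) (D : Derivation C Ω Ω)
    (φ : W →ₗ[ℚ] Ω) (hφ : φ ∈ UpS Ω U₀) :
    ∑ j, e j * φ (y j) = 0 ∧ ∑ j, e j * D (φ (y j)) = 0 := by
  unfold UpS at hφ
  induction hφ using Submodule.span_induction with
  | mem x hx =>
    obtain ⟨u, hu, rfl⟩ := hx
    refine ⟨he u hu, ?_⟩
    apply Finset.sum_eq_zero
    intro j _
    rw [up_apply, Derivation.map_algebraMap, mul_zero]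
  | zero => exact ⟨by simp, by simp⟩
  | add a b _ _ ha hb =>
    constructor
    · simp only [LinearMap.add_apply, mul_add, Finset.sum_add_distrib]
      rw [ha.1, hb.1, add_zero]
    · simp only [LinearMap.add_apply, map_add, mul_add, Finset.sum_add_distrib]
      rw [ha.2, hb.2, add_zero]
  | smul g a _ ha =>
    constructor
    · have h1 : ∑ j, e j * (g • a) (y j) = g * ∑ j, e j * a (y j) := by
        rw [Finset.mul_sum]
        refine Finset.sum_congr rfl fun j _ => ?_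
        rw [LinearMap.smul_apply, smul_eq_mul]
        ring
      rw [h1, ha.1, mul_zero]
    · have h1 : ∑ j, e j * D ((g • a) (y j)) =
          g * (∑ j, e j * D (a (y j))) + D g * ∑ j, e j * a (y j) := by
        rw [Finset.mul_sum, Finset.mul_sum, ← Finset.sum_add_distrib]
        refine Finset.sum_congr rfl fun j _ => ?_
        rw [LinearMap.smul_apply, smul_eq_mul, Derivation.leibniz, smul_eq_mul, smul_eq_mul]
        ring
      rw [h1, ha.1, ha.2, mul_zero, mul_zero, add_zero]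

/-- the elements of `Ω ⊗ U₀` vanish on `V₀` if those of `U₀` do -/
private theorem sz_upv (U₀ : Submodule C (W →ₗ[ℚ] C)) (v : W) (hv : ∀ u ∈ U₀, u v = 0)
    (φ : W →ₗ[ℚ] Ω) (hφ : φ ∈ UpS Ω U₀) : φ v = 0 := by
  unfold UpS at hφ
  induction hφ using Submodule.span_induction with
  | mem x hx =>
    obtain ⟨u, hu, rfl⟩ := hx
    rw [up_apply, hv u hu, map_zero]
  | zero => rfl
  | add a b _ _ ha hb => rw [LinearMap.add_apply, ha, hb, add_zero]
  | smul g a _ ha => rw [LinearMap.smul_apply, ha, smul_zero]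

/-- the elements of `Tan 𝒟` vanish on `V₀` -/
private theorem sz_tanv (S : Tor C Ω W) (𝒟 : Submodule Ω (W →ₗ[ℚ] Ω)) (v : W)
    (hv : v ∈ Tor.V0 𝒟) (ψ : W →ₗ[ℚ] Ω) (hψ : ψ ∈ S.Tan 𝒟) : ψ v = 0 := by
  have h1 : S.x v ∈ S.Cst 𝒟 := by
    intro φ hφ
    rw [S.DD_x, show φ v = 0 from hv φ hφ, zero_mul]
  have h2 := hψ _ h1
  rw [S.DD_x] at h2
  exact (mul_eq_zero.1 h2).resolve_right (S.x_ne v)

/-- the space `szS` is stable -/
private theorem sz_stable (hB : BRK) (S : Tor C Ω W) (𝒟 : Submodule Ω (W →ₗ[ℚ] Ω))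
    (U₀ : Submodule C (W →ₗ[ℚ] C)) (hU : 𝒟 ≤ UpS Ω U₀) {p : ℕ} (y : Fin p → W)
    (φ : W →ₗ[ℚ] Ω) (hφ : φ ∈ 𝒟) (e : Fin p → Ω) (he : e ∈ szS S 𝒟 U₀ y) :
    (fun i => S.DD φ (e i)) ∈ szS S 𝒟 U₀ y := by
  obtain ⟨h1, h2⟩ := he
  constructor
  · intro ψ hψ
    let χ : W →ₗ[ℚ] Ω := AddMonoidHom.toRatLinearMap
      { toFun := fun w => S.DD φ (ψ w) - S.DD ψ (φ w)
        map_zero' := by simp
        map_add' := by
          intro a b
          simp only [map_add]
          ring }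
    have hχ : ∀ w, χ w = S.DD φ (ψ w) - S.DD ψ (φ w) := fun w => rfl
    have hbr := (hB C Ω W S).1 φ ψ χ hχ
    have hχT : χ ∈ S.Tan 𝒟 := by
      intro h hh
      rw [hbr, hψ h hh, show S.DD φ h = 0 from hh φ hφ, map_zero, map_zero, sub_zero]
    have h3 := congrArg (S.DD φ) (h1 ψ hψ)
    rw [map_sum, map_zero] at h3
    have h4 : ∑ j, S.DD φ (e j * ψ (y j)) =
        ∑ j, S.DD φ (e j) * ψ (y j) + (∑ j, e j * χ (y j) + ∑ j, e j * S.DD ψ (φ (y j))) := by
      rw [← Finset.sum_add_distrib, ← Finset.sum_add_distrib]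
      refine Finset.sum_congr rfl fun j _ => ?_
      rw [Derivation.leibniz, smul_eq_mul, smul_eq_mul, hχ]
      ring
    rw [h4, h1 χ hχT, (sz_up U₀ y e h2 (S.DD ψ) φ (hU hφ)).2, add_zero, add_zero] at h3
    exact h3
  · intro u hu
    have h3 := congrArg (S.DD φ) (h2 u hu)
    rw [map_sum, map_zero] at h3
    rw [← h3]
    refine Finset.sum_congr rfl fun j _ => ?_
    rw [Derivation.leibniz, smul_eq_mul, smul_eq_mul, Derivation.map_algebraMap, mul_zero, zero_add,
      mul_comm]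

/-- the claim -/
private theorem sz_claim (hB : BRK) (hD : DSC) (hE : EXD) (hR : RES) [IsAlgClosed Ω]
    (S : Tor C Ω W) (𝒟 : Submodule Ω (W →ₗ[ℚ] Ω)) (U₀ : Submodule C (W →ₗ[ℚ] C))
    (hU : 𝒟 ≤ UpS Ω U₀) {p : ℕ} (y : Fin p → W)
    (hy : ∀ q : Fin p → ℚ, (∑ j, q j • y j) ∈ Tor.V0 𝒟 → q = 0) :
    szS S 𝒟 U₀ y = ⊥ := by
  by_contra hne
  obtain ⟨e, heS, he0, hec⟩ := hD C Ω (Fin p) {D | ∃ φ ∈ 𝒟, D = S.DD φ} (szS S 𝒟 U₀ y)
    (by
      rintro D ⟨φ, hφ, rfl⟩ e he
      exact sz_stable hB S 𝒟 U₀ hU y φ hφ e he) hne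
  have hec' : ∀ i, e i ∈ S.Cst 𝒟 := fun i φ hφ => hec i (S.DD φ) ⟨φ, hφ, rfl⟩
  -- a basis of the rational span
  let Q : Submodule ℚ Ω := Submodule.span ℚ (Set.range e)
  have : FiniteDimensional ℚ Q := FiniteDimensional.span_of_finite ℚ (Set.finite_range e)
  let bQ := Module.finBasis ℚ Q
  set s := Module.finrank ℚ Q with hs
  have heQ : ∀ j, e j ∈ Q := fun j => Submodule.subset_span ⟨j, rfl⟩
  let q : Fin p → Fin s → ℚ := fun j k => bQ.repr ⟨e j, heQ j⟩ k
  let ε : Fin s → Ω := fun k => (bQ k : Ω)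
  have heε : ∀ j, e j = ∑ k, (q j k : Ω) * ε k := by
    intro j
    have h1 := bQ.sum_repr ⟨e j, heQ j⟩
    have h2 := congrArg (Q.subtype) h1
    rw [map_sum] at h2
    simp only [map_smul, Submodule.subtype_apply] at h2
    rw [← h2]
    refine Finset.sum_congr rfl fun k _ => ?_
    rw [Rat.smul_def]
  have hεli : LinearIndependent ℚ ε := by
    have h1 := bQ.linearIndependent
    have h2 := h1.map' Q.subtype (Submodule.ker_subtype Q)
    exact h2
  have hεc : ∀ k, ε k ∈ S.Cst 𝒟 := by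
    intro k
    have h1 : ∀ z ∈ Q, z ∈ S.Cst 𝒟 := by
      intro z hz
      induction hz using Submodule.span_induction with
      | mem x hx =>
        obtain ⟨j, rfl⟩ := hx
        exact hec' j
      | zero => exact zero_mem _
      | add a b _ _ ha hb => exact add_mem ha hb
      | smul g a _ ha =>
        rw [Rat.smul_def]
        exact mul_mem (SubfieldClass.ratCast_mem _ g) ha
    exact h1 _ (bQ k).2
  let a : Fin s → W := fun k => ∑ j, q j k • y j
  -- some `a k` is not in `V₀`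
  obtain ⟨k₀, hk₀⟩ : ∃ k₀, a k₀ ∉ Tor.V0 𝒟 := by
    by_contra hcon
    push Not at hcon
    apply he0
    funext j
    rw [heε j]
    apply Finset.sum_eq_zero
    intro k _
    have h1 := congrFun (hy (fun j => q j k) (hcon k)) j
    have h2 : q j k = 0 := h1
    rw [h2, Rat.cast_zero, zero_mul]
  have hxc : S.x (a k₀) ∉ S.Cst 𝒟 := by
    intro hx
    apply hk₀
    intro φ hφ
    have h1 := hx φ hφ
    rw [S.DD_x] at h1
    exact (mul_eq_zero.1 h1).resolve_right (S.x_ne _)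
  have hrel : ∀ z : Ω, IsAlgebraic (S.Cst 𝒟) z → z ∈ S.Cst 𝒟 := by
    intro z hz φ hφ
    exact sz_alg (S.Cst 𝒟) (S.DD φ) (fun h hh => hh φ hφ) z hz
  obtain ⟨K, hCK, hKalg, E, hEy⟩ := hE C Ω (S.Cst 𝒟) (S.x (a k₀)) hrel hxc
  obtain ⟨ψ, hψ⟩ := (hB C Ω W S).2 (E.restrictScalars C)
  have hEψ : ∀ z, S.DD ψ z = E z := by
    intro z
    rw [← hψ]
    rfl
  have hψT : ψ ∈ S.Tan 𝒟 := by
    intro h hh
    rw [hEψ]
    exact E.map_algebraMap ⟨h, hCK hh⟩
  have hEx : ∀ w, E (S.x w) / S.x w = ψ w := by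
    intro w
    rw [← hEψ, S.DD_x, mul_div_assoc, div_self (S.x_ne w), mul_one]
  -- the relation
  have hrel2 : ∑ k, ε k * ψ (a k) = 0 := by
    have h1 := heS.1 ψ hψT
    rw [← h1]
    have h2 : ∀ k, ε k * ψ (a k) = ∑ j, (q j k : Ω) * ε k * ψ (y j) := by
      intro k
      show ε k * ψ (∑ j, q j k • y j) = _
      rw [map_sum, Finset.mul_sum]
      refine Finset.sum_congr rfl fun j _ => ?_
      rw [map_smul, Rat.smul_def]
      ring
    rw [Finset.sum_congr rfl fun k _ => h2 k, Finset.sum_comm]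
    refine Finset.sum_congr rfl fun j _ => ?_
    rw [← Finset.sum_mul, ← heε j]
  have hψk₀ : ψ (a k₀) = 1 := by
    rw [← hEx, hEy, div_self (S.x_ne _)]
  -- residues
  let εK : Fin s → K := fun k => ⟨ε k, hCK (hεc k)⟩
  obtain ⟨r, hr⟩ := hR K Ω E (S.x (a k₀)) (S.x_ne _) hEy s
    (fun k => if k = k₀ then 0 else εK k) (fun k => S.x (a k)) (-εK k₀) (fun k => S.x_ne _)
    (fun k => hKalg _) (by
      rw [Finset.sum_congr rfl fun k _ => by rw [hEx]]
      rw [← Finset.add_sum_erase _ _ (Finset.mem_univ k₀), hψk₀, mul_one] at hrel2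
      rw [← Finset.add_sum_erase _ _ (Finset.mem_univ k₀)]
      simp only [if_true, map_zero, zero_mul, zero_add]
      rw [Finset.sum_congr rfl fun k hk => by rw [if_neg (Finset.ne_of_mem_erase hk)]]
      have h3 : ∀ k, algebraMap K Ω (εK k) = ε k := fun k => rfl
      simp only [h3, map_neg]
      linear_combination hrel2)
  -- the contradiction
  have hr' := congrArg (algebraMap K Ω) hr
  rw [map_neg, map_sum] at hr'
  have h5 : ∑ k, (if k = k₀ then (1 : ℚ) else r k) • ε k = 0 := by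
    rw [← Finset.add_sum_erase _ _ (Finset.mem_univ k₀)] at hr' ⊢
    have h6 : algebraMap K Ω ((r k₀ : K) * if k₀ = k₀ then 0 else εK k₀) = 0 := by
      rw [if_pos rfl, mul_zero, map_zero]
    rw [h6, zero_add] at hr'
    have h7 : ∀ k ∈ Finset.univ.erase k₀, algebraMap K Ω ((r k : K) * if k = k₀ then 0 else εK k) =
        (if k = k₀ then (1 : ℚ) else r k) • ε k := by
      intro k hk
      rw [if_neg (Finset.ne_of_mem_erase hk), if_neg (Finset.ne_of_mem_erase hk), map_mul,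
        map_ratCast, Rat.smul_def]
      rfl
    rw [Finset.sum_congr rfl h7] at hr'
    rw [if_pos rfl, one_smul]
    have h8 : algebraMap K Ω (εK k₀) = ε k₀ := rfl
    rw [h8] at hr'
    linear_combination -hr'
  have h9 := (Fintype.linearIndependent_iff.1 hεli) _ h5 k₀
  rw [if_pos rfl] at h9
  exact one_ne_zero h9

end

theorem p_SZ (hB : BRK) (hD : DSC) (hE : EXD) (hR : RES) : SZ := by
  intro C Ω W _ _ _ _ _ _ _ _ _ S 𝒟 U₀ hU hV ψ hψ
  obtain ⟨Y, hY⟩ := Submodule.exists_isCompl (Tor.V0 𝒟)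
  let b := Module.finBasis ℚ Y
  set p := Module.finrank ℚ Y with hp
  let y : Fin p → W := fun j => (b j : W)
  have hyY : ∀ q : Fin p → ℚ, (∑ j, q j • y j) ∈ Y := fun q =>
    Submodule.sum_mem _ fun j _ => Y.smul_mem _ (b j).2
  have hy : ∀ q : Fin p → ℚ, (∑ j, q j • y j) ∈ Tor.V0 𝒟 → q = 0 := by
    intro q hq
    have h1 : (∑ j, q j • y j) = 0 := by
      have := Submodule.disjoint_def.1 hY.disjoint _ hq (hyY q)
      exact this
    have h2 : ∑ j, q j • b j = 0 := by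
      apply Subtype.ext
      have h3 : ((∑ j, q j • b j : Y) : W) = ∑ j, q j • y j := by
        rw [← Submodule.subtype_apply, map_sum]
        rfl
      rw [h3, h1]
      rfl
    funext j
    exact (Fintype.linearIndependent_iff.1 b.linearIndependent) q h2 j
  have hcl := sz_claim hB hD hE hR S 𝒟 U₀ hU y hy
  -- evaluation at the `y j`
  let ev : (W →ₗ[ℚ] Ω) →ₗ[Ω] (Fin p → Ω) :=
    { toFun := fun χ j => χ (y j)
      map_add' := fun _ _ => rfl
      map_smul' := fun _ _ => rfl }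
  have htop : (S.Tan 𝒟 ⊔ UpS Ω U₀).map ev = ⊤ := by
    by_contra hne
    obtain ⟨f, hf0, hf⟩ := Submodule.exists_le_ker_of_lt_top _ (lt_top_iff_ne_top.2 hne)
    apply hf0
    have hfe : ∀ v : Fin p → Ω, f v = ∑ j, f (Pi.single j 1) * v j := by
      intro v
      conv_lhs => rw [pi_eq_sum_univ' v]
      rw [map_sum]
      refine Finset.sum_congr rfl fun j _ => ?_
      rw [map_smul, smul_eq_mul, mul_comm]
    have hmem : (fun j => f (Pi.single j 1)) ∈ szS S 𝒟 U₀ y := by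
      constructor
      · intro χ hχ
        have h2 := hf (Submodule.mem_map_of_mem (Submodule.mem_sup_left hχ) :
          ev χ ∈ (S.Tan 𝒟 ⊔ UpS Ω U₀).map ev)
        rw [LinearMap.mem_ker, hfe] at h2
        exact h2
      · intro u hu
        have h1 : up Ω u ∈ UpS Ω U₀ := Submodule.subset_span ⟨u, hu, rfl⟩
        have h2 := hf (Submodule.mem_map_of_mem (Submodule.mem_sup_right h1) :
          ev (up Ω u) ∈ (S.Tan 𝒟 ⊔ UpS Ω U₀).map ev)
        rw [LinearMap.mem_ker, hfe] at h2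
        exact h2
    rw [hcl, Submodule.mem_bot] at hmem
    apply LinearMap.ext
    intro v
    rw [hfe v, LinearMap.zero_apply]
    apply Finset.sum_eq_zero
    intro j _
    rw [show f (Pi.single j 1) = 0 from congrFun hmem j, zero_mul]
  have h1 : ev ψ ∈ (S.Tan 𝒟 ⊔ UpS Ω U₀).map ev := by rw [htop]; trivial
  obtain ⟨χ, hχ, hχe⟩ := h1
  have hχV : ∀ v ∈ Tor.V0 𝒟, χ v = 0 := by
    intro v hv
    obtain ⟨χ₁, h1, χ₂, h2, rfl⟩ := Submodule.mem_sup.1 hχ
    rw [LinearMap.add_apply, sz_tanv S 𝒟 v hv χ₁ h1,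
      sz_upv U₀ v (fun u hu => hV u hu v hv) χ₂ h2, add_zero]
  have hχY : ∀ w ∈ Y, χ w = ψ w := by
    intro w hw
    have h2 := b.sum_repr ⟨w, hw⟩
    have h3 : w = ∑ j, b.repr ⟨w, hw⟩ j • y j := by
      have h4 := congrArg Y.subtype h2
      rw [map_sum] at h4
      simp only [map_smul, Submodule.subtype_apply] at h4
      exact h4.symm
    rw [h3, map_sum, map_sum]
    refine Finset.sum_congr rfl fun j _ => ?_
    rw [map_smul, map_smul]
    have h5 : χ (y j) = ψ (y j) := congrFun hχe j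
    rw [h5]
  have heq : χ = ψ := by
    apply LinearMap.ext
    intro w
    have hw : w ∈ Tor.V0 𝒟 ⊔ Y := by rw [hY.sup_eq_top]; trivial
    obtain ⟨v, hv, w', hw', rfl⟩ := Submodule.mem_sup.1 hw
    rw [map_add, map_add, hχV v hv, hψ v hv, hχY w' hw']
  rw [← heq]
  exact hχ

end Pool.Agent.Lib.MP_c82530_nt.UR
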