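import Pool.Agent.Lib.MP_c82530_nt.UR.Stm
import Pool.Agent.Lib.MP_52aaf2_al.EX.P_dst

/-!
# MP_c82530_nt, project UR: (TORC) construction of a torus inside a field with derivations
-/

set_option autoImplicit false

open Polynomial IntermediateField

namespace Pool.Agent.Lib.MP_c82530_nt.UR

private theorem TORC_sum {C Ω ι : Type} [Field C] [Field Ω] [Algebra C Ω] (s : Finset ι)
    (f : ι → Derivation C Ω Ω) (z : Ω) : (∑ a ∈ s, f a) z = ∑ a ∈ s, f a z := by
  classical
  induction s using Finset.induction_on with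
  | empty => simp
  | insert a s ha ih => rw [Finset.sum_insert ha, Finset.sum_insert ha, Derivation.add_apply, ih]

/-- the abstract construction -/
private theorem TORC_aux {C Ω W : Type} [Field C] [CharZero C] [Field Ω] [CharZero Ω]
    [Algebra C Ω] [AddCommGroup W] [Module ℚ W] {d : ℕ} (b : Module.Basis (Fin d) ℚ W)
    (D : Fin d → Derivation C Ω Ω) (x : W → Ω) (h1 : ∀ w, x w ≠ 0)
    (h2 : ∀ v w, x (v + w) = x v * x w) (h3 : ∀ a w, D a (x w) = (b.coord a w : Ω) * x w)
    (h4 : ∀ z : Ω, IsAlgebraic (IntermediateField.adjoin C (Set.range x)) z) :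
    ∃ S : Tor C Ω W, S.x = x ∧ ∀ (φ : W →ₗ[ℚ] Ω) (z : Ω), S.DD φ z = ∑ a, φ (b a) * D a z := by
  let DD : (W →ₗ[ℚ] Ω) →ₗ[Ω] Derivation C Ω Ω :=
    { toFun := fun φ => ∑ a, φ (b a) • D a
      map_add' := by
        intro φ ψ
        rw [← Finset.sum_add_distrib]
        apply Finset.sum_congr rfl
        intro a _
        rw [LinearMap.add_apply, add_smul]
      map_smul' := by
        intro c φ
        rw [RingHom.id_apply, Finset.smul_sum]
        apply Finset.sum_congr rfl
        intro a _
        rw [LinearMap.smul_apply, smul_eq_mul, mul_smul] }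
  have hDD : ∀ (φ : W →ₗ[ℚ] Ω) (z : Ω), DD φ z = ∑ a, φ (b a) * D a z := by
    intro φ z
    show (∑ a, φ (b a) • D a) z = _
    rw [TORC_sum]
    rfl
  refine ⟨⟨x, h1, h2, DD, ?_, h4⟩, rfl, hDD⟩
  intro φ w
  rw [hDD]
  have h5 : φ w = ∑ a, (b.coord a w : Ω) * φ (b a) := by
    conv_lhs => rw [← b.sum_repr w]
    rw [map_sum]
    apply Finset.sum_congr rfl
    intro a _
    rw [map_smul, Module.Basis.coord_apply, Rat.smul_def]
  rw [h5, Finset.sum_mul]
  apply Finset.sum_congr rfl
  intro a _
  rw [h3]
  ring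

/-- the relative algebraic closure in an algebraically closed field is algebraically closed -/
private theorem TORC_closed {k F : Type} [Field k] [Field F] [Algebra k F] [IsAlgClosed F]
    (S : Set F) : IsAlgClosed (MP52exp.acl k S) := by
  apply IsAlgClosed.of_exists_root
  intro p hp hirr
  have hdeg : p.degree ≠ 0 := by
    intro h
    exact hirr.not_isUnit (Polynomial.isUnit_iff_degree_eq_zero.2 h)
  obtain ⟨z, hz⟩ := IsAlgClosed.exists_aeval_eq_zero F p hdeg
  have hz' : z ∈ MP52exp.acl k S := MP52exp.acl_closed ⟨p, hp.ne_zero, hz⟩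
  refine ⟨⟨z, hz'⟩, ?_⟩
  have h1 : algebraMap (MP52exp.acl k S) F (p.eval ⟨z, hz'⟩) = 0 := by
    rw [← Polynomial.aeval_algebraMap_apply_eq_algebraMap_eval]
    exact hz
  exact (map_eq_zero _).1 h1

/-- the elements of the closure are algebraic over the small field -/
private theorem TORC_alg {k F W : Type} [Field k] [Field F] [Algebra k F] (x : W → F)
    (x' : W → MP52exp.acl k (Set.range x)) (hx : ∀ w, (x' w : F) = x w)
    (z : MP52exp.acl k (Set.range x)) :
    IsAlgebraic (IntermediateField.adjoin k (Set.range x')) z := by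
  have h1 : (IntermediateField.adjoin k (Set.range x')).map
      (MP52exp.acl k (Set.range x)).val = IntermediateField.adjoin k (Set.range x) := by
    rw [IntermediateField.adjoin_map]
    congr 1
    rw [← Set.range_comp]
    congr 1
    funext w
    exact hx w
  have h2 : ∀ l ∈ IntermediateField.adjoin k (Set.range x'),
      ((l : MP52exp.acl k (Set.range x)) : F) ∈ IntermediateField.adjoin k (Set.range x) := by
    intro l hl
    rw [← h1]
    exact (IntermediateField.mem_map _).2 ⟨l, hl, rfl⟩
  let f : IntermediateField.adjoin k (Set.range x') →+* IntermediateField.adjoin k (Set.range x) :=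
    { toFun := fun l => ⟨((l : MP52exp.acl k (Set.range x)) : F), h2 _ l.2⟩
      map_one' := rfl
      map_mul' := fun _ _ => rfl
      map_zero' := rfl
      map_add' := fun _ _ => rfl }
  have hf : Function.Surjective f := by
    rintro ⟨l, hl⟩
    rw [← h1] at hl
    obtain ⟨l', hl', h3⟩ := (IntermediateField.mem_map _).1 hl
    exact ⟨⟨l', hl'⟩, Subtype.ext h3⟩
  exact IsAlgebraic.of_ringHom_of_comp_eq (R := IntermediateField.adjoin k (Set.range x'))
    (S := IntermediateField.adjoin k (Set.range x)) (A := MP52exp.acl k (Set.range x)) (B := F)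
    (f := f) (g := algebraMap (MP52exp.acl k (Set.range x)) F) (a := z) z.2 hf
    (algebraMap (MP52exp.acl k (Set.range x)) F).injective rfl

/-- a derivation as a derivation over the field of constants -/
private def TORC_D {F : Type} [Field F] {d : ℕ} (D : Fin d → Derivation ℤ F F) (a : Fin d) :
    Derivation (Cst0 D) F F :=
  Derivation.mk'
    { toFun := D a
      map_add' := fun y z => map_add (D a) y z
      map_smul' := fun c y => by
        rw [Algebra.smul_def, Derivation.leibniz]
        have h1 : D a (algebraMap (Cst0 D) F c) = 0 := c.2 a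
        rw [h1, smul_zero, add_zero, RingHom.id_apply, Algebra.smul_def]
        rfl }
    (fun y z => (D a).leibniz y z)

/-- the restriction of a derivation to a stable intermediate field -/
private def TORC_R {k F : Type} [Field k] [Field F] [Algebra k F] (M : IntermediateField k F)
    (D : Derivation k F F) (h : ∀ a ∈ M, D a ∈ M) : Derivation k M M :=
  Derivation.mk'
    { toFun := fun z => ⟨D z, h z z.2⟩
      map_add' := fun y z => Subtype.ext (map_add D (y : F) z)
      map_smul' := fun c y => Subtype.ext (D.map_smul c (y : F)) }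
    (fun y z => Subtype.ext (D.leibniz (y : F) z))

theorem p_TORC : TORC := by
  intro F W _ _ _ _ _ d b D x hx1 hx2 hx3
  have hC : CharZero (Cst0 D) := (algebraMap (Cst0 D) F).charZero
  have hΩ : CharZero (MP52exp.acl (Cst0 D) (Set.range x)) :=
    (algebraMap (MP52exp.acl (Cst0 D) (Set.range x)) F).charZero
  have hxm : ∀ w, x w ∈ MP52exp.acl (Cst0 D) (Set.range x) :=
    fun w => MP52exp.subset_acl _ ⟨w, rfl⟩
  have hstab : ∀ a, ∀ z ∈ MP52exp.acl (Cst0 D) (Set.range x),
      TORC_D D a z ∈ MP52exp.acl (Cst0 D) (Set.range x) := by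
    intro a
    apply (MP52exp.P_dst (Cst0 D) F (Set.range x) (TORC_D D a)).1
    rintro _ ⟨w, rfl⟩
    show D a (x w) ∈ _
    rw [hx3]
    refine mul_mem ?_ (hxm w)
    exact SubfieldClass.ratCast_mem (MP52exp.acl (Cst0 D) (Set.range x)) _
  obtain ⟨S, hS1, hS2⟩ := TORC_aux (C := Cst0 D) (Ω := MP52exp.acl (Cst0 D) (Set.range x)) b
    (fun a => TORC_R _ (TORC_D D a) (hstab a)) (fun w => ⟨x w, hxm w⟩)
    (fun w h => hx1 w (congrArg Subtype.val h))
    (fun v w => Subtype.ext (hx2 v w))
    (fun a w => Subtype.ext (by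
      show D a (x w) = _
      rw [hx3]
      push_cast
      rfl))
    (TORC_alg x _ (fun _ => rfl))
  refine ⟨Cst0 D, MP52exp.acl (Cst0 D) (Set.range x), inferInstance, hC, inferInstance, hΩ,
    inferInstance, TORC_closed _, S, algebraMap (MP52exp.acl (Cst0 D) (Set.range x)) F, ?_, ?_, ?_,
    ?_, ?_⟩
  · intro w
    rw [hS1]
    rfl
  · intro φ z
    rw [hS2, map_sum]
    apply Finset.sum_congr rfl
    intro a _
    rw [map_mul]
    rfl
  · intro c hc
    exact ⟨⟨c, hc⟩, rfl⟩
  · intro c'
    exact c'.2
  · intro z hz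
    exact ⟨⟨z, hz⟩, rfl⟩

end Pool.Agent.Lib.MP_c82530_nt.UR
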