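import Pool.Agent.Lib.MP_c82530_nt.UR.Stm

/-! Piece `UAC` (and `UDR`) of project UR: ultrapowers of algebraically closed fields, derivations
of ultrapowers. -/

set_option autoImplicit false

open Polynomial

namespace Pool.Agent.Lib.MP_c82530_nt.UR

private theorem UAC_rep {F : Type} (x : UP F) : ∃ f : ℕ → F, (f : UP F) = x :=
  Quotient.inductionOn' x fun f => ⟨f, rfl⟩

theorem p_UAC : UAC := by
  intro F _ _
  apply IsAlgClosed.of_exists_root
  intro p hp hirr
  have hn : 0 < p.natDegree := hirr.natDegree_pos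
  set n := p.natDegree with hn_def
  choose a ha using fun i : ℕ => UAC_rep (p.coeff i)
  have h1 : ∀ m : ℕ, ∃ z : F, z ^ n + ∑ i : Fin n, a i m * z ^ (i : ℕ) = 0 := by
    intro m
    have hd : (∑ i : Fin n, C (a i m) * X ^ (i : ℕ) : F[X]).degree < n :=
      degree_sum_fin_lt fun i : Fin n => a i m
    have hdeg : (X ^ n + ∑ i : Fin n, C (a i m) * X ^ (i : ℕ) : F[X]).degree = n := by
      rw [degree_add_eq_left_of_degree_lt, degree_X_pow]
      rwa [degree_X_pow]
    obtain ⟨z, hz⟩ := IsAlgClosed.exists_root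
      (X ^ n + ∑ i : Fin n, C (a i m) * X ^ (i : ℕ) : F[X]) (by
        rw [hdeg]
        exact_mod_cast hn.ne')
    refine ⟨z, ?_⟩
    have h2 : (X ^ n + ∑ i : Fin n, C (a i m) * X ^ (i : ℕ) : F[X]).eval z = 0 := hz
    rw [eval_add, eval_finsetSum] at h2
    simpa using h2
  choose z hz using h1
  refine ⟨(z : UP F), ?_⟩
  have hφ : ∀ f : ℕ → F,
      Filter.Germ.coeRingHom (R := F) (Filter.hyperfilter ℕ : Filter ℕ) f = (f : UP F) :=
    fun f => rfl
  have h3 : (fun m => z m ^ n + ∑ i : Fin n, a i m * z m ^ (i : ℕ)) = 0 := by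
    funext m
    exact hz m
  have h4 : (z ^ n + ∑ i : Fin n, a i * z ^ (i : ℕ) : ℕ → F) = 0 := by
    rw [← h3]
    funext m
    simp
  have h5 : p.eval (z : UP F) = (z : UP F) ^ n + ∑ i : Fin n, p.coeff i * (z : UP F) ^ (i : ℕ) := by
    conv_lhs => rw [hp.as_sum]
    rw [eval_add, eval_finsetSum, ← hn_def, Fin.sum_univ_eq_sum_range
      (fun i => p.coeff i * (z : UP F) ^ i) n]
    simp
  rw [h5]
  have h6 := congrArg (Filter.Germ.coeRingHom (R := F) (Filter.hyperfilter ℕ : Filter ℕ)) h4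
  rw [map_add, map_pow, map_sum, map_zero] at h6
  rw [← hφ z]
  rw [← h6]
  congr 1
  refine Finset.sum_congr rfl fun i _ => ?_
  rw [map_mul, map_pow, hφ (a i), ha]

theorem p_UDR : UDR := by
  intro F _ D
  let H : UP F →+ UP F :=
    AddMonoidHom.mk' (Filter.Germ.map D) (by
      intro x y
      obtain ⟨f, rfl⟩ := UAC_rep x
      obtain ⟨g, rfl⟩ := UAC_rep y
      show ((fun m => D (f m + g m) : ℕ → F) : UP F) = ((fun m => D (f m) + D (g m) : ℕ → F) : UP F)
      congr 1
      funext m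
      rw [map_add])
  have hH : ∀ f : ℕ → F, H (f : UP F) = ((fun m => D (f m)) : ℕ → F) := fun f => rfl
  refine ⟨Derivation.mk'
    { toFun := H
      map_add' := H.map_add
      map_smul' := fun c x => by
        obtain ⟨f, rfl⟩ := UAC_rep x
        show ((fun m => D (c • f m) : ℕ → F) : UP F) = ((fun m => c • D (f m) : ℕ → F) : UP F)
        congr 1
        funext m
        exact D.map_smul c (f m) } ?_, hH⟩
  intro x y
  obtain ⟨f, rfl⟩ := UAC_rep x
  obtain ⟨g, rfl⟩ := UAC_rep y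
  show ((fun m => D (f m * g m) : ℕ → F) : UP F) =
    ((fun m => f m * D (g m) + g m * D (f m) : ℕ → F) : UP F)
  congr 1
  funext m
  rw [Derivation.leibniz]
  rfl

end Pool.Agent.Lib.MP_c82530_nt.UR
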