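import Pool.Agent.Lib.MP_c82530_nt.UR.Main
import Pool.Agent.Lib.MP_c82530_nt.UR.P_BRK
import Pool.Agent.Lib.MP_c82530_nt.UR.P_CT
import Pool.Agent.Lib.MP_c82530_nt.UR.P_DSC
import Pool.Agent.Lib.MP_c82530_nt.UR.P_EXD
import Pool.Agent.Lib.MP_c82530_nt.UR.P_GNA
import Pool.Agent.Lib.MP_c82530_nt.UR.P_JAC
import Pool.Agent.Lib.MP_c82530_nt.UR.P_LI
import Pool.Agent.Lib.MP_c82530_nt.UR.P_NRM
import Pool.Agent.Lib.MP_c82530_nt.UR.P_RAT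
import Pool.Agent.Lib.MP_c82530_nt.UR.P_SZ
import Pool.Agent.Lib.MP_c82530_nt.UR.P_TORC
import Pool.Agent.Lib.MP_c82530_nt.UR.P_UAC

/-!
# MP_c82530_nt, project UR: all pieces
-/

set_option autoImplicit false

namespace Pool.Agent.Lib.MP_c82530_nt.UR

theorem t_RAT : RAT := p_RAT p_LI (p_LIN p_LI) (p_SZ p_BRK p_DSC p_EXD (p_RES p_CT p_NRM))

theorem t_GNA : GNA := p_GNA t_RAT p_UAC p_UDR p_TORC p_LI

theorem t_exchange (Λ : Submodule ℚ ℂ) (n r : ℕ) :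
    (∃ l : Fin (r + 1) → ℂ, (∀ i, l i ∈ Λ) ∧ UnivR n l) ∨ Low Λ n r :=
  exchange t_GNA p_JAC Λ n r

end Pool.Agent.Lib.MP_c82530_nt.UR
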