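import Pool.Agent.Lib.MP_c82530_nt.UR.Jac

/-!
# MP_c82530_nt, project UR: assembly
-/

set_option autoImplicit false

open Set Module

namespace Pool.Agent.Lib.MP_c82530_nt.UR

open Pool.Agent.Lib.MP_c82530_nt Pool.Agent.Lib.MP_c82530_nt.UL

/-- a form on `W` vanishing on `V ∩ W` extends to one vanishing on `V` -/
lemma exists_ext {W V : Submodule ℚ ℂ} (ξ : Module.Dual ℚ W)
    (hξ : ∀ b : W, (b : ℂ) ∈ V → ξ b = 0) :
    ∃ g : ℂ →ₗ[ℚ] ℚ, (∀ w : W, g (w : ℂ) = ξ w) ∧ ∀ v ∈ V, g v = 0 := by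
  let f : W →ₗ[ℚ] (ℂ ⧸ V) := V.mkQ.comp W.subtype
  have h1 : ξ ∈ LinearMap.range f.dualMap := by
    rw [LinearMap.range_dualMap_eq_dualAnnihilator_ker, Submodule.mem_dualAnnihilator]
    intro w hw
    apply hξ
    rw [LinearMap.mem_ker] at hw
    exact (Submodule.Quotient.mk_eq_zero V).1 hw
  obtain ⟨g', hg'⟩ := h1
  refine ⟨g'.comp V.mkQ, fun w => ?_, fun v hv => ?_⟩
  · exact LinearMap.congr_fun hg' w
  · change g' (V.mkQ v) = 0
    rw [Submodule.mkQ_apply, (Submodule.Quotient.mk_eq_zero V).2 hv, map_zero]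

lemma exists_fdB {B : Set ℂ} {W : Submodule ℚ ℂ} {z : ℂ} (hz : z ∈ clF (B ∪ expSet W)) :
    ∃ V ≤ W, FiniteDimensional ℚ V ∧ z ∈ clF (B ∪ expSet V) := by
  rw [mem_clF] at hz
  obtain ⟨I, hI, hfin, -, hz2⟩ := Matroid.exists_mem_finite_closure_of_mem_closure hz
  obtain ⟨T, hTW, hTfin, hTeq⟩ := exists_finite_subset_of_image
    (hfin.subset inter_subset_left : ((I ∩ expSet W : Set ℂ)).Finite)
    (inter_subset_right : (I ∩ expSet W : Set ℂ) ⊆ Complex.exp '' (W : Set ℂ))
  refine ⟨Submodule.span ℚ T, Submodule.span_le.2 hTW, FiniteDimensional.span_of_finite ℚ hTfin, ?_⟩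
  rw [mem_clF]
  refine AM.closure_subset_closure ?_ hz2
  intro x hx
  rcases hI hx with h | h
  · exact Or.inl h
  · right
    have h1 : x ∈ Complex.exp '' T := by
      rw [hTeq]
      exact ⟨hx, h⟩
    exact image_mono Submodule.subset_span h1

lemma dd_sum {B : Set ℂ} {W : Submodule ℚ ℂ} (h : FreeOn B W) {d : ℕ}
    (b : Module.Basis (Fin d) ℚ W) (ξ : Module.Dual ℚ W) {l : ℂ}
    (hl : l ∈ clF (B ∪ expSet W)) :
    ∑ a, (ξ (b a) : ℂ) * dd h (b.coord a) l = dd h ξ l := by
  have h1 : ξ = ∑ a, ξ (b a) • b.coord a := by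
    apply b.ext
    intro i
    rw [LinearMap.sum_apply, Finset.sum_eq_single i]
    · simp
    · intro j _ hj
      rw [LinearMap.smul_apply, Module.Basis.coord_apply, Module.Basis.repr_self,
        Finsupp.single_eq_of_ne hj, smul_zero]
    · intro h
      exact absurd (Finset.mem_univ _) h
  conv_rhs => rw [h1]
  rw [← XX_apply h l hl, map_sum]
  refine Finset.sum_congr rfl fun a _ => ?_
  rw [map_smul, XX_apply, Algebra.smul_def, eq_ratCast]

/-- **Theorem T**: from all rational combinations to the numbers themselves. -/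
theorem thmT (hG : GNA) (hJ : JAC) {B : Set ℂ} (hBfin : B.Finite) (hB : FreeOn B Kalg)
    {N n r : ℕ} (m : Fin N → ℂ) (hm : ∀ j, m j ∈ clF (B ∪ expSet Kalg))
    (hbad : ∀ t : Fin r × Fin N → ℚ, ∃ V ≤ Kalg, FiniteDimensional ℚ V ∧ finrank ℚ V ≤ n ∧
      ¬ AlgebraicIndependent (KL (B ∪ expSet V)) (fun k : Fin r => ∑ j, (t (k, j) : ℂ) * m j)) :
    ∃ V ≤ Kalg, FiniteDimensional ℚ V ∧ finrank ℚ V ≤ n ∧ ∀ k : Fin r → Fin N,
      ¬ AlgebraicIndependent (KL (B ∪ expSet V)) (fun i => m (k i)) := by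
  classical
  -- a finite dimensional space of exponents
  choose Wj hWjK hWjfd hWj using fun j => exists_fdB (hm j)
  set W : Submodule ℚ ℂ := ⨆ j, Wj j with hWdef
  have hWK : W ≤ Kalg := iSup_le hWjK
  have hWfd : FiniteDimensional ℚ W := inferInstance
  have hmW : ∀ j, m j ∈ clF (B ∪ expSet W) := fun j =>
    clF_mono (union_subset_union_right B (image_mono (le_iSup Wj j))) (hWj j)
  have hW : FreeOn B W := hB.mono hWK
  let b := Module.finBasis ℚ W
  let D : Fin (finrank ℚ W) → Derivation ℤ ℂ ℂ := fun a =>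
    (dd hW (b.coord a)).restrictScalars ℤ
  have hDa : ∀ a z, D a z = dd hW (b.coord a) z := fun _ _ => rfl
  have hBC : ∀ z ∈ B, z ∈ Cst0 D := fun z hz a => dd_B hW (b.coord a) hz
  have halg : ∀ z ∈ clF (B ∪ expSet W), IsAlgebraic
      (IntermediateField.adjoin (Cst0 D) (range fun w : W => Complex.exp (w : ℂ))) z := by
    intro z hz
    rw [mem_clF, mem_cl] at hz
    have hsub : ∀ y ∈ Algebra.adjoin ℚ (B ∪ expSet W), y ∈
        IntermediateField.adjoin (Cst0 D) (range fun w : W => Complex.exp (w : ℂ)) := by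
      intro y hy
      induction hy using Algebra.adjoin_induction with
      | mem y hy =>
        rcases hy with hy | ⟨w, hw, rfl⟩
        · exact (IntermediateField.adjoin (Cst0 D) _).algebraMap_mem ⟨y, hBC y hy⟩
        · exact IntermediateField.subset_adjoin _ _ ⟨⟨w, hw⟩, rfl⟩
      | algebraMap q =>
        rw [eq_ratCast]
        exact SubfieldClass.ratCast_mem _ q
      | add y z _ _ hy hz => exact add_mem hy hz
      | mul y z _ _ hy hz => exact mul_mem hy hz
    let f : Algebra.adjoin ℚ (B ∪ expSet W) →+*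
        IntermediateField.adjoin (Cst0 D) (range fun w : W => Complex.exp (w : ℂ)) :=
      { toFun := fun y => ⟨(y : ℂ), hsub y y.2⟩
        map_one' := rfl
        map_mul' := fun _ _ => rfl
        map_zero' := rfl
        map_add' := fun _ _ => rfl }
    refine IsAlgebraic.ringHom_of_comp_eq (R := Algebra.adjoin ℚ (B ∪ expSet W))
      (S := IntermediateField.adjoin (Cst0 D) (range fun w : W => Complex.exp (w : ℂ)))
      (A := ℂ) (B := ℂ) f (RingHom.id ℂ) hz ?_ ?_
    · intro y y' hyy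
      have := congrArg Subtype.val hyy
      exact Subtype.ext this
    · ext y
      rfl
  obtain ⟨V₁, hV₁n, hV₁⟩ := hG ℂ W (finrank ℚ W) b D (fun w => Complex.exp (w : ℂ))
    (fun w => Complex.exp_ne_zero _)
    (fun v w => by rw [Submodule.coe_add, Complex.exp_add])
    (fun a w => dd_exp hW (b.coord a) w) r N n m (fun j => halg _ (hmW j)) (by
      intro t
      obtain ⟨V, hVK, hVfd, hVn, hV⟩ := hbad t
      refine ⟨V.comap W.subtype, ?_, fun ξ hξ => ?_⟩
      · refine le_trans ?_ hVn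
        rw [← Submodule.finrank_map_subtype_eq]
        apply Submodule.finrank_mono
        rintro _ ⟨w, hw, rfl⟩
        exact hw
      · have hlW : ∀ k : Fin r, (∑ j, (t (k, j) : ℂ) * m j) ∈ clF (B ∪ expSet W) := by
          intro k
          refine sum_mem fun j _ => mul_mem (SubfieldClass.ratCast_mem _ _) (hmW j)
        have hW'' : FreeOn B (V ⊔ W) := hB.mono (sup_le hVK hWK)
        choose g hg1 hg2 using fun i => exists_ext (V := V) (ξ i) (fun w hw => hξ i w hw)
        have h1 := det_eq_zero hJ hW'' (V := V) le_sup_left hV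
          (fun i => (g i).comp (V ⊔ W).subtype) (fun i w hw => hg2 i _ hw)
        rw [← h1]
        congr 1
        ext i k
        rw [Matrix.of_apply, Matrix.of_apply]
        have h2 := dd_sum hW b (ξ i) (hlW k)
        refine h2.trans ?_
        refine dd_unique hW le_rfl (ξ i) _ (fun z hz => dd_B hW'' _ hz) ?_ (hlW k)
        intro w _
        have h3 := dd_exp hW'' ((g i).comp (V ⊔ W).subtype)
          ⟨(w : ℂ), Submodule.mem_sup_right w.2⟩
        have h4 : ((g i).comp (V ⊔ W).subtype) ⟨(w : ℂ), Submodule.mem_sup_right w.2⟩ =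
          ξ i w := hg1 i w
        rw [h4] at h3
        exact h3)
  have hVW : V₁.map W.subtype ≤ W := by
    rintro _ ⟨w, _, rfl⟩
    exact w.2
  refine ⟨V₁.map W.subtype, hVW.trans hWK, Submodule.finiteDimensional_of_le hVW, ?_, ?_⟩
  · rw [Submodule.finrank_map_subtype_eq]
    exact hV₁n
  · intro k hind
    have hfin : AM.eRk (B ∪ expSet (V₁.map W.subtype)) ≠ ⊤ := by
      have hfd' : FiniteDimensional ℚ (V₁.map W.subtype) := Submodule.finiteDimensional_of_le hVW
      refine ne_top_of_le_ne_top ?_ (AM.eRk_union_le_eRk_add_eRk _ _)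
      rw [rk_expSet (hVW.trans hWK)]
      exact WithTop.add_ne_top.mpr ⟨eRk_L_ne_top hBfin, ENat.natCast_ne_top _⟩
    obtain ⟨ξ, hξ, hdet⟩ := exists_det_ne hW hVW hfin (l := fun i => m (k i))
      (fun i => hmW (k i)) hind
    apply hdet
    rw [← hV₁ ξ (fun i v hv => hξ i v ⟨v, hv, rfl⟩) k]
    congr 1
    ext i i'
    rw [Matrix.of_apply, Matrix.of_apply]
    exact (dd_sum hW b (ξ i) (hmW (k i'))).symm

end Pool.Agent.Lib.MP_c82530_nt.UR
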