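import Mathlib

/-!
# MP_c82530_nt, project UR: zero sets of rational polynomials at rational points
-/

set_option autoImplicit false

namespace Pool.Agent.Lib.MP_c82530_nt.UR

/-- the set `Z` of rational points is the zero set of one rational polynomial -/
def ZC {σ : Type} (Z : Set (σ → ℚ)) : Prop :=
  ∃ P : MvPolynomial σ ℚ, ∀ t, t ∈ Z ↔ MvPolynomial.eval t P = 0

lemma ZC.congr {σ : Type} {Z Z' : Set (σ → ℚ)} (h : ZC Z) (hZ : ∀ t, t ∈ Z' ↔ t ∈ Z) : ZC Z' := by
  obtain ⟨P, hP⟩ := h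
  exact ⟨P, fun t => (hZ t).trans (hP t)⟩

lemma ZC_empty {σ : Type} : ZC (∅ : Set (σ → ℚ)) :=
  ⟨1, fun t => by simp⟩

lemma ZC.union {σ : Type} {Z Z' : Set (σ → ℚ)} (h : ZC Z) (h' : ZC Z') : ZC (Z ∪ Z') := by
  obtain ⟨P, hP⟩ := h
  obtain ⟨P', hP'⟩ := h'
  exact ⟨P * P', fun t => by rw [Set.mem_union, hP, hP', map_mul, mul_eq_zero]⟩

lemma ZC_biUnion {σ ι : Type} (s : Finset ι) (Z : ι → Set (σ → ℚ)) (h : ∀ i ∈ s, ZC (Z i)) :
    ZC {t | ∃ i ∈ s, t ∈ Z i} := by
  classical
  induction s using Finset.induction_on with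
  | empty => exact ZC_empty.congr fun t => by simp
  | insert i s hi ih =>
    refine ((h i (Finset.mem_insert_self _ _)).union
      (ih fun j hj => h j (Finset.mem_insert_of_mem hj))).congr fun t => ?_
    simp

lemma exists_lam {σ F : Type} [Field F] [CharZero F] (l : F →ₗ[ℚ] ℚ) (Q : MvPolynomial σ F) :
    ∃ Q' : MvPolynomial σ ℚ, ∀ t : σ → ℚ,
      MvPolynomial.eval t Q' = l (MvPolynomial.eval (fun s => (t s : F)) Q) := by
  classical
  refine ⟨∑ d ∈ Q.support, MvPolynomial.monomial d (l (Q.coeff d)), fun t => ?_⟩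
  rw [MvPolynomial.eval_eq (fun s => (t s : F)) Q, map_sum, map_sum]
  simp only [MvPolynomial.eval_monomial]
  refine Finset.sum_congr rfl fun d _ => ?_
  have h4 : Q.coeff d * ∏ i ∈ d.support, ((t i : ℚ) : F) ^ d i =
      (∏ i ∈ d.support, (t i) ^ d i : ℚ) • Q.coeff d := by
    rw [Algebra.smul_def, mul_comm]
    congr 1
    rw [map_prod]
    refine Finset.prod_congr rfl fun i _ => ?_
    rw [map_pow]
    rfl
  rw [h4, map_smul, smul_eq_mul, mul_comm]
  rfl

/-- the common zeros of polynomials over a larger field -/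
theorem ZC_family {σ ι F : Type} [Finite σ] [Field F] [CharZero F] (Q : ι → MvPolynomial σ F) :
    ZC {t : σ → ℚ | ∀ i, MvPolynomial.eval (fun s => (t s : F)) (Q i) = 0} := by
  classical
  set Z := {t : σ → ℚ | ∀ i, MvPolynomial.eval (fun s => (t s : F)) (Q i) = 0} with hZ
  let I : Ideal (MvPolynomial σ ℚ) :=
    { carrier := {p | ∀ t ∈ Z, MvPolynomial.eval t p = 0}
      add_mem' := fun {p q} hp hq t ht => by rw [map_add, hp t ht, hq t ht, add_zero]
      zero_mem' := fun t _ => map_zero _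
      smul_mem' := fun c p hp t ht => by
        rw [smul_eq_mul, map_mul, hp t ht, mul_zero] }
  obtain ⟨S, hS⟩ : I.FG := IsNoetherian.noetherian I
  refine ⟨∑ p ∈ S, p ^ 2, fun t => ⟨fun ht => ?_, fun ht => ?_⟩⟩
  · rw [map_sum]
    refine Finset.sum_eq_zero fun p hp => ?_
    have h1 : p ∈ I := by rw [← hS]; exact Ideal.subset_span hp
    rw [map_pow, h1 t ht, zero_pow two_ne_zero]
  · rw [map_sum, Finset.sum_eq_zero_iff_of_nonneg (fun p _ => by rw [map_pow]; positivity)] at ht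
    have h1 : I ≤ RingHom.ker (MvPolynomial.eval t) := by
      rw [← hS, Ideal.span_le]
      intro p hp
      have h2 := ht p hp
      rw [map_pow] at h2
      exact pow_eq_zero_iff two_ne_zero |>.1 h2
    intro i
    by_contra hne
    obtain ⟨l, hl⟩ := Module.Projective.exists_dual_ne_zero ℚ hne
    obtain ⟨Q', hQ'⟩ := exists_lam l (Q i)
    apply hl
    rw [← hQ']
    refine h1 (show Q' ∈ I from fun s hs => ?_)
    rw [hQ', hs i, map_zero]

end Pool.Agent.Lib.MP_c82530_nt.UR
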