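import Pool.Agent.Lib.MP_c82530_nt.UR.RankD
import Pool.Agent.Lib.MP_c82530_nt.UR.Zar

/-!
# MP_c82530_nt, project UR: the finite criterion and the polynomial
-/

set_option autoImplicit false

open Set Module

namespace Pool.Agent.Lib.MP_c82530_nt.UR

open Pool.Agent.Lib.MP_c82530_nt Pool.Agent.Lib.MP_c82530_nt.UL

/-- rational combinations -/
noncomputable def comb {r N : ℕ} (m : Fin N → ℂ) (t : Fin r × Fin N → ℚ) : Fin r → ℂ :=
  fun k => ∑ j, (t (k, j) : ℂ) * m j

lemma comb_mem {s : Set ℂ} {r N : ℕ} {m : Fin N → ℂ} (hm : ∀ j, m j ∈ clF s)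
    (t : Fin r × Fin N → ℚ) (k : Fin r) : comb m t k ∈ clF s :=
  sum_mem fun j _ => mul_mem (SubfieldClass.ratCast_mem _ _) (hm j)

lemma dd_comb {W : Submodule ℚ ℂ} (h : FreeOn ∅ W) (ξ : Module.Dual ℚ W) {r N : ℕ}
    (m : Fin N → ℂ) (t : Fin r × Fin N → ℚ) (k : Fin r) :
    dd h ξ (comb m t k) = ∑ j, (t (k, j) : ℂ) * dd h ξ (m j) := by
  unfold comb
  rw [map_sum]
  refine Finset.sum_congr rfl fun j _ => ?_
  have h1 : ((t (k, j) : ℚ) : ℂ) * m j = t (k, j) • m j := by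
    rw [Algebra.smul_def, eq_ratCast]
  rw [h1, Derivation.map_smul, Algebra.smul_def, eq_ratCast]

/-- algebraicity over the constants and the exponentials -/
lemma halg {W : Submodule ℚ ℂ} {d : ℕ}
    (D : Fin d → Derivation ℤ ℂ ℂ) {z : ℂ}
    (hz : z ∈ clF (∅ ∪ expSet W)) :
    IsAlgebraic (IntermediateField.adjoin (Cst0 D) (range fun w : W => Complex.exp (w : ℂ))) z := by
  rw [mem_clF, mem_cl] at hz
  have hsub : ∀ y ∈ Algebra.adjoin ℚ (∅ ∪ expSet W), y ∈
      IntermediateField.adjoin (Cst0 D) (range fun w : W => Complex.exp (w : ℂ)) := by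
    intro y hy
    induction hy using Algebra.adjoin_induction with
    | mem y hy =>
      rcases hy with hy | ⟨w, hw, rfl⟩
      · exact absurd hy (notMem_empty y)
      · exact IntermediateField.subset_adjoin _ _ ⟨⟨w, hw⟩, rfl⟩
    | algebraMap q =>
      rw [eq_ratCast]
      exact SubfieldClass.ratCast_mem _ q
    | add y z _ _ hy hz => exact add_mem hy hz
    | mul y z _ _ hy hz => exact mul_mem hy hz
  let f : Algebra.adjoin ℚ (∅ ∪ expSet W) →+*
      IntermediateField.adjoin (Cst0 D) (range fun w : W => Complex.exp (w : ℂ)) :=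
    { toFun := fun y => ⟨(y : ℂ), hsub y y.2⟩
      map_one' := rfl
      map_mul' := fun _ _ => rfl
      map_zero' := rfl
      map_add' := fun _ _ => rfl }
  refine IsAlgebraic.ringHom_of_comp_eq (R := Algebra.adjoin ℚ (∅ ∪ expSet W))
    (S := IntermediateField.adjoin (Cst0 D) (range fun w : W => Complex.exp (w : ℂ)))
    (A := ℂ) (B := ℂ) f (RingHom.id ℂ) hz ?_ ?_
  · intro y y' hyy
    have := congrArg Subtype.val hyy
    exact Subtype.ext this
  · ext y
    rfl

/-- finiteness -/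
theorem exists_fin (hF : FNA) {W : Submodule ℚ ℂ} (hW : FreeOn ∅ W) [FiniteDimensional ℚ W]
    {N : ℕ} {m : Fin N → ℂ} (hm : ∀ j, m j ∈ clF (∅ ∪ expSet W)) (r : ℕ) :
    ∃ 𝒱 : Finset (Submodule ℚ W), ∀ (t : Fin r × Fin N → ℚ) (U : Submodule ℚ W), ∃ V ∈ 𝒱,
      rho hW (comb m t) V + finrank ℚ V ≤
        rho hW (comb m t) U + finrank ℚ (V ⊓ U : Submodule ℚ W) := by
  let b := Module.finBasis ℚ W
  let D : Fin (finrank ℚ W) → Derivation ℤ ℂ ℂ := fun a =>
    (dd hW (b.coord a)).restrictScalars ℤ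
  obtain ⟨𝒱, h𝒱⟩ := hF ℂ W (finrank ℚ W) b D (fun w => Complex.exp (w : ℂ))
    (fun w => Complex.exp_ne_zero _)
    (fun v w => by rw [Submodule.coe_add, Complex.exp_add])
    (fun a w => dd_exp hW (b.coord a) w) r N m (fun j => halg D (hm j))
  have key : ∀ (t : Fin r × Fin N → ℚ) (V : Submodule ℚ W),
      rkF b D (fun k => ∑ j, (t (k, j) : ℂ) * m j) V = rho hW (comb m t) V := by
    intro t V
    refine fsc (image_congr fun ξ _ => ?_)
    funext k
    exact dd_sum hW b ξ (comb_mem hm t k)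
  refine ⟨𝒱, fun t U => ?_⟩
  obtain ⟨V, hV, h1⟩ := h𝒱 t U
  rw [key, key] at h1
  exact ⟨V, hV, h1⟩

/-- rank conditions are closed -/
theorem ZC_rho (hM : MNR) {W : Submodule ℚ ℂ} (hW : FreeOn ∅ W) {N : ℕ} (m : Fin N → ℂ)
    (r : ℕ) (V : Submodule ℚ W) (R : ℕ) :
    ZC {t : Fin r × Fin N → ℚ | rho hW (comb m t) V ≤ R} := by
  classical
  let ι := {ξ : Module.Dual ℚ W // ∀ v ∈ V, ξ v = 0}
  have hset : ∀ t : Fin r × Fin N → ℚ, rho hW (comb m t) V = finrank ℂ (Submodule.span ℂ (range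
      (fun (ξ : ι) (k : Fin r) => dd hW ξ.1 (comb m t k)))) := by
    intro t
    refine fsc ?_
    ext z
    constructor
    · rintro ⟨ξ, hξ, rfl⟩
      exact ⟨⟨ξ, hξ⟩, rfl⟩
    · rintro ⟨ξ, rfl⟩
      exact ⟨ξ.1, ξ.2, rfl⟩
  let Q : (Fin (R + 1) → ι) × (Fin (R + 1) → Fin r) → MvPolynomial (Fin r × Fin N) ℂ := fun p =>
    (Matrix.of fun i i' => ∑ j, MvPolynomial.X (p.2 i', j) *
      MvPolynomial.C (dd hW (p.1 i).1 (m j))).det
  refine (ZC_family Q).congr fun t => ?_
  rw [mem_ofPred_eq, mem_ofPred_eq, hset, hM ℂ ι r _ R]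
  have hQ : ∀ p, MvPolynomial.eval (fun s => (t s : ℂ)) (Q p) =
      (Matrix.of fun i i' => dd hW (p.1 i).1 (comb m t (p.2 i'))).det := by
    intro p
    rw [RingHom.map_det]
    congr 1
    ext i k
    simp only [RingHom.mapMatrix_apply, Matrix.map_apply, Matrix.of_apply, map_sum, map_mul,
      MvPolynomial.eval_X, MvPolynomial.eval_C]
    rw [dd_comb]
  constructor
  · intro h p
    rw [hQ]
    exact h p.1 p.2
  · intro h k c
    have h1 := h (k, c)
    rw [hQ] at h1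
    exact h1

lemma exists_le_finrank {W : Submodule ℚ ℂ} [FiniteDimensional ℚ W] (V : Submodule ℚ W) {n : ℕ}
    (hn : n ≤ finrank ℚ V) : ∃ U ≤ V, finrank ℚ U = n := by
  obtain ⟨f, hf⟩ := exists_linearIndependent_of_le_finrank hn
  refine ⟨Submodule.span ℚ (range fun i => (f i : W)), Submodule.span_le.2 ?_, ?_⟩
  · rintro _ ⟨i, rfl⟩
    exact (f i).2
  · have h1 : LinearIndependent ℚ (fun i => (f i : W)) :=
      hf.map' V.subtype (Submodule.ker_subtype _)
    rw [finrank_span_eq_card h1, Fintype.card_fin]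

lemma rk_map (hJ : JAC) (hM : MNR) {W : Submodule ℚ ℂ} (hE : Full (Kalg ⊔ W))
    (h : FreeOn ∅ W) [FiniteDimensional ℚ W] {r : ℕ} {l : Fin r → ℂ}
    (hl : ∀ k, l k ∈ clF (∅ ∪ expSet W)) (U : Submodule ℚ W) :
    AM.eRk (expSet (U.map W.subtype) ∪ range l) = (finrank ℚ U + rho h l U : ℕ) := by
  have h1 : U.map W.subtype ≤ Kalg ⊔ W := by
    rintro _ ⟨w, _, rfl⟩
    exact Submodule.mem_sup_right w.2
  rw [rk_eq hJ hM hE h hl h1, Submodule.comap_map_eq_of_injective W.subtype_injective U,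
    Submodule.finrank_map_subtype_eq]

lemma finrank_comap_le (W A : Submodule ℚ ℂ) [FiniteDimensional ℚ A] :
    finrank ℚ (A.comap W.subtype) ≤ finrank ℚ A := by
  rw [← Submodule.finrank_map_subtype_eq]
  apply Submodule.finrank_mono
  rintro _ ⟨w, hw, rfl⟩
  exact hw

/-- some exponents of dimension `n` give a rank at most `n + k` -/
def Sm (n k : ℕ) {r : ℕ} (l : Fin r → ℂ) : Prop :=
  ∃ A ≤ Kalg, FiniteDimensional ℚ A ∧ finrank ℚ A = n ∧
    AM.eRk (expSet A ∪ range l) ≤ (n + k : ℕ)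

/-- the finite criterion -/
theorem crit (hJ : JAC) (hM : MNR) {W : Submodule ℚ ℂ} (hE : Full (Kalg ⊔ W))
    (h : FreeOn ∅ W) [FiniteDimensional ℚ W] {r : ℕ} {l : Fin r → ℂ}
    (hl : ∀ k, l k ∈ clF (∅ ∪ expSet W)) (n k : ℕ) (𝒱 : Finset (Submodule ℚ W))
    (h𝒱 : ∀ U : Submodule ℚ W, ∃ V ∈ 𝒱,
      rho h l V + finrank ℚ V ≤ rho h l U + finrank ℚ (V ⊓ U : Submodule ℚ W)) :
    Sm n k l ↔ ∃ V ∈ 𝒱, rho h l (V ⊓ Kalg.comap W.subtype) +
      max n (finrank ℚ (V ⊓ Kalg.comap W.subtype : Submodule ℚ W)) ≤ n + k := by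
  constructor
  · rintro ⟨A, hAK, hAfd, hAn, hA⟩
    set U := A.comap W.subtype with hU
    have hUK : U ≤ Kalg.comap W.subtype := Submodule.comap_mono hAK
    have hUn : finrank ℚ U ≤ n := (finrank_comap_le W A).trans hAn.le
    rw [rk_eq hJ hM hE h hl (hAK.trans le_sup_left), hAn] at hA
    have hA' : n + rho h l U ≤ n + k := by exact_mod_cast hA
    obtain ⟨V, hV, h1⟩ := h𝒱 U
    refine ⟨V, hV, ?_⟩
    set V' : Submodule ℚ W := V ⊓ Kalg.comap W.subtype with hV'
    have h3 : rho h l V' + finrank ℚ V' ≤ rho h l V + finrank ℚ V :=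
      rho_mono hJ hM hE h hl inf_le_left
    have h4 : V ⊓ U = V' ⊓ U := by
      rw [hV', inf_assoc, inf_eq_right.2 hUK]
    have h5 : finrank ℚ (V ⊓ U : Submodule ℚ W) ≤ finrank ℚ V' := by
      rw [h4]
      exact Submodule.finrank_mono inf_le_left
    have h6 : finrank ℚ (V ⊓ U : Submodule ℚ W) ≤ n :=
      (Submodule.finrank_mono inf_le_right).trans hUn
    rcases le_total n (finrank ℚ V') with hn | hn
    · rw [max_eq_right hn]
      omega
    · rw [max_eq_left hn]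
      omega
  · rintro ⟨V, _, h1⟩
    set V' : Submodule ℚ W := V ⊓ Kalg.comap W.subtype with hV'
    have hV'K : V'.map W.subtype ≤ Kalg := by
      rintro _ ⟨w, hw, rfl⟩
      exact hw.2
    rcases le_total n (finrank ℚ V') with hn | hn
    · rw [max_eq_right hn] at h1
      obtain ⟨U, hUV, hUn⟩ := exists_le_finrank V' hn
      refine ⟨U.map W.subtype, (Submodule.map_mono hUV).trans hV'K, inferInstance, ?_, ?_⟩
      · rw [Submodule.finrank_map_subtype_eq, hUn]
      · rw [rk_map hJ hM hE h hl]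
        have h2 := rho_mono hJ hM hE h hl hUV
        have h3 : finrank ℚ U + rho h l U ≤ n + k := by omega
        exact_mod_cast h3
    · rw [max_eq_left hn] at h1
      obtain ⟨a, ha, hli, hVa⟩ := exists_tuple hV'K (n := n)
        (by rw [Submodule.finrank_map_subtype_eq]; exact hn)
      have hfd : FiniteDimensional ℚ (Submodule.span ℚ (range a)) :=
        FiniteDimensional.span_of_finite ℚ (finite_range a)
      have hfr : finrank ℚ (Submodule.span ℚ (range a)) = n := by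
        rw [finrank_span_eq_card hli, Fintype.card_fin]
      refine ⟨Submodule.span ℚ (range a), span_le_Kalg ha, hfd, hfr, ?_⟩
      have h2 := rk_sup_le hVa (span_le_Kalg ha) (range l)
      rw [rk_map hJ hM hE h hl, hfr, Submodule.finrank_map_subtype_eq] at h2
      have hne : AM.eRk (expSet (Submodule.span ℚ (range a)) ∪ range l) ≠ ⊤ :=
        ne_top_of_le_ne_top (ENat.natCast_ne_top _) (rk_union_le (span_le_Kalg ha) l)
      obtain ⟨e, he⟩ := ENat.ne_top_iff_exists.1 hne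
      rw [← he] at h2 ⊢
      norm_cast at h2 ⊢
      omega

/-- **The degrees are governed by polynomials.** -/
theorem exists_poly (hJ : JAC) (hM : MNR) (hF : FNA) {N : ℕ} (m : Fin N → ℂ) (n k r : ℕ) :
    ZC {t : Fin r × Fin N → ℚ | Sm n k (comb m t)} := by
  classical
  obtain ⟨W, hWfd, hE, hm⟩ := exists_setup m
  have h : FreeOn ∅ W := (hE.mono le_sup_right).freeOn
  obtain ⟨𝒱, h𝒱⟩ := exists_fin hF h hm r
  let K := Kalg.comap W.subtype
  let bad : Submodule ℚ W → Set (Fin r × Fin N → ℚ) := fun V =>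
    {t | rho h (comb m t) (V ⊓ K) + max n (finrank ℚ (V ⊓ K : Submodule ℚ W)) ≤ n + k}
  have hbad : ∀ V ∈ 𝒱, ZC (bad V) := by
    intro V _
    by_cases h1 : max n (finrank ℚ (V ⊓ K : Submodule ℚ W)) ≤ n + k
    · refine (ZC_rho hM h m r (V ⊓ K) (n + k -
        max n (finrank ℚ (V ⊓ K : Submodule ℚ W)))).congr fun t => ?_
      simp only [bad, mem_ofPred_eq]
      omega
    · refine ZC_empty.congr fun t => ?_
      simp only [bad, mem_ofPred_eq, mem_empty_iff_false, iff_false]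
      omega
  refine (ZC_biUnion 𝒱 bad hbad).congr fun t => ?_
  rw [mem_ofPred_eq, mem_ofPred_eq, crit hJ hM hE h (comb_mem hm t) n k 𝒱 (h𝒱 t)]
  rfl

end Pool.Agent.Lib.MP_c82530_nt.UR
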