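import Pool.Agent.Lib.MP_c82530_nt.UR.Stm2

/-!
# MP_c82530_nt, project UR: from sequences to finite sets
-/

set_option autoImplicit false

open Module

namespace Pool.Agent.Lib.MP_c82530_nt.UR

theorem fna_of_fnb (h : FNB) : FNA := by
  intro F W _ _ _ _ _ d b D x hx0 hxa hDx r N m hm
  classical
  by_contra hcon
  push Not at hcon
  have hfin : FiniteDimensional ℚ W := Module.Finite.of_basis b
  have hW : Countable W := by
    have e := b.equivFun
    exact e.toEquiv.countable_iff.2 inferInstance
  have hcount : Countable (Submodule ℚ W) := by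
    have h1 : Function.Surjective (fun s : Finset W => Submodule.span ℚ (s : Set W)) := by
      intro U
      obtain ⟨s, hs⟩ : U.FG := IsNoetherian.noetherian U
      exact ⟨s, hs⟩
    exact h1.countable
  obtain ⟨e, he⟩ := exists_surjective_nat (Submodule ℚ W)
  choose t U htU using fun q : ℕ => hcon ((Finset.range (q + 1)).image e)
  obtain ⟨V, hV⟩ := h F W d b D x hx0 hxa hDx r N m hm t U
  obtain ⟨j, rfl⟩ := he V
  have h1 : ∀ᶠ q in (Filter.hyperfilter ℕ : Filter ℕ), j ≤ q :=
    (Filter.eventually_ge_atTop j).filter_mono Nat.hyperfilter_le_atTop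
  obtain ⟨q, hq1, hq2⟩ := (hV.and h1).exists
  have h2 := htU q (e j) (Finset.mem_image_of_mem e (Finset.mem_range.2 (by omega)))
  omega

end Pool.Agent.Lib.MP_c82530_nt.UR
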