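import Pool.Agent.Lib.MP_c82530_nt.UR.Stm2

/-!
# MP_c82530_nt, project UR: extending the field does not change ranks
-/

set_option autoImplicit false

open Polynomial IntermediateField

namespace Pool.Agent.Lib.MP_c82530_nt.UR

theorem p_FLD : FLD := by
  intro Ω F ι _ _ j r v
  let _ : Algebra Ω F := j.toAlgebra
  have hj : ∀ x : Ω, algebraMap Ω F x = j x := fun _ => rfl
  have hsm : ∀ (x : Ω) (y : F), x • y = j x * y := fun x y => Algebra.smul_def x y
  obtain ⟨κ, a, _, hspan, hli⟩ := exists_linearIndependent' Ω v
  have hfin : Finite κ := hli.finite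
  have : Fintype κ := Fintype.ofFinite κ
  let w : ι → Fin r → F := fun i k => j (v i k)
  have hli' : LinearIndependent F (w ∘ a) := by
    rw [linearIndependent_iff']
    intro s c hc i hi
    by_contra hne
    have h1 : ¬ ∀ l : Module.Dual Ω F, l (c i) = 0 := by
      intro h
      exact hne ((Module.forall_dual_apply_eq_zero_iff Ω (c i)).mp h)
    push Not at h1
    obtain ⟨l, hl⟩ := h1
    apply hl
    rw [linearIndependent_iff'] at hli
    refine hli s (fun t => l (c t)) ?_ i hi
    funext k
    have h2 := congrFun hc k
    rw [Finset.sum_apply] at h2 ⊢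
    have h3 := congrArg l h2
    simp only [Pi.zero_apply, map_zero, map_sum] at h3
    rw [Pi.zero_apply, ← h3]
    apply Finset.sum_congr rfl
    intro t _
    have h4 : (c t • (w ∘ a) t) k = v (a t) k • c t := by
      rw [hsm, mul_comm]
      rfl
    rw [h4, map_smul, Pi.smul_apply, Function.comp_apply, smul_eq_mul, smul_eq_mul, mul_comm]
  have hspan' : Submodule.span F (Set.range w) = Submodule.span F (Set.range (w ∘ a)) := by
    apply le_antisymm
    · rw [Submodule.span_le]
      rintro _ ⟨i, rfl⟩
      let φ : (Fin r → Ω) →ₗ[Ω] (Fin r → F) :=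
        { toFun := fun x k => j (x k)
          map_add' := by
            intro x y
            funext k
            exact map_add j _ _
          map_smul' := by
            intro c x
            funext k
            show j (c * x k) = c • j (x k)
            rw [map_mul, hsm] }
      have h1 : v i ∈ Submodule.span Ω (Set.range (v ∘ a)) := by
        rw [hspan]
        exact Submodule.subset_span ⟨i, rfl⟩
      have h2 : φ (v i) ∈ Submodule.span Ω (Set.range (w ∘ a)) := by
        have h3 : φ (v i) ∈ (Submodule.span Ω (Set.range (v ∘ a))).map φ := Submodule.mem_map_of_mem h1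
        rw [Submodule.map_span, ← Set.range_comp] at h3
        exact h3
      exact Submodule.span_le_restrictScalars Ω F _ h2
    · apply Submodule.span_mono
      rintro _ ⟨i, rfl⟩
      exact ⟨a i, rfl⟩
  show Module.finrank F (Submodule.span F (Set.range w)) = _
  rw [hspan', finrank_span_eq_card hli', ← hspan, finrank_span_eq_card hli]

end Pool.Agent.Lib.MP_c82530_nt.UR
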