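import Pool.Agent.Lib.MP_c82530_nt.UR.Stm2

/-!
# MP_c82530_nt, project UR, piece FNB
-/

set_option autoImplicit false

open Polynomial IntermediateField

namespace Pool.Agent.Lib.MP_c82530_nt.UR

/-! ### germs -/

private noncomputable def FNB_gm (F : Type) [Field F] : (ℕ → F) →+* UP F :=
  Filter.Germ.coeRingHom _

private noncomputable def FNB_cst (F : Type) [Field F] : F →+* UP F :=
  (FNB_gm F).comp (Pi.constRingHom ℕ F)

private theorem FNB_gm_eq {F : Type} [Field F] (f g : ℕ → F) : FNB_gm F f = FNB_gm F g ↔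
    ∀ᶠ q in (Filter.hyperfilter ℕ : Filter ℕ), f q = g q :=
  Filter.Germ.coe_eq

private theorem FNB_gm_zero {F : Type} [Field F] (f : ℕ → F) : FNB_gm F f = 0 ↔
    ∀ᶠ q in (Filter.hyperfilter ℕ : Filter ℕ), f q = 0 := by
  rw [← map_zero (FNB_gm F), FNB_gm_eq]
  rfl

private theorem FNB_cst_apply {F : Type} [Field F] (c : F) :
    FNB_cst F c = FNB_gm F (fun _ => c) := rfl

private theorem FNB_gm_surj {F : Type} [Field F] (z : UP F) : ∃ f : ℕ → F, FNB_gm F f = z := by
  induction z using Filter.Germ.inductionOn with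
  | _ f => exact ⟨f, rfl⟩

private theorem FNB_rat {F : Type} [Field F] [CharZero F] {d : ℕ}
    (D : Fin d → Derivation ℤ F F) (q : ℚ) (a : Fin d) : D a (q : F) = 0 := by
  have h : (q : F) ∈ Cst0 D := SubfieldClass.ratCast_mem _ q
  exact h a

section alg

variable {F W : Type} [Field F] [CharZero F] {d : ℕ} (D : Fin d → Derivation ℤ F F)
  (D' : Fin d → Derivation ℤ (UP F) (UP F)) (x : W → F)

omit [CharZero F] in
private theorem FNB_cstmem (hD' : ∀ a (f : ℕ → F), D' a (FNB_gm F f) = FNB_gm F (fun q => D a (f q)))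
    {c : F} (hc : c ∈ Cst0 D) : FNB_cst F c ∈ Cst0 D' := by
  intro a
  rw [FNB_cst_apply, hD' a, FNB_gm_zero]
  exact Filter.Eventually.of_forall fun _ => hc a

private theorem FNB_ratmem (hD' : ∀ a (f : ℕ → F), D' a (FNB_gm F f) = FNB_gm F (fun q => D a (f q)))
    (t : ℕ → ℚ) : FNB_gm F (fun q => (t q : F)) ∈ Cst0 D' := by
  intro a
  rw [hD' a, FNB_gm_zero]
  exact Filter.Eventually.of_forall fun q => FNB_rat D (t q) a

private theorem FNB_adj (hD' : ∀ a (f : ℕ → F), D' a (FNB_gm F f) = FNB_gm F (fun q => D a (f q)))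
    {y : F} (hy : y ∈ IntermediateField.adjoin (Cst0 D) (Set.range x)) :
    FNB_cst F y ∈ IntermediateField.adjoin (Cst0 D') (Set.range fun w => FNB_cst F (x w)) := by
  induction hy using IntermediateField.adjoin_induction with
  | mem y hy =>
    obtain ⟨w, rfl⟩ := hy
    exact IntermediateField.subset_adjoin _ _ ⟨w, rfl⟩
  | algebraMap c =>
    exact IntermediateField.algebraMap_mem _
      (⟨FNB_cst F c, FNB_cstmem D D' hD' c.2⟩ : Cst0 D')
  | add y z _ _ h1 h2 => rw [map_add]; exact add_mem h1 h2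
  | inv y _ h1 => rw [map_inv₀]; exact inv_mem h1
  | mul y z _ _ h1 h2 => rw [map_mul]; exact mul_mem h1 h2

private theorem FNB_alg (hD' : ∀ a (f : ℕ → F), D' a (FNB_gm F f) = FNB_gm F (fun q => D a (f q)))
    {z : F} (hz : IsAlgebraic (IntermediateField.adjoin (Cst0 D) (Set.range x)) z) :
    IsAlgebraic (IntermediateField.adjoin (Cst0 D') (Set.range fun w => FNB_cst F (x w)))
      (FNB_cst F z) := by
  let f : IntermediateField.adjoin (Cst0 D) (Set.range x) →+*
      IntermediateField.adjoin (Cst0 D') (Set.range fun w => FNB_cst F (x w)) :=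
    { toFun := fun y => ⟨FNB_cst F y.1, FNB_adj D D' x hD' y.2⟩
      map_one' := Subtype.ext (map_one (FNB_cst F))
      map_zero' := Subtype.ext (map_zero (FNB_cst F))
      map_add' := fun a b => Subtype.ext (map_add (FNB_cst F) _ _)
      map_mul' := fun a b => Subtype.ext (map_mul (FNB_cst F) _ _) }
  refine IsAlgebraic.ringHom_of_comp_eq f (FNB_cst F) hz f.injective ?_
  ext y
  rfl

private theorem FNB_alg2 (hD' : ∀ a (f : ℕ → F), D' a (FNB_gm F f) = FNB_gm F (fun q => D a (f q)))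
    {N : ℕ} (m : Fin N → F)
    (hm : ∀ j, IsAlgebraic (IntermediateField.adjoin (Cst0 D) (Set.range x)) (m j))
    (c : Fin N → ℕ → ℚ) :
    IsAlgebraic (IntermediateField.adjoin (Cst0 D') (Set.range fun w => FNB_cst F (x w)))
      (FNB_gm F (fun q => ∑ j, (c j q : F) * m j)) := by
  have h1 : FNB_gm F (fun q => ∑ j, (c j q : F) * m j) =
      ∑ j, FNB_gm F (fun q => (c j q : F)) * FNB_cst F (m j) := by
    have h2 : (fun q => ∑ j, (c j q : F) * m j) =
        ∑ j, (fun q => (c j q : F)) * (fun _ : ℕ => m j) := by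
      funext q
      rw [Finset.sum_apply]
      rfl
    rw [h2, map_sum]
    refine Finset.sum_congr rfl fun j _ => ?_
    rw [map_mul]
    rfl
  rw [h1, ← mem_algebraicClosure_iff]
  refine sum_mem fun j _ => mul_mem ?_ ?_
  · have h3 := FNB_ratmem D D' hD' (c j)
    have h4 : FNB_gm F (fun q => (c j q : F)) ∈
        IntermediateField.adjoin (Cst0 D') (Set.range fun w => FNB_cst F (x w)) :=
      IntermediateField.algebraMap_mem _ (⟨_, h3⟩ : Cst0 D')
    exact (algebraicClosure (IntermediateField.adjoin (Cst0 D')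
      (Set.range fun w => FNB_cst F (x w))) (UP F)).algebraMap_mem ⟨_, h4⟩
  · rw [mem_algebraicClosure_iff]
    exact FNB_alg D D' x hD' (hm j)

end alg


private theorem FNB_forms {W : Type} [AddCommGroup W] [Module ℚ W] [FiniteDimensional ℚ W]
    (V : Submodule ℚ W) (δ : ℕ) (h : Module.finrank ℚ V + δ = Module.finrank ℚ W) :
    ∃ ξ : Fin δ → (W →ₗ[ℚ] ℚ), LinearIndependent ℚ ξ ∧ (∀ α, ∀ v ∈ V, ξ α v = 0) := by
  have h1 := Subspace.finrank_add_finrank_dualAnnihilator_eq V
  have h2 : δ ≤ Module.finrank ℚ V.dualAnnihilator := by omega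
  obtain ⟨f, hf⟩ := exists_linearIndependent_of_le_finrank h2
  refine ⟨fun α => (f α).1, ?_, ?_⟩
  · exact hf.map' V.dualAnnihilator.subtype (Submodule.ker_subtype _)
  · intro α v hv
    exact (Submodule.mem_dualAnnihilator (f α).1).1 (f α).2 v hv

private theorem FNB_forms_span {W : Type} [AddCommGroup W] [Module ℚ W] [FiniteDimensional ℚ W]
    (V : Submodule ℚ W) (δ : ℕ) (h : Module.finrank ℚ V + δ = Module.finrank ℚ W)
    (ξ : Fin δ → (W →ₗ[ℚ] ℚ)) (hi : LinearIndependent ℚ ξ) (hv : ∀ α, ∀ v ∈ V, ξ α v = 0)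
    (η : W →ₗ[ℚ] ℚ) (hη : ∀ v ∈ V, η v = 0) : ∃ c : Fin δ → ℚ, η = ∑ α, c α • ξ α := by
  have h1 := Subspace.finrank_add_finrank_dualAnnihilator_eq V
  have h2 : Submodule.span ℚ (Set.range ξ) ≤ V.dualAnnihilator := by
    rw [Submodule.span_le]
    rintro _ ⟨α, rfl⟩
    exact (Submodule.mem_dualAnnihilator (ξ α)).2 (hv α)
  have h3 : Module.finrank ℚ (Submodule.span ℚ (Set.range ξ)) = δ := by
    rw [finrank_span_eq_card hi, Fintype.card_fin]
  have h3' : Module.finrank ℚ V.dualAnnihilator = δ := by omega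
  have h4 : Submodule.span ℚ (Set.range ξ) = V.dualAnnihilator :=
    Submodule.eq_of_le_of_finrank_eq h2 (h3.trans h3'.symm)
  have h5 : η ∈ Submodule.span ℚ (Set.range ξ) := by
    rw [h4]
    exact (Submodule.mem_dualAnnihilator η).2 hη
  obtain ⟨c, hc⟩ := (Submodule.mem_span_range_iff_exists_fun ℚ).1 h5
  exact ⟨c, hc.symm⟩

private theorem FNB_rk {F W : Type} [Field F] [CharZero F] [AddCommGroup W] [Module ℚ W]
    [FiniteDimensional ℚ W] {d : ℕ}
    (b : Module.Basis (Fin d) ℚ W) (D : Fin d → Derivation ℤ F F) {r : ℕ} (f : Fin r → F)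
    (V : Submodule ℚ W) (δ : ℕ) (h : Module.finrank ℚ V + δ = Module.finrank ℚ W)
    (ξ : Fin δ → (W →ₗ[ℚ] ℚ)) (hi : LinearIndependent ℚ ξ) (hv : ∀ α, ∀ v ∈ V, ξ α v = 0) :
    rkF b D f V = Module.finrank F (Submodule.span F
      (Set.range fun (α : Fin δ) (k : Fin r) => ∑ a, (ξ α (b a) : F) * D a (f k))) := by
  unfold rkF
  have h1 : Submodule.span F
    ((fun (ξ : W →ₗ[ℚ] ℚ) (k : Fin r) => ∑ a, (ξ (b a) : F) * D a (f k)) ''
      {ξ | ∀ v ∈ V, ξ v = 0}) = Submodule.span F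
      (Set.range fun (α : Fin δ) (k : Fin r) => ∑ a, (ξ α (b a) : F) * D a (f k)) := by
    apply le_antisymm
    · rw [Submodule.span_le]
      rintro _ ⟨η, hη, rfl⟩
      obtain ⟨c, rfl⟩ := FNB_forms_span V δ h ξ hi hv η hη
      have h2 : (fun k : Fin r => ∑ a, (((∑ α, c α • ξ α) (b a) : ℚ) : F) * D a (f k)) =
          ∑ α, (c α : F) • (fun k : Fin r => ∑ a, (ξ α (b a) : F) * D a (f k)) := by
        funext k
        simp only [LinearMap.sum_apply, LinearMap.smul_apply, smul_eq_mul, Rat.cast_sum,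
          Rat.cast_mul, Finset.sum_mul, Finset.sum_apply, Pi.smul_apply, Finset.mul_sum]
        rw [Finset.sum_comm]
        refine Finset.sum_congr rfl fun α _ => Finset.sum_congr rfl fun a _ => ?_
        ring
      change (fun k : Fin r => ∑ a, (((∑ α, c α • ξ α) (b a) : ℚ) : F) * D a (f k)) ∈ _
      rw [h2]
      exact Submodule.sum_mem _ fun α _ => Submodule.smul_mem _ _
        (Submodule.subset_span ⟨α, rfl⟩)
    · rw [Submodule.span_le]
      rintro _ ⟨α, rfl⟩
      exact Submodule.subset_span ⟨ξ α, hv α, rfl⟩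
  rw [h1]

private theorem FNB_const (f : ℕ → ℕ) (B : ℕ) (h : ∀ q, f q ≤ B) :
    ∃ R, ∀ᶠ q in (Filter.hyperfilter ℕ : Filter ℕ), f q = R := by
  have h1 : (⋃ i ∈ Set.Iic B, {q | f q = i}) ∈ (Filter.hyperfilter ℕ) := by
    have h2 : (⋃ i ∈ Set.Iic B, {q | f q = i}) = Set.univ := by
      ext q
      simp only [Set.mem_iUnion, Set.mem_univ, iff_true]
      exact ⟨f q, h q, rfl⟩
    rw [h2]
    exact Filter.univ_mem
  rw [Ultrafilter.finite_biUnion_mem_iff (Set.finite_Iic B)] at h1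
  obtain ⟨R, -, hR⟩ := h1
  exact ⟨R, hR⟩

private theorem FNB_rk_le {F W : Type} [Field F] [CharZero F] [AddCommGroup W] [Module ℚ W]
    {d : ℕ} (b : Module.Basis (Fin d) ℚ W) (D : Fin d → Derivation ℤ F F) {r : ℕ} (f : Fin r → F)
    (V : Submodule ℚ W) : rkF b D f V ≤ r := by
  unfold rkF
  refine (Submodule.finrank_le _).trans ?_
  rw [Module.finrank_fin_fun]

theorem p_FNB (h1 : RT2) (h2 : RKU) (h3 : FLD) (h4 : UVN) (h5 : UAC) (h6 : UDR) (h7 : TORC) :
    FNB := by
  intro F W _ _ _ _ _ d b D x hx0 hxa hDx r N m hm t U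
  classical
  have hfin : FiniteDimensional ℚ W := Module.Finite.of_basis b
  have hd : Module.finrank ℚ W = d := by simpa using Module.finrank_eq_card_basis b
  obtain ⟨κ, hκ⟩ := FNB_const (fun q => Module.finrank ℚ (U q)) d
    (fun q => hd ▸ Submodule.finrank_le (U q))
  have hκd : κ ≤ d := by
    obtain ⟨q, hq⟩ := hκ.exists
    rw [← hq, ← hd]
    exact Submodule.finrank_le (U q)
  obtain ⟨δ, hδ⟩ : ∃ δ, κ + δ = d := ⟨d - κ, by omega⟩
  have hl : ∃ l : ℕ → Fin r → F, l = fun q k => ∑ j, (t q (k, j) : F) * m j := ⟨_, rfl⟩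
  obtain ⟨l, hl⟩ := hl
  obtain ⟨ρ, hρ⟩ := FNB_const (fun q => rkF b D (l q) (U q)) r (fun q => FNB_rk_le b D _ _)
  have hξ : ∀ q, ∃ ξ : Fin δ → (W →ₗ[ℚ] ℚ), Module.finrank ℚ (U q) = κ →
      LinearIndependent ℚ ξ ∧ (∀ α, ∀ v ∈ U q, ξ α v = 0) := by
    intro q
    by_cases hq : Module.finrank ℚ (U q) = κ
    · obtain ⟨ξ, h8, h9⟩ := FNB_forms (U q) δ (by omega)
      exact ⟨ξ, fun _ => ⟨h8, h9⟩⟩
    · exact ⟨0, fun h => absurd h hq⟩
  choose ξ hξ using hξ
  choose D' hD'0 using fun a => h6 F (D a)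
  have hD' : ∀ a (f : ℕ → F), D' a (FNB_gm F f) = FNB_gm F (fun q => D a (f q)) := hD'0
  have hcz : CharZero (UP F) := charZero_of_injective_ringHom (FNB_cst F).injective
  have hac : IsAlgClosed (UP F) := h5 F
  obtain ⟨C, Ω, i1, i2, i3, i4, i5, i6, S, j, hjx, hjD, hjC, hjC', hjalg⟩ :=
    h7 (UP F) W d b D' (fun w => FNB_cst F (x w)) (fun w => (_root_.map_ne_zero _).2 (hx0 w))
      (fun v w => by rw [hxa, map_mul]) (fun a w => by
        rw [FNB_cst_apply, hD']
        have h6 : (fun _ : ℕ => D a (x w)) = fun _ => ((b.coord a w : ℚ) : F) * x w :=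
          funext fun _ => hDx a w
        rw [h6, ← FNB_cst_apply, ← FNB_cst_apply, map_mul, map_ratCast])
  have hc : ∀ (α : Fin δ) (a : Fin d), ∃ c : C,
      j (algebraMap C Ω c) = FNB_gm F (fun q => (ξ q α (b a) : F)) := fun α a =>
    hjC _ (FNB_ratmem D D' hD' fun q => ξ q α (b a))
  choose c hc using hc
  let u : Fin δ → (W →ₗ[ℚ] C) := fun α => b.constr ℚ (c α)
  have hu : ∀ α a, u α (b a) = c α a := fun α a => b.constr_basis ℚ (c α) a
  have huw : ∀ α w, (j.comp (algebraMap C Ω)) (u α w) =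
      (((fun q => ((ξ q α w : ℚ) : F)) : ℕ → F) : UP F) := by
    intro α w
    let L1 : W →+ UP F := (j.comp (algebraMap C Ω)).toAddMonoidHom.comp (u α).toAddMonoidHom
    let L2 : W →+ UP F :=
      { toFun := fun w => FNB_gm F (fun q => ((ξ q α w : ℚ) : F))
        map_zero' := by
          rw [FNB_gm_zero]
          exact Filter.Eventually.of_forall fun q => by rw [map_zero, Rat.cast_zero]
        map_add' := fun v w => by
          rw [← map_add]
          congr 1
          funext q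
          rw [map_add, Rat.cast_add]
          rfl }
    have h8 : L1.toRatLinearMap = L2.toRatLinearMap := b.ext fun a => by
      change j (algebraMap C Ω (u α (b a))) = FNB_gm F (fun q => ((ξ q α (b a) : ℚ) : F))
      rw [hu, hc]
    exact congrArg (fun L : W →ₗ[ℚ] UP F => L w) h8
  obtain ⟨hui, hVan⟩ := h4 C F W (j.comp (algebraMap C Ω)) δ U ξ u huw
    (hκ.mono fun q hq => (hξ q hq).1)
    (hκ.mono fun q hq => ⟨(hξ q hq).2, by rw [hd]; have : Module.finrank ℚ (U q) = κ := hq; omega⟩)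
  have hf : ∀ k, ∃ z, j z = FNB_gm F (fun q => l q k) := fun k => by
    rw [hl]
    exact hjalg _ (FNB_alg2 D D' x hD' m hm fun l q => t q (k, l))
  choose f hf using hf
  have key : ∀ (p : ℕ) (κ : Fin p → (W →ₗ[ℚ] Ω)) (e : Fin p → Fin d → ℕ → ℚ),
      (∀ i a, j (κ i (b a)) = FNB_gm F (fun q => (e i a q : F))) → ∀ R : ℕ,
      (∀ᶠ q in (Filter.hyperfilter ℕ : Filter ℕ), Module.finrank F (Submodule.span F
        (Set.range fun (i : Fin p) (k : Fin r) => ∑ a, (e i a q : F) * D a (l q k))) = R) →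
      Module.finrank Ω (Submodule.span Ω
        (Set.range fun (i : Fin p) (k : Fin r) => S.DD (κ i) (f k))) = R := by
    intro p κ e he R hR
    have h8 := h2 F p r (fun q i k => ∑ a, (e i a q : F) * D a (l q k)) R hR
    rw [← h3 Ω (UP F) (Fin p) j r (fun i k => S.DD (κ i) (f k)), ← h8]
    have h9 : (fun (i : Fin p) (k : Fin r) => j (S.DD (κ i) (f k))) =
        fun (i : Fin p) (k : Fin r) =>
          (((fun q => ∑ a, (e i a q : F) * D a (l q k)) : ℕ → F) : UP F) := by
      funext i k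
      rw [hjD]
      change _ = FNB_gm F (fun q => ∑ a, (e i a q : F) * D a (l q k))
      have h8 : (fun q => ∑ a, (e i a q : F) * D a (l q k)) =
          ∑ a, (fun q => (e i a q : F)) * (fun q => D a (l q k)) := by
        funext q
        rw [Finset.sum_apply]
        rfl
      rw [h8, map_sum]
      refine Finset.sum_congr rfl fun a _ => ?_
      rw [map_mul, he, hf, hD']
    rw [h9]
  obtain ⟨V, hV⟩ := h1 C Ω W S r δ f u hui
  refine ⟨V, ?_⟩
  have hVd : Module.finrank ℚ V ≤ d := hd ▸ Submodule.finrank_le V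
  obtain ⟨η, hηi, hηv⟩ := FNB_forms V (d - Module.finrank ℚ V) (by omega)
  obtain ⟨ρ', hρ'⟩ := FNB_const (fun q => rkF b D (l q) V) r (fun q => FNB_rk_le b D _ _)
  -- (i)
  have hA : S.rk f (Set.range fun a => up Ω (u a)) = ρ := by
    unfold Tor.rk
    rw [← Set.range_comp]
    refine key δ (fun α => up Ω (u α)) (fun α a q => ξ q α (b a))
      (fun α a => by rw [up_apply, hu, hc]) ρ ?_
    filter_upwards [hκ, hρ] with q hq hq2
    rw [← hq2, FNB_rk b D (l q) (U q) δ (by rw [hd]; have : Module.finrank ℚ (U q) = κ := hq; omega)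
      (ξ q) (hξ q hq).1 (hξ q hq).2]
  -- (ii)
  have hB : ρ' ≤ S.rk f {φ | ∃ ξ : W →ₗ[ℚ] ℚ, (∀ v ∈ V, ξ v = 0) ∧ φ = up Ω ξ} := by
    have h8 := key (d - Module.finrank ℚ V) (fun α => up Ω (η α)) (fun α a _ => η α (b a))
      (fun α a => by
        rw [up_apply, ← FNB_cst_apply, map_ratCast]
        exact map_ratCast (j.comp (algebraMap ℚ Ω)) _) ρ' (by
        filter_upwards [hρ'] with q hq
        rw [← hq, FNB_rk b D (l q) V (d - Module.finrank ℚ V) (by omega) η hηi hηv])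
    rw [← h8]
    unfold Tor.rk
    refine Submodule.finrank_mono (Submodule.span_mono ?_)
    rintro _ ⟨α, rfl⟩
    exact ⟨up Ω (η α), ⟨η α, hηv α, rfl⟩, rfl⟩
  filter_upwards [hρ, hρ', hVan V] with q hq1 hq2 hq3
  have hlq : (fun k => ∑ j, (t q (k, j) : F) * m j) = l q := by rw [hl]
  rw [hlq]
  change rkF b D (l q) (U q) = ρ at hq1
  change rkF b D (l q) V = ρ' at hq2
  rw [hq1, hq2]
  omega

end Pool.Agent.Lib.MP_c82530_nt.UR
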