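import Pool.Agent.Lib.MP_c82530_nt.UR.Stm2

/-!
# MP_c82530_nt, project UR: (MNR), rank and minors
-/

set_option autoImplicit false

namespace Pool.Agent.Lib.MP_c82530_nt.UR

/-- a family whose span has dimension at least `m` has `m` linearly independent members -/
private theorem mnr_ex {F M ι : Type} [Field F] [AddCommGroup M] [Module F M]
    [FiniteDimensional F M] (u : ι → M) (m : ℕ)
    (h : m ≤ Module.finrank F (Submodule.span F (Set.range u))) :
    ∃ k : Fin m → ι, LinearIndependent F (fun i => u (k i)) := by
  classical
  obtain ⟨b, hbs, hspan, hli⟩ := exists_linearIndependent F (Set.range u)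
  have hfin : b.Finite := hli.setFinite
  haveI : Fintype b := hfin.fintype
  have hcard : m ≤ Fintype.card b := by
    rw [← hspan, finrank_span_set_eq_card hli, Set.toFinset_card] at h
    exact h
  obtain ⟨e⟩ := Function.Embedding.nonempty_of_card_le (α := Fin m) (β := b) (by
    rw [Fintype.card_fin]
    exact hcard)
  have hk : ∀ i, ∃ a, u a = (e i : M) := fun i => hbs (e i).2
  choose k hk using hk
  refine ⟨k, ?_⟩
  have h1 := hli.comp e e.injective
  have h2 : (fun i => u (k i)) = (fun i : b => (i : M)) ∘ e := by
    funext i
    exact hk i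
  rw [h2]
  exact h1

theorem p_MNR : MNR := by
  classical
  intro F ι _ r v R
  constructor
  · intro h k c
    by_contra hdet
    have hu : IsUnit (Matrix.of fun i j => v (k i) (c j)) := by
      rw [Matrix.isUnit_iff_isUnit_det]
      exact isUnit_iff_ne_zero.2 hdet
    have hrow := Matrix.linearIndependent_rows_iff_isUnit.2 hu
    have hli : LinearIndependent F (fun i => v (k i)) := by
      refine LinearIndependent.of_comp (LinearMap.funLeft F F c) ?_
      exact hrow
    have hli2 : LinearIndependent F (fun i =>
        (⟨v (k i), Submodule.subset_span ⟨k i, rfl⟩⟩ : Submodule.span F (Set.range v))) := by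
      refine LinearIndependent.of_comp (Submodule.span F (Set.range v)).subtype ?_
      exact hli
    have hc := hli2.fintype_card_le_finrank
    rw [Fintype.card_fin] at hc
    omega
  · intro h
    by_contra hR
    obtain ⟨k, hk⟩ := mnr_ex (F := F) v (R + 1) (by omega)
    set N : Matrix (Fin (R + 1)) (Fin r) F := Matrix.of fun i j => v (k i) j with hN
    have hrank : N.rank = R + 1 := by
      have h1 : LinearIndependent F N.row := hk
      have h2 := h1.rank_matrix
      rwa [Fintype.card_fin] at h2
    obtain ⟨c, hc⟩ := mnr_ex (F := F) N.col (R + 1) (by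
      rw [← Matrix.rank_eq_finrank_span_cols, hrank])
    have hu : IsUnit (Matrix.of fun i j => v (k i) (c j)) := by
      rw [← Matrix.linearIndependent_cols_iff_isUnit]
      exact hc
    rw [Matrix.isUnit_iff_isUnit_det, h k c] at hu
    exact not_isUnit_zero hu

end Pool.Agent.Lib.MP_c82530_nt.UR
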