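import Pool.Agent.Lib.MP_c82530_nt.UR.Stm2

/-!
# MP_c82530_nt, project UR: ranks in an ultrapower (piece `RKU`)
-/

set_option autoImplicit false

namespace Pool.Agent.Lib.MP_c82530_nt.UR

open Filter

private theorem rku_exists {ι : Type} [Finite ι] (P : ℕ → ι → Prop)
    (h : ∀ᶠ q in (hyperfilter ℕ : Filter ℕ), ∃ a, P q a) :
    ∃ a, ∀ᶠ q in (hyperfilter ℕ : Filter ℕ), P q a := by
  by_contra hcon
  push Not at hcon
  have h2 : ∀ᶠ q in (hyperfilter ℕ : Filter ℕ), ∀ a, ¬ P q a := Filter.eventually_all.2 hcon
  obtain ⟨q, ⟨a, ha⟩, hq⟩ := (h.and h2).exists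
  exact hq a ha

private theorem rku_choose {F : Type} [Field F] {p r R : ℕ} (v : Fin p → Fin r → F)
    (h : Module.finrank F (Submodule.span F (Set.range v)) = R) :
    ∃ a : Fin R → Fin p, LinearIndependent F (v ∘ a) ∧
      Submodule.span F (Set.range (v ∘ a)) = Submodule.span F (Set.range v) := by
  obtain ⟨κ, a, ha, hs, hl⟩ := exists_linearIndependent' F v
  have : Finite κ := Finite.of_injective a ha
  let _ : Fintype κ := Fintype.ofFinite κ
  have hc : Fintype.card κ = R := by
    rw [← h, ← hs]
    exact (finrank_span_eq_card hl).symm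
  have e : Fin R ≃ κ := (Fintype.equivFinOfCardEq hc).symm
  refine ⟨a ∘ e, ?_, ?_⟩
  · exact hl.comp e e.injective
  · rw [← hs, ← Function.comp_assoc, Set.range_comp (v ∘ a) e, e.range_eq_univ, Set.image_univ]

private theorem rku_sum {F : Type} [Field F] {R : ℕ} (f : Fin R → ℕ → F) :
    (∑ i, ((f i : ℕ → F) : UP F)) = (((fun q => ∑ i, f i q) : ℕ → F) : UP F) := by
  have h := map_sum (Filter.Germ.coeRingHom (R := F) (hyperfilter ℕ : Filter ℕ)) f Finset.univ
  have h2 : (∑ i, f i) = fun q => ∑ i, f i q := by
    funext q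
    rw [Finset.sum_apply]
  rw [h2] at h
  exact h.symm

theorem p_RKU : RKU := by
  classical
  intro F _ p r v R hR
  have h1 : ∀ᶠ q in (hyperfilter ℕ : Filter ℕ), ∃ a : Fin R → Fin p,
      LinearIndependent F (v q ∘ a) ∧
        Submodule.span F (Set.range (v q ∘ a)) = Submodule.span F (Set.range (v q)) := by
    filter_upwards [hR] with q hq
    exact rku_choose (v q) hq
  obtain ⟨a, ha⟩ := rku_exists _ h1
  obtain ⟨w, hw⟩ : ∃ w : Fin p → Fin r → UP F,
      w = fun (a : Fin p) (i : Fin r) => (((fun q => v q a i) : ℕ → F) : UP F) := ⟨_, rfl⟩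
  rw [← hw]
  -- independence
  have hli : LinearIndependent (UP F) (w ∘ a) := by
    rw [Fintype.linearIndependent_iff]
    intro g hg
    have hrep : ∀ i, ∃ c : ℕ → F, (c : UP F) = g i := by
      intro i
      induction g i using Filter.Germ.inductionOn with
      | _ f => exact ⟨f, rfl⟩
    choose c hc using hrep
    have hco : ∀ k : Fin r, ∀ᶠ q in (hyperfilter ℕ : Filter ℕ),
        ∑ i, c i q * v q (a i) k = 0 := by
      intro k
      have h2 := congrFun hg k
      rw [Finset.sum_apply] at h2
      have h3 : ∀ i, (g i • (w ∘ a) i) k =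
          (((fun q => c i q * v q (a i) k) : ℕ → F) : UP F) := by
        intro i
        rw [Pi.smul_apply, smul_eq_mul, Function.comp_apply, hw, ← hc i]
        rfl
      rw [Finset.sum_congr rfl fun i _ => h3 i, rku_sum] at h2
      have h4 : (((fun q => ∑ i, c i q * v q (a i) k) : ℕ → F) : UP F) =
          (((fun _ => (0 : F)) : ℕ → F) : UP F) := h2
      exact Filter.Germ.coe_eq.1 h4
    have hall := Filter.eventually_all.2 hco
    have hzero : ∀ᶠ q in (hyperfilter ℕ : Filter ℕ), ∀ i, c i q = 0 := by
      filter_upwards [hall, ha] with q hq haq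
      have h5 := Fintype.linearIndependent_iff.1 haq.1 (fun i => c i q) (by
        funext k
        rw [Finset.sum_apply]
        simp only [Pi.smul_apply, smul_eq_mul, Function.comp_apply, Pi.zero_apply]
        exact hq k)
      exact h5
    intro i
    rw [← hc i]
    have h6 : ((c i : ℕ → F) : UP F) = (((fun _ => (0 : F)) : ℕ → F) : UP F) := by
      refine Filter.Germ.coe_eq.2 ?_
      filter_upwards [hzero] with q hq
      exact hq i
    exact h6
  -- span
  have hsp : Submodule.span (UP F) (Set.range (w ∘ a)) = Submodule.span (UP F) (Set.range w) := by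
    apply le_antisymm
    · apply Submodule.span_mono
      rintro _ ⟨i, rfl⟩
      exact ⟨a i, rfl⟩
    · rw [Submodule.span_le]
      rintro _ ⟨b, rfl⟩
      rw [SetLike.mem_coe, Submodule.mem_span_range_iff_exists_fun]
      have hex : ∀ q, ∃ c : Fin R → F, (Submodule.span F (Set.range (v q ∘ a)) =
          Submodule.span F (Set.range (v q)) → ∑ i, c i • (v q ∘ a) i = v q b) := by
        intro q
        by_cases hq : Submodule.span F (Set.range (v q ∘ a)) = Submodule.span F (Set.range (v q))
        · have hb : v q b ∈ Submodule.span F (Set.range (v q ∘ a)) := by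
            rw [hq]
            exact Submodule.subset_span ⟨b, rfl⟩
          rw [Submodule.mem_span_range_iff_exists_fun] at hb
          obtain ⟨c, hc⟩ := hb
          exact ⟨c, fun _ => hc⟩
        · exact ⟨0, fun h => absurd h hq⟩
      choose c hc using hex
      refine ⟨fun i => (((fun q => c q i) : ℕ → F) : UP F), ?_⟩
      funext k
      rw [Finset.sum_apply]
      have h3 : ∀ i, (((((fun q => c q i) : ℕ → F) : UP F)) • (w ∘ a) i) k =
          (((fun q => c q i * v q (a i) k) : ℕ → F) : UP F) := by
        intro i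
        rw [Pi.smul_apply, smul_eq_mul, Function.comp_apply, hw]
        rfl
      rw [Finset.sum_congr rfl fun i _ => h3 i, rku_sum, hw]
      refine Filter.Germ.coe_eq.2 ?_
      filter_upwards [ha] with q hq
      have h4 := congrFun (hc q hq.2) k
      rw [Finset.sum_apply] at h4
      simpa only [Pi.smul_apply, smul_eq_mul, Function.comp_apply] using h4
  rw [← hsp, finrank_span_eq_card hli, Fintype.card_fin]

end Pool.Agent.Lib.MP_c82530_nt.UR
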