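import Pool.Agent.Lib.MP_c82530_nt.UR.Stm2

set_option autoImplicit false

open Polynomial IntermediateField

namespace Pool.Agent.Lib.MP_c82530_nt.UR

/-- rank and nullity on a submodule -/
private theorem RT2_rn {K Y Z : Type} [Field K] [AddCommGroup Y] [Module K Y] [AddCommGroup Z]
    [Module K Z] [FiniteDimensional K Y] (m : Y →ₗ[K] Z) (P : Submodule K Y) :
    Module.finrank K (P.map m) + Module.finrank K (P ⊓ LinearMap.ker m : Submodule K Y) =
      Module.finrank K P := by
  have h := LinearMap.finrank_range_add_finrank_ker (m.domRestrict P)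
  have h1 : LinearMap.range (m.domRestrict P) = P.map m := LinearMap.range_domRestrict P m
  have h2 : (LinearMap.ker (m.domRestrict P)).map P.subtype = P ⊓ LinearMap.ker m := by
    rw [LinearMap.ker_domRestrict, Submodule.map_comap_subtype]
  have h3 : Module.finrank K (LinearMap.ker (m.domRestrict P)) =
      Module.finrank K (P ⊓ LinearMap.ker m : Submodule K Y) := by
    rw [← h2, Submodule.finrank_map_subtype_eq]
  rw [h1, h3] at h
  exact h

private theorem RT2_fam {K Y : Type} [Field K] [AddCommGroup Y] [Module K Y]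
    [FiniteDimensional K Y] (U : Submodule K Y) : ∃ v : Fin (Module.finrank K U) → Y,
    LinearIndependent K v ∧ Submodule.span K (Set.range v) = U := by
  have b := Module.finBasis K U
  refine ⟨fun i => (b i : Y), b.linearIndependent.map' U.subtype (Submodule.ker_subtype U), ?_⟩
  have h2 : (Set.range fun i => (b i : Y)) = U.subtype '' (Set.range b) := by
    rw [← Set.range_comp]
    rfl
  rw [h2, Submodule.span_image, b.span_eq, Submodule.map_top, Submodule.range_subtype]

section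

variable {C Ω W : Type} [Field C] [CharZero C] [Field Ω] [CharZero Ω] [Algebra C Ω]
  [AddCommGroup W] [Module ℚ W]

private theorem RT2_upadd (u v : W →ₗ[ℚ] C) : up Ω (u + v) = up Ω u + up Ω v := by
  ext w
  simp [up_apply]

private theorem RT2_upsmul (c : C) (u : W →ₗ[ℚ] C) : up Ω (c • u) = algebraMap C Ω c • up Ω u := by
  ext w
  rw [up_apply, LinearMap.smul_apply, LinearMap.smul_apply, up_apply, smul_eq_mul, smul_eq_mul,
    map_mul]

private theorem RT2_upzero : up Ω (0 : W →ₗ[ℚ] C) = 0 := by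
  ext w
  simp [up_apply]

private theorem RT2_span {ι : Type} (v : ι → (W →ₗ[ℚ] C)) :
    UpS Ω (Submodule.span C (Set.range v)) = Submodule.span Ω (Set.range fun i => up Ω (v i)) := by
  apply le_antisymm
  · unfold UpS
    rw [Submodule.span_le]
    rintro _ ⟨u, hu, rfl⟩
    have hu' : u ∈ Submodule.span C (Set.range v) := hu
    induction hu' using Submodule.span_induction with
    | mem x hx =>
      obtain ⟨i, rfl⟩ := hx
      exact Submodule.subset_span ⟨i, rfl⟩
    | zero =>
      rw [RT2_upzero]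
      exact Submodule.zero_mem _
    | add x y hx hy ihx ihy =>
      rw [RT2_upadd]
      exact Submodule.add_mem _ (ihx hx) (ihy hy)
    | smul c x hx ihx =>
      rw [RT2_upsmul]
      exact Submodule.smul_mem _ _ (ihx hx)
  · rw [Submodule.span_le]
    rintro _ ⟨i, rfl⟩
    exact Submodule.subset_span ⟨v i, Submodule.subset_span ⟨i, rfl⟩, rfl⟩

/-- the linear maps vanishing on `V` -/
private def RT2_B (Ω : Type) [Field Ω] [CharZero Ω] (V : Submodule ℚ W) :
    Submodule Ω (W →ₗ[ℚ] Ω) where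
  carrier := {ψ | ∀ v ∈ V, ψ v = 0}
  zero_mem' := fun v _ => rfl
  add_mem' := by
    intro a b ha hb v hv
    rw [LinearMap.add_apply, ha v hv, hb v hv, add_zero]
  smul_mem' := by
    intro c a ha v hv
    rw [LinearMap.smul_apply, ha v hv, smul_zero]

private theorem RT2_updim (h1 : LI) [FiniteDimensional ℚ W] (U : Submodule C (W →ₗ[ℚ] C)) :
    Module.finrank Ω (UpS Ω U) = Module.finrank C U := by
  obtain ⟨v, hv, hs⟩ := RT2_fam U
  have h3 := finrank_span_eq_card (h1 C Ω W _ v hv)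
  rw [← RT2_span, hs, Fintype.card_fin] at h3
  exact h3

end

theorem p_RT2 (h1 : LI) (h2 : LIN) (h3 : SZ) : RT2 := by
  intro C Ω W _ _ _ _ _ _ _ _ _ S r δ f u hu
  -- the map `m`
  let m : (W →ₗ[ℚ] Ω) →ₗ[Ω] (Fin r → Ω) :=
    { toFun := fun ψ j => S.DD ψ (f j)
      map_add' := by
        intro a b
        funext j
        rw [map_add]
        rfl
      map_smul' := by
        intro c a
        funext j
        rw [map_smul]
        rfl }
  have hm : ∀ ψ j, m ψ j = S.DD ψ (f j) := fun ψ j => rfl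
  set U : Submodule C (W →ₗ[ℚ] C) := Submodule.span C (Set.range u) with hU
  have hUfin : Module.finrank C U = δ := by
    rw [hU, finrank_span_eq_card hu, Fintype.card_fin]
  have hUU : Module.finrank Ω (UpS Ω U) = δ := by rw [RT2_updim h1, hUfin]
  set 𝒟 : Submodule Ω (W →ₗ[ℚ] Ω) := UpS Ω U ⊓ LinearMap.ker m with h𝒟
  have hrn := RT2_rn m (UpS Ω U)
  rw [← h𝒟, hUU] at hrn
  set V₀ : Submodule ℚ W := Tor.V0 𝒟 with hV₀
  set U₀ : Submodule C (W →ₗ[ℚ] C) := Van U V₀ with hU₀
  have hDU : 𝒟 ≤ UpS Ω U₀ := by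
    intro φ hφ
    refine h2 C Ω W U V₀ φ (Submodule.mem_inf.1 hφ).1 ?_
    intro v hv
    exact hv φ hφ
  have hU₀V : ∀ u' ∈ U₀, ∀ v ∈ V₀, u' v = 0 := fun u' hu' v hv => hu'.2 v hv
  have hsz := h3 C Ω W S 𝒟 U₀ hDU hU₀V
  -- `Tan 𝒟` is in the kernel
  have hTan : S.Tan 𝒟 ≤ LinearMap.ker m := by
    intro ψ hψ
    rw [LinearMap.mem_ker]
    funext j
    rw [hm]
    refine hψ (f j) ?_
    intro φ hφ
    have h5 : m φ = 0 := LinearMap.mem_ker.1 (Submodule.mem_inf.1 hφ).2
    have h6 := congrFun h5 j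
    exact h6
  have hA : (RT2_B Ω V₀).map m ≤ (UpS Ω U₀).map m := by
    rintro _ ⟨ψ, hψ, rfl⟩
    obtain ⟨t, ht, s, hs, hts⟩ := Submodule.mem_sup.1 (hsz ψ hψ)
    refine ⟨s, hs, ?_⟩
    rw [← hts, map_add, LinearMap.mem_ker.1 (hTan ht), zero_add]
  refine ⟨V₀, ?_⟩
  have e1 : S.rk f {φ | ∃ ξ : W →ₗ[ℚ] ℚ, (∀ v ∈ V₀, ξ v = 0) ∧ φ = up Ω ξ} ≤
      Module.finrank Ω ((RT2_B Ω V₀).map m) := by
    refine Submodule.finrank_mono ?_
    rw [Submodule.span_le]
    rintro _ ⟨φ, ⟨ξ, hξ, rfl⟩, rfl⟩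
    refine ⟨up Ω ξ, ?_, rfl⟩
    intro v hv
    rw [up_apply, hξ v hv, map_zero]
  have e2 : S.rk f (Set.range fun a => up Ω (u a)) = Module.finrank Ω ((UpS Ω U).map m) := by
    have h4 : (UpS Ω U).map m =
        Submodule.span Ω (m '' (Set.range fun a => up Ω (u a))) := by
      rw [hU, RT2_span, Submodule.map_span]
    rw [h4]
    rfl
  have e3 := Submodule.finrank_mono hA
  have e4 := RT2_rn m (UpS Ω U₀)
  have e5 : Module.finrank Ω 𝒟 ≤
      Module.finrank Ω (UpS Ω U₀ ⊓ LinearMap.ker m : Submodule Ω (W →ₗ[ℚ] Ω)) :=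
    Submodule.finrank_mono (le_inf hDU inf_le_right)
  have e6 : Module.finrank Ω (UpS Ω U₀) = Module.finrank C U₀ := RT2_updim h1 U₀
  have e7 : Module.finrank C (Van (Submodule.span C (Set.range u)) V₀) = Module.finrank C U₀ := rfl
  rw [e2, e7]
  omega

end Pool.Agent.Lib.MP_c82530_nt.UR
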