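import Pool.Agent.Lib.MP_c82530_nt.UR.Stm2

/-!
# MP_c82530_nt, project UR, piece UVN
-/

set_option autoImplicit false

open Polynomial IntermediateField

namespace Pool.Agent.Lib.MP_c82530_nt.UR

private noncomputable def UVN_gm (F : Type) [Field F] : (ℕ → F) →+* UP F :=
  Filter.Germ.coeRingHom _

private theorem UVN_gm_eq {F : Type} [Field F] (f g : ℕ → F) : UVN_gm F f = UVN_gm F g ↔
    ∀ᶠ q in (Filter.hyperfilter ℕ : Filter ℕ), f q = g q :=
  Filter.Germ.coe_eq

private theorem UVN_gm_zero {F : Type} [Field F] (f : ℕ → F) : UVN_gm F f = 0 ↔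
    ∀ᶠ q in (Filter.hyperfilter ℕ : Filter ℕ), f q = 0 := by
  rw [← map_zero (UVN_gm F), UVN_gm_eq]
  rfl

private theorem UVN_gm_surj {F : Type} [Field F] (z : UP F) : ∃ f : ℕ → F, UVN_gm F f = z := by
  induction z using Filter.Germ.inductionOn with
  | _ f => exact ⟨f, rfl⟩

/-- part (1) -/
private theorem UVN_li (h : LI) {C F V ι : Type} [Field C] [CharZero C] [Field F] [CharZero F]
    [AddCommGroup V] [Module ℚ V] [FiniteDimensional ℚ V] [Fintype ι] (j : C →+* UP F)
    (η : ℕ → ι → (V →ₗ[ℚ] ℚ)) (w : ι → (V →ₗ[ℚ] C))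
    (hj : ∀ α v, j (w α v) = UVN_gm F (fun q => ((η q α v : ℚ) : F)))
    (hη : ∀ᶠ q in (Filter.hyperfilter ℕ : Filter ℕ), LinearIndependent ℚ (η q)) :
    LinearIndependent C w := by
  classical
  rw [Fintype.linearIndependent_iff]
  intro g hg α
  have b := Module.finBasis ℚ V
  choose γ hγ using fun α => UVN_gm_surj (j (g α))
  have h6 : ∀ a, ∀ᶠ q in (Filter.hyperfilter ℕ : Filter ℕ),
      ∑ α, γ α q * (η q α (b a) : F) = 0 := by
    intro a
    have h7 := congrArg (fun v : V →ₗ[ℚ] C => j (v (b a))) hg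
    simp only [LinearMap.sum_apply, LinearMap.smul_apply, smul_eq_mul, map_sum, map_mul,
      hj, ← hγ, LinearMap.zero_apply, map_zero] at h7
    rw [← UVN_gm_zero, ← h7]
    have h8 : (fun q => ∑ α, γ α q * (η q α (b a) : F)) =
        ∑ α, γ α * (fun q => (η q α (b a) : F)) := by
      funext q
      rw [Finset.sum_apply]
      rfl
    rw [h8, map_sum]
    refine Finset.sum_congr rfl fun α _ => ?_
    rw [map_mul]
  have h7 := Filter.eventually_all.2 h6
  have h8 : ∀ᶠ q in (Filter.hyperfilter ℕ : Filter ℕ), γ α q = 0 := by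
    filter_upwards [h7, hη] with q hq hηq
    have hli := h ℚ F V ι (η q) hηq
    rw [Fintype.linearIndependent_iff] at hli
    refine hli (fun α => γ α q) (b.ext fun a => ?_) α
    rw [LinearMap.sum_apply, LinearMap.zero_apply, ← hq a]
    rfl
  have h9 : j (g α) = 0 := by rw [← hγ, UVN_gm_zero]; exact h8
  exact (map_eq_zero _).1 h9

/-- finitely many values -/
private theorem UVN_const {β : Type} [Finite β] (f : ℕ → β) :
    ∃ b, ∀ᶠ q in (Filter.hyperfilter ℕ : Filter ℕ), f q = b := by
  by_contra hc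
  push Not at hc
  have h1 : ∀ b, ∀ᶠ q in (Filter.hyperfilter ℕ : Filter ℕ), f q ≠ b := hc
  have h2 := Filter.eventually_all.2 h1
  obtain ⟨q, hq⟩ := h2.exists
  exact hq (f q) rfl

/-- restriction of linear maps -/
private def UVN_res {C W : Type} [Field C] [CharZero C] [AddCommGroup W] [Module ℚ W]
    (V : Submodule ℚ W) : (W →ₗ[ℚ] C) →ₗ[C] (V →ₗ[ℚ] C) where
  toFun f := f ∘ₗ V.subtype
  map_add' _ _ := rfl
  map_smul' _ _ := rfl

private theorem UVN_rank {W : Type} [AddCommGroup W] [Module ℚ W] [FiniteDimensional ℚ W]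
    {δ : ℕ} (U V : Submodule ℚ W) (ξ : Fin δ → (W →ₗ[ℚ] ℚ)) (hli : LinearIndependent ℚ ξ)
    (h0 : ∀ α, ∀ v ∈ U, ξ α v = 0)
    (hd : Module.finrank ℚ U + δ = Module.finrank ℚ W) :
    Module.finrank ℚ (Submodule.span ℚ (Set.range fun α => (ξ α ∘ₗ V.subtype : V →ₗ[ℚ] ℚ))) +
      Module.finrank ℚ (V ⊓ U : Submodule ℚ W) = Module.finrank ℚ V := by
  have hU : (Submodule.span ℚ (Set.range ξ) : Submodule ℚ (Module.Dual ℚ W)).dualCoannihilator
      = U := by
    symm
    apply Submodule.eq_of_le_of_finrank_eq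
    · intro v hv
      rw [Submodule.mem_dualCoannihilator]
      intro φ hφ
      induction hφ using Submodule.span_induction with
      | mem φ hφ =>
        obtain ⟨α, rfl⟩ := hφ
        exact h0 α v hv
      | zero => rfl
      | add φ ψ _ _ h1 h2 => rw [LinearMap.add_apply, h1, h2, add_zero]
      | smul c φ _ h1 => rw [LinearMap.smul_apply, h1, smul_zero]
    · have h1 := Subspace.finrank_add_finrank_dualCoannihilator_eq
        (Submodule.span ℚ (Set.range ξ) : Submodule ℚ (Module.Dual ℚ W))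
      have h2 : Module.finrank ℚ
          (Submodule.span ℚ (Set.range ξ) : Submodule ℚ (Module.Dual ℚ W)) = δ := by
        have h3 := finrank_span_eq_card hli
        rw [Fintype.card_fin] at h3
        exact h3
      omega
  have hV := Subspace.finrank_add_finrank_dualCoannihilator_eq
    (Submodule.span ℚ (Set.range fun α => (ξ α ∘ₗ V.subtype : V →ₗ[ℚ] ℚ)) :
      Submodule ℚ (Module.Dual ℚ V))
  have hco : (Submodule.span ℚ (Set.range fun α => (ξ α ∘ₗ V.subtype : V →ₗ[ℚ] ℚ)) :
      Submodule ℚ (Module.Dual ℚ V)).dualCoannihilator = U.comap V.subtype := by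
    ext v
    rw [Submodule.mem_dualCoannihilator, Submodule.mem_comap, ← hU,
      Submodule.mem_dualCoannihilator]
    constructor
    · intro h1 φ hφ
      induction hφ using Submodule.span_induction with
      | mem φ hφ =>
        obtain ⟨α, rfl⟩ := hφ
        exact h1 _ (Submodule.subset_span ⟨α, rfl⟩)
      | zero => rfl
      | add φ ψ _ _ h1 h2 => rw [LinearMap.add_apply, h1, h2, add_zero]
      | smul c φ _ h1 => rw [LinearMap.smul_apply, h1, smul_zero]
    · intro h1 φ hφ
      induction hφ using Submodule.span_induction with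
      | mem φ hφ =>
        obtain ⟨α, rfl⟩ := hφ
        exact h1 _ (Submodule.subset_span ⟨α, rfl⟩)
      | zero => rfl
      | add φ ψ _ _ h1 h2 => rw [LinearMap.add_apply, h1, h2, add_zero]
      | smul c φ _ h1 => rw [LinearMap.smul_apply, h1, smul_zero]
  rw [hco] at hV
  have h4 : Module.finrank ℚ (U.comap V.subtype) =
      Module.finrank ℚ (V ⊓ U : Submodule ℚ W) := by
    rw [← Submodule.map_comap_subtype, Submodule.finrank_map_subtype_eq]
  rw [← h4]
  exact hV

theorem p_UVN (h1 : LI) : UVN := by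
  intro C F W _ _ _ _ _ _ _ j δ U ξ u hj hli hU
  classical
  have hj' : ∀ α w, j (u α w) = UVN_gm F (fun q => ((ξ q α w : ℚ) : F)) := hj
  have hu : LinearIndependent C u := UVN_li h1 j ξ u hj' hli
  refine ⟨hu, fun V => ?_⟩
  -- the subset
  have hex : ∀ q, ∃ B : Set (Fin δ), (Set.range fun α => (ξ q α ∘ₗ V.subtype : V →ₗ[ℚ] ℚ)) ⊆
      Submodule.span ℚ ((fun α => (ξ q α ∘ₗ V.subtype : V →ₗ[ℚ] ℚ)) '' B) ∧
      LinearIndepOn ℚ (fun α => (ξ q α ∘ₗ V.subtype : V →ₗ[ℚ] ℚ)) B := by
    intro q
    obtain ⟨B, -, -, h3, h4⟩ := exists_linearIndepOn_extension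
      (linearIndepOn_empty ℚ (fun α => (ξ q α ∘ₗ V.subtype : V →ₗ[ℚ] ℚ)))
      (Set.subset_univ (∅ : Set (Fin δ)))
    refine ⟨B, ?_, h4⟩
    rw [← Set.image_univ]
    exact h3
  choose B hB1 hB2 using hex
  obtain ⟨A, hA⟩ := UVN_const B
  -- independence over `C`
  have hAli : LinearIndependent C (fun α : A => (u α ∘ₗ V.subtype : V →ₗ[ℚ] C)) := by
    refine UVN_li h1 j (fun q (α : A) => (ξ q α ∘ₗ V.subtype : V →ₗ[ℚ] ℚ)) _ ?_ ?_
    · intro α v
      exact hj' α v
    · filter_upwards [hA] with q hq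
      have h3 := hB2 q
      rw [hq] at h3
      exact h3
  -- rank-nullity
  have hfr : Module.finrank C (Submodule.span C (Set.range u)) = δ := by
    have h3 := finrank_span_eq_card hu
    rw [Fintype.card_fin] at h3
    exact h3
  have hrn := LinearMap.finrank_range_add_finrank_ker (K := C)
    (V := Submodule.span C (Set.range u)) (V₂ := V →ₗ[ℚ] C)
    ((UVN_res (C := C) V).domRestrict (Submodule.span C (Set.range u)))
  have hker : Module.finrank C (LinearMap.ker
      ((UVN_res (C := C) V).domRestrict (Submodule.span C (Set.range u)))) =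
      Module.finrank C (Van (Submodule.span C (Set.range u)) V) := by
    have h3 : (LinearMap.ker ((UVN_res (C := C) V).domRestrict
        (Submodule.span C (Set.range u)))).map (Submodule.span C (Set.range u)).subtype =
        Van (Submodule.span C (Set.range u)) V := by
      ext f
      rw [Submodule.mem_map]
      constructor
      · rintro ⟨y, hy, rfl⟩
        refine ⟨y.2, fun v hv => ?_⟩
        have h4 := LinearMap.congr_fun (LinearMap.mem_ker.1 hy) ⟨v, hv⟩
        exact h4
      · rintro ⟨hf1, hf2⟩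
        refine ⟨⟨f, hf1⟩, ?_, rfl⟩
        rw [LinearMap.mem_ker]
        ext v
        exact hf2 v v.2
    rw [← h3, Submodule.finrank_map_subtype_eq]
  have hrange : Fintype.card A ≤ Module.finrank C (LinearMap.range
      ((UVN_res (C := C) V).domRestrict (Submodule.span C (Set.range u)))) := by
    have h3 : LinearIndependent C (fun α : A => (⟨u α ∘ₗ V.subtype,
        ⟨⟨u α, Submodule.subset_span ⟨α, rfl⟩⟩, rfl⟩⟩ : LinearMap.range
      ((UVN_res (C := C) V).domRestrict (Submodule.span C (Set.range u))))) := by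
      refine LinearIndependent.of_comp (Submodule.subtype _) ?_
      exact hAli
    exact h3.fintype_card_le_finrank
  filter_upwards [hA, hli, hU] with q hq hliq hUq
  have h3 := UVN_rank (U q) V (ξ q) hliq hUq.1 hUq.2
  have h4 : Module.finrank ℚ
      (Submodule.span ℚ (Set.range fun α => (ξ q α ∘ₗ V.subtype : V →ₗ[ℚ] ℚ))) =
      Fintype.card A := by
    have h5 : Submodule.span ℚ (Set.range fun α => (ξ q α ∘ₗ V.subtype : V →ₗ[ℚ] ℚ)) =
        Submodule.span ℚ (Set.range fun α : A => (ξ q α ∘ₗ V.subtype : V →ₗ[ℚ] ℚ)) := by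
      apply le_antisymm
      · rw [Submodule.span_le]
        have h6 := hB1 q
        rw [hq, Set.image_eq_range] at h6
        exact h6
      · apply Submodule.span_mono
        rintro _ ⟨α, rfl⟩
        exact ⟨α, rfl⟩
    rw [h5]
    have h6 := hB2 q
    rw [hq] at h6
    exact finrank_span_eq_card h6
  rw [← hker]
  omega

end Pool.Agent.Lib.MP_c82530_nt.UR
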