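import Pool.Agent.Lib.MP_c82530_nt.UR.Crit
import Pool.Agent.Lib.MP_c82530_nt.UR.Fna
import Pool.Agent.Lib.MP_c82530_nt.UR.All
import Pool.Agent.Lib.MP_c82530_nt.UR.P_FLD
import Pool.Agent.Lib.MP_c82530_nt.UR.P_FNB
import Pool.Agent.Lib.MP_c82530_nt.UR.P_MNR
import Pool.Agent.Lib.MP_c82530_nt.UR.P_RKU
import Pool.Agent.Lib.MP_c82530_nt.UR.P_RT2
import Pool.Agent.Lib.MP_c82530_nt.UR.P_UVN

/-!
# MP_c82530_nt, project UR: the final form
-/

set_option autoImplicit false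

open Set Module

namespace Pool.Agent.Lib.MP_c82530_nt.UR

open Pool.Agent.Lib.MP_c82530_nt Pool.Agent.Lib.MP_c82530_nt.UL

theorem t_RT2 : RT2 := p_RT2 p_LI (p_LIN p_LI) (p_SZ p_BRK p_DSC p_EXD (p_RES p_CT p_NRM))

theorem t_FNA : FNA :=
  fna_of_fnb (p_FNB t_RT2 p_RKU p_FLD (p_UVN p_LI) p_UAC p_UDR p_TORC)

/-- the exponents: `ℚ`-linearly independent algebraic numbers -/
def Adm {n : ℕ} (a : Fin n → ℂ) : Prop := (∀ i, IsAlgebraic ℚ (a i)) ∧ LinearIndependent ℚ a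

/-- the transcendence degree of the field generated by `exp a` and `l` -/
noncomputable def T {n r : ℕ} (a : Fin n → ℂ) (l : Fin r → ℂ) : Cardinal :=
  Algebra.trdeg ℚ (Algebra.adjoin ℚ (range (fun i => Complex.exp (a i)) ∪ range l))

lemma T_le_iff {n r : ℕ} {a : Fin n → ℂ} {l : Fin r → ℂ} (c : ℕ) : T a l ≤ (c : Cardinal) ↔
    AM.eRk (expSet (Submodule.span ℚ (range a)) ∪ range l) ≤ (c : ℕ∞) := by
  have hfin : (range (fun i => Complex.exp (a i)) ∪ range l).Finite :=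
    (finite_range _).union (finite_range _)
  have hne : AM.eRk (range (fun i => Complex.exp (a i)) ∪ range l) ≠ ⊤ := eRk_L_ne_top hfin
  unfold T
  rw [trdeg_adjoin hne, ← eRk_congr_closure (closure_exp_union a (range l))]
  obtain ⟨e, he⟩ := ENat.ne_top_iff_exists.1 hne
  rw [← he, ENat.toNat_coe]
  norm_cast

lemma sm_iff {n k r : ℕ} {l : Fin r → ℂ} :
    Sm n k l ↔ ∃ a : Fin n → ℂ, Adm a ∧ T a l ≤ (n + k : ℕ) := by
  constructor
  · rintro ⟨A, hAK, hAfd, rfl, hA⟩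
    obtain ⟨a, hli, ha⟩ := exists_fin_basis A
    refine ⟨a, ⟨fun i => mem_Kalg.1 (hAK ?_), hli⟩, ?_⟩
    · rw [← ha]
      exact Submodule.subset_span ⟨i, rfl⟩
    · rw [T_le_iff, ha]
      exact hA
  · rintro ⟨a, ⟨ha, hli⟩, h⟩
    rw [T_le_iff] at h
    refine ⟨Submodule.span ℚ (range a), span_le_Kalg ha,
      FiniteDimensional.span_of_finite ℚ (finite_range a), ?_, h⟩
    rw [finrank_span_eq_card hli, Fintype.card_fin]

lemma T_eq_iff {n r : ℕ} {a : Fin n → ℂ} (ha : Adm a) (l : Fin r → ℂ) :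
    T a l = (n + r : ℕ) ↔
      AlgebraicIndependent (integralClosure ℚ ℂ) (Sum.elim (fun i => Complex.exp (a i)) l) := by
  rw [ai_iff ha.2, finrank_span_eq_card ha.2, Fintype.card_fin]
  have hfin : (range (fun i => Complex.exp (a i)) ∪ range l).Finite :=
    (finite_range _).union (finite_range _)
  have hne : AM.eRk (range (fun i => Complex.exp (a i)) ∪ range l) ≠ ⊤ := eRk_L_ne_top hfin
  unfold T
  rw [trdeg_adjoin hne, ← eRk_congr_closure (closure_exp_union a (range l))]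
  obtain ⟨e, he⟩ := ENat.ne_top_iff_exists.1 hne
  rw [← he, ENat.toNat_coe]
  norm_cast

theorem common (Λ : Submodule ℚ ℂ) (n k r : ℕ)
    (h : ∀ l : Fin r → ℂ, (∀ i, l i ∈ Λ) → ∃ a : Fin n → ℂ, Adm a ∧ T a l ≤ (n + k : ℕ)) :
    ∃ v : Fin n → ℂ, Adm v ∧ ∀ l : Fin r → ℂ, (∀ i, l i ∈ Λ) → T v l ≤ (n + k : ℕ) := by
  have hrk : ∀ {v : Fin n → ℂ}, Adm v → ∀ {s : ℕ} (m : Fin s → ℂ),
      AM.eRk (expSet (Submodule.span ℚ (range v)) ∪ range m) ≤ (n + s : ℕ) := by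
    intro v hv s m
    have hfd : FiniteDimensional ℚ (Submodule.span ℚ (range v)) :=
      FiniteDimensional.span_of_finite ℚ (finite_range v)
    have h1 := rk_union_le (span_le_Kalg hv.1) m
    rwa [finrank_span_eq_card hv.2, Fintype.card_fin] at h1
  rcases le_or_gt r k with hk | hk
  · obtain ⟨v, hv, hli, -⟩ := exists_tuple (S := ⊥) bot_le (n := n) (by simp)
    refine ⟨v, ⟨hv, hli⟩, fun l _ => ?_⟩
    rw [T_le_iff]
    refine (hrk ⟨hv, hli⟩ l).trans ?_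
    exact_mod_cast Nat.add_le_add_left hk n
  · rcases t_exchange Λ n k with ⟨l', hl', hu⟩ | ⟨V, hVK, hVfd, hVn, m, -, hm⟩
    · exfalso
      obtain ⟨l, hl, hll'⟩ := exists_pad (Λ := Λ) (r := r) l' (Fin.elim0 : Fin 0 → ℂ) hl'
        (fun i => i.elim0) (by omega)
      obtain ⟨A, hAK, hAfd, hAn, hA⟩ := sm_iff.2 (h l hl)
      have h1 := hu A hAK hAfd hAn.le
      have h2 : AM.eRk (expSet A ∪ range l') ≤ AM.eRk (expSet A ∪ range l) :=
        AM.eRk_mono (union_subset_union_right _ (subset_union_left.trans hll'))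
      have h3 := h2.trans hA
      rw [h1, hAn] at h3
      norm_cast at h3
      omega
    · obtain ⟨v, hv, hli, hVv⟩ := exists_tuple hVK hVn
      refine ⟨v, ⟨hv, hli⟩, fun l hl => ?_⟩
      rw [T_le_iff]
      refine le_trans ?_ (hrk ⟨hv, hli⟩ m)
      rw [← AM.eRk_closure_eq (expSet (Submodule.span ℚ (range v)) ∪ range m)]
      apply AM.eRk_mono
      rintro z (hz | ⟨i, rfl⟩)
      · exact AM.mem_closure_of_mem' (Or.inl hz) (mem_univ _)
      · exact AM.closure_subset_closure (union_subset_union_left _ (expSet_mono hVv))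
          (hm _ (hl i))

lemma comb_span {r N : ℕ} (m : Fin N → ℂ) {l : Fin r → ℂ}
    (hl : ∀ k, l k ∈ Submodule.span ℚ (range m)) : ∃ t : Fin r × Fin N → ℚ, l = comb m t := by
  choose c hc using fun k => (Submodule.mem_span_range_iff_exists_fun ℚ).1 (hl k)
  refine ⟨fun p => c p.1 p.2, ?_⟩
  funext k
  rw [← hc k]
  unfold comb
  refine Finset.sum_congr rfl fun j _ => ?_
  rw [Algebra.smul_def, eq_ratCast]

lemma comb_mem_span {r N : ℕ} (m : Fin N → ℂ) (t : Fin r × Fin N → ℚ) (k : Fin r) :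
    comb m t k ∈ Submodule.span ℚ (range m) := by
  refine Submodule.sum_mem _ fun j _ => ?_
  have h1 := Submodule.smul_mem (Submodule.span ℚ (range m)) (t (k, j))
    (Submodule.subset_span ⟨j, rfl⟩)
  rwa [Algebra.smul_def, eq_ratCast] at h1

/-- the dimension of the exponents bounds the length of the tuples -/
lemma exists_n0 {N : ℕ} (m : Fin N → ℂ) (r : ℕ) : ∃ n₀ : ℕ, ∀ n k, n₀ ≤ n →
    ∀ t : Fin r × Fin N → ℚ, Sm n k (comb m t) ↔ Sm n₀ k (comb m t) := by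
  obtain ⟨W, hWfd, hE, hm⟩ := exists_setup m
  have h : FreeOn ∅ W := (hE.mono le_sup_right).freeOn
  obtain ⟨𝒱, h𝒱⟩ := exists_fin t_FNA h hm r
  refine ⟨finrank ℚ W, fun n k hn t => ?_⟩
  rw [crit p_JAC p_MNR hE h (comb_mem hm t) n k 𝒱 (h𝒱 t),
    crit p_JAC p_MNR hE h (comb_mem hm t) (finrank ℚ W) k 𝒱 (h𝒱 t)]
  refine exists_congr fun V => and_congr_right fun _ => ?_
  have h1 : finrank ℚ (V ⊓ Kalg.comap W.subtype : Submodule ℚ W) ≤ finrank ℚ W :=
    Submodule.finrank_le _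
  rw [max_eq_left h1, max_eq_left (h1.trans hn)]
  omega

theorem main (N : ℕ) (m : Fin N → ℂ) (r : ℕ) :
    ∃ P : ℕ → ℕ → MvPolynomial (Fin r × Fin N) ℚ,
      (∀ n k t, MvPolynomial.eval t (P n k) = 0 ↔
        ∃ a : Fin n → ℂ, Adm a ∧ T a (comb m t) ≤ (n + k : ℕ)) ∧
      (∀ n k, P n k = 0 ↔ ∃ v : Fin n → ℂ, Adm v ∧ ∀ t : Fin r × Fin N → ℚ,
        T v (comb m t) ≤ (n + k : ℕ)) ∧
      ∃ n₀, ∀ n k, n₀ ≤ n → P n k = P n₀ k := by
  classical
  choose P hP using fun n k => exists_poly p_JAC p_MNR t_FNA m n k r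
  obtain ⟨n₀, hn₀⟩ := exists_n0 m r
  have hP' : ∀ n k t, MvPolynomial.eval t (P n k) = 0 ↔ Sm n k (comb m t) :=
    fun n k t => (hP n k t).symm
  have key : ∀ n k t, MvPolynomial.eval t (P (min n n₀) k) = 0 ↔
      ∃ a : Fin n → ℂ, Adm a ∧ T a (comb m t) ≤ (n + k : ℕ) := by
    intro n k t
    rw [← sm_iff]
    rcases le_total n n₀ with hn | hn
    · rw [min_eq_left hn]
      exact hP' n k t
    · rw [min_eq_right hn, hP', hn₀ n k hn]
  refine ⟨fun n k => P (min n n₀) k, key, fun n k => ⟨fun h0 => ?_, ?_⟩, n₀, fun n k hn => ?_⟩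
  · obtain ⟨v, hv, hvl⟩ := common (Submodule.span ℚ (range m)) n k r (fun l hl => by
      obtain ⟨t, rfl⟩ := comb_span m hl
      rw [← key, show P (min n n₀) k = 0 from h0, map_zero])
    exact ⟨v, hv, fun t => hvl _ (comb_mem_span m t)⟩
  · rintro ⟨v, hv, hvt⟩
    apply MvPolynomial.funext
    intro t
    rw [map_zero]
    exact (key n k t).2 ⟨v, hv, hvt t⟩
  · simp only [min_eq_right hn, min_self]

end Pool.Agent.Lib.MP_c82530_nt.UR
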