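import Mathlib

/-!
# MP_c82530_nt, project UR (universal tuples): algebraic pieces

Everything here is pure algebra in characteristic zero. `Tor C Ω W` is a field `Ω` which is
algebraic over `C(x w : w ∈ W)`, where `x : W → Ω` is a homomorphism of a rational vector space `W`
to the multiplicative group, with all derivations `DD φ`, `DD φ (x w) = φ w * x w`.
-/

set_option autoImplicit false

open Polynomial IntermediateField

namespace Pool.Agent.Lib.MP_c82530_nt.UR

/-! ### residues -/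

/-- **(CT)** The constant term of logarithmic derivatives of rational functions.

Proof. `x` is transcendental over `K` (if `m` is its minimal polynomial over `K`, then
`0 = E (m(x)) = m'(x) * x` by `Derivation.map_aeval`, but `m'(x) ≠ 0` by separability). Every
nonzero `g ∈ K(x)` is `x ^ n * a(x) / b(x)` with `n : ℤ`, `a, b ∈ K[X]`, `a(0) ≠ 0 ≠ b(0)`
(`IntermediateField.mem_adjoin_simple_iff`, and divide numerator and denominator by the largest
power of `X`), and `E g / g = n + x a'(x) / a(x) - x b'(x) / b(x)`. Multiply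
`∑ ε_k (n_k + x a_k'(x) / a_k(x) - x b_k'(x) / b_k(x)) = c` by `∏ a_k(x) b_k(x)`: with
`A = ∏ a_k b_k` one gets `(∑ ε_k n_k - c) A + X * B = 0` in `K[X]` (`x` is transcendental) for
some `B`, and evaluating at `0`, `A(0) ≠ 0`, gives `c = ∑ n_k ε_k`. (Induction on `s` is a good
way to organize this: for every `s`, `∑ ε_k E g_k / g_k = ∑ ε_k n_k + x P(x) / Q(x)` with
`Q(0) ≠ 0`.) -/
def CT : Prop := ∀ (K Ω : Type) [Field K] [Field Ω] [Algebra K Ω] [CharZero K]
  (E : Derivation K Ω Ω) (x : Ω), x ≠ 0 → E x = x →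
  ∀ (s : ℕ) (ε : Fin s → K) (g : Fin s → Ω) (c : K), (∀ k, g k ≠ 0) → (∀ k, g k ∈ K⟮x⟯) →
  ∑ k, algebraMap K Ω (ε k) * (E (g k) / g k) = algebraMap K Ω c →
  ∃ n : Fin s → ℤ, c = ∑ k, (n k : K) * ε k

/-- **(NRM)** Reduction to rational functions by norms.

Proof. Let `L₀ = K⟮x⟯` and `L = L₀(z_1, …, z_s) ⊆ Ω`, a finite extension of `L₀`
(`IntermediateField.adjoin L₀ (Set.range z)`, finite dimensional by
`IntermediateField.finiteDimensional_adjoin`), `N = [L : L₀] ≥ 1`. `E` maps `L₀` to `L₀` and every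
element algebraic over a field `L'` with `E L' ⊆ L'` ... ; we only need the following. For each of
the `N` embeddings `σ : L →ₐ[L₀] Ω`, `E (σ y) = σ' (E y)` makes sense after extending `σ` to an
automorphism of the algebraic closure; to avoid this argue as follows. First `E y ∈ L` for `y ∈ L`
(`L₀` is mapped to itself; for `y` algebraic over `L₀` with minimal polynomial `m`,
`m^E(y) + m'(y) E y = 0`, so `E y ∈ L₀(y)`). Then `δ y = E (σ y) - σ (E y)` is additive,
`δ (y z) = σ y * δ z + σ z * δ y`, `δ = 0` on `L₀`, so `δ = 0` on `L` (apply `δ` to `m(y) = 0`: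
`m'(σ y) * δ y = 0`). Apply `σ` to `∑ ε_k (E z_k / z_k) = c` and sum over all `σ`:
`∑_k ε_k E (g_k) / g_k = N c` with `g_k = ∏_σ σ z_k = algebraMap L₀ Ω (Algebra.norm L₀ z_k)`
(`Algebra.norm_eq_prod_embeddings`, `Derivation.leibniz` for products:
`E (∏ y_i) / ∏ y_i = ∑ E y_i / y_i`), which lies in `L₀` and is not zero. -/
def NRM : Prop := ∀ (K Ω : Type) [Field K] [Field Ω] [Algebra K Ω] [CharZero K] [IsAlgClosed Ω]
  (E : Derivation K Ω Ω) (x : Ω), x ≠ 0 → E x = x →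
  ∀ (s : ℕ) (ε : Fin s → K) (z : Fin s → Ω) (c : K), (∀ k, z k ≠ 0) →
  (∀ k, IsAlgebraic K⟮x⟯ (z k)) →
  ∑ k, algebraMap K Ω (ε k) * (E (z k) / z k) = algebraMap K Ω c →
  ∃ (N : ℕ) (g : Fin s → Ω), N ≠ 0 ∧ (∀ k, g k ≠ 0) ∧ (∀ k, g k ∈ K⟮x⟯) ∧
    ∑ k, algebraMap K Ω (ε k) * (E (g k) / g k) = algebraMap K Ω ((N : K) * c)

/-- **(RES)** from `CT` and `NRM`: `N c = ∑ n_k ε_k`, `q_k = n_k / N`. -/
def RES : Prop := ∀ (K Ω : Type) [Field K] [Field Ω] [Algebra K Ω] [CharZero K] [IsAlgClosed Ω]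
  (E : Derivation K Ω Ω) (x : Ω), x ≠ 0 → E x = x →
  ∀ (s : ℕ) (ε : Fin s → K) (z : Fin s → Ω) (c : K), (∀ k, z k ≠ 0) →
  (∀ k, IsAlgebraic K⟮x⟯ (z k)) →
  ∑ k, algebraMap K Ω (ε k) * (E (z k) / z k) = algebraMap K Ω c →
  ∃ q : Fin s → ℚ, c = ∑ k, (q k : K) * ε k

/-! ### descent and linear algebra -/

/-- **(DSC)** A nonzero space of vectors which is stable under a set of derivations contains a
nonzero vector of constants.

Proof. Take `e ∈ S`, `e ≠ 0`, with the least number of nonzero coordinates, and multiply it by a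
scalar such that some coordinate is `e i₀ = 1`. For `D ∈ 𝒟` the vector `D e` is in `S`, its
coordinate `i₀` is `D 1 = 0`, and it vanishes where `e` does, so it has fewer nonzero coordinates;
hence `D e = 0`. -/
def DSC : Prop := ∀ (C Ω ι : Type) [Field C] [Field Ω] [Algebra C Ω] [Fintype ι]
  (𝒟 : Set (Derivation C Ω Ω)) (S : Submodule Ω (ι → Ω)),
  (∀ D ∈ 𝒟, ∀ e ∈ S, (fun i => D (e i)) ∈ S) → S ≠ ⊥ →
  ∃ e ∈ S, e ≠ 0 ∧ ∀ i, ∀ D ∈ 𝒟, D (e i) = 0

/-- a linear map to `C` as a linear map to the larger field `Ω` -/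
noncomputable def up {C : Type} (Ω : Type) {W : Type} [Field C] [CharZero C] [Field Ω]
    [CharZero Ω] [Algebra C Ω] [AddCommGroup W] [Module ℚ W] (u : W →ₗ[ℚ] C) : W →ₗ[ℚ] Ω where
  toFun w := algebraMap C Ω (u w)
  map_add' v w := by rw [map_add, map_add]
  map_smul' q w := by rw [map_smul, RingHom.id_apply, map_rat_smul]

@[simp] lemma up_apply {C Ω W : Type} [Field C] [CharZero C] [Field Ω]
    [CharZero Ω] [Algebra C Ω] [AddCommGroup W] [Module ℚ W] (u : W →ₗ[ℚ] C) (w : W) :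
    up Ω u w = algebraMap C Ω (u w) := rfl

/-- the span over `Ω` of a space of linear maps to `C` -/
noncomputable def UpS {C : Type} (Ω : Type) {W : Type} [Field C] [CharZero C] [Field Ω]
    [CharZero Ω] [Algebra C Ω] [AddCommGroup W] [Module ℚ W] (U : Submodule C (W →ₗ[ℚ] C)) :
    Submodule Ω (W →ₗ[ℚ] Ω) := Submodule.span Ω (up Ω '' (U : Set (W →ₗ[ℚ] C)))

/-- the linear maps in `U` which vanish on `V` -/
def Van {C W : Type} [Field C] [CharZero C] [AddCommGroup W] [Module ℚ W]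
    (U : Submodule C (W →ₗ[ℚ] C)) (V : Submodule ℚ W) : Submodule C (W →ₗ[ℚ] C) where
  carrier := {u | u ∈ U ∧ ∀ v ∈ V, u v = 0}
  zero_mem' := ⟨U.zero_mem, fun v _ => rfl⟩
  add_mem' := by
    rintro a b ⟨ha, ha'⟩ ⟨hb, hb'⟩
    exact ⟨U.add_mem ha hb, fun v hv => by rw [LinearMap.add_apply, ha' v hv, hb' v hv, add_zero]⟩
  smul_mem' := by
    rintro c a ⟨ha, ha'⟩
    exact ⟨U.smul_mem c ha, fun v hv => by rw [LinearMap.smul_apply, ha' v hv, smul_zero]⟩

/-- **(LI)** Linear independence over `C` of linear maps to `C` gives linear independence over `Ω`.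

Proof. Evaluation at a basis of `W` over `ℚ` identifies `W →ₗ[ℚ] C` with `Fin d → C` and
`W →ₗ[ℚ] Ω` with `Fin d → Ω`, compatibly with `up`. A family of vectors in `Cᵈ` which is linearly
independent over `C` is linearly independent over `Ω` in `Ωᵈ`: e.g. base change
(`LinearIndependent.baseChange` or tensor products), or: suppose `∑ g_i u_i(w) = 0` for all `w`,
`g_i ∈ Ω` not all zero; write the `g_i` in a basis of their `C`-span in `Ω` (apply a `C`-linear
functional `λ : Ω → C` with `λ (g_{i₀}) ≠ 0`: `∑ λ(g_i) u_i(w) = 0`, contradiction).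
The last argument does not need a basis of `W`. -/
def LI : Prop := ∀ (C Ω W ι : Type) [Field C] [CharZero C] [Field Ω] [CharZero Ω] [Algebra C Ω]
  [AddCommGroup W] [Module ℚ W] [Fintype ι] (u : ι → (W →ₗ[ℚ] C)), LinearIndependent C u →
  LinearIndependent Ω (fun i => up Ω (u i))

/-- **(LIN)** Elements of `Ω ⊗ U` which vanish on the rational subspace `V` are in
`Ω ⊗ (U ∩ V^⊥)`. Here `U` has finite dimension.

Proof. Let `U₀ = Van U V` and `U = U₀ ⊕ U₁`. Write `φ = φ₀ + φ₁` with `φ_i ∈ UpS Ω U_i`. Then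
`φ₁ = φ - φ₀` vanishes on `V`. The restriction `U₁ → (V →ₗ[ℚ] C)` is injective; take a basis
`u_1, …, u_k` of `U₁`: the restrictions to `V` are linearly independent over `C`, hence
(`LI` for the space `V`, may be used as a hypothesis) linearly independent over `Ω`, so `φ₁ = 0`. -/
def LIN : Prop := ∀ (C Ω W : Type) [Field C] [CharZero C] [Field Ω] [CharZero Ω] [Algebra C Ω]
  [AddCommGroup W] [Module ℚ W] (U : Submodule C (W →ₗ[ℚ] C)) [FiniteDimensional C U]
  (V : Submodule ℚ W) (φ : W →ₗ[ℚ] Ω), φ ∈ UpS Ω U → (∀ v ∈ V, φ v = 0) → φ ∈ UpS Ω (Van U V)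

/-- **(EXD)** A derivation over a large field of constants.

Proof. As in `MP52exp.P_der1` (Lib/MP_52aaf2_al/EX/P_der1.lean; its proof can be copied; the file
Lib/MP_52aaf2_al/Theta.lean has `exists_theta`, Lib/MP_52aaf2_al/EX/Acl.lean the closure
`MP52exp.acl`): `acl k C' = C'`, so `y ∉ acl k C'`; choose a basis `B₀` of `C'` in the algebraic
matroid and a base `B ⊇ insert y B₀`, `K = acl k (B \ {y})`. -/
def EXD : Prop := ∀ (k F : Type) [Field k] [Field F] [Algebra k F] [CharZero k]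
  (C' : IntermediateField k F) (y : F), (∀ z : F, IsAlgebraic C' z → z ∈ C') → y ∉ C' →
  ∃ K : IntermediateField k F, C' ≤ K ∧ (∀ z : F, IsAlgebraic K⟮y⟯ z) ∧
    ∃ E : Derivation K F F, E y = y

/-! ### tori -/

/-- A field algebraic over `C(x w : w ∈ W)`, with its derivations. -/
structure Tor (C Ω W : Type) [Field C] [CharZero C] [Field Ω] [CharZero Ω] [Algebra C Ω]
    [AddCommGroup W] [Module ℚ W] where
  /-- the homomorphism to the multiplicative group -/
  x : W → Ω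
  x_ne : ∀ w, x w ≠ 0
  x_add : ∀ v w, x (v + w) = x v * x w
  /-- the derivations -/
  DD : (W →ₗ[ℚ] Ω) →ₗ[Ω] Derivation C Ω Ω
  DD_x : ∀ (φ : W →ₗ[ℚ] Ω) (w : W), DD φ (x w) = φ w * x w
  alg : ∀ z : Ω, IsAlgebraic (IntermediateField.adjoin C (Set.range x)) z

section

variable {C Ω W : Type} [Field C] [CharZero C] [Field Ω] [CharZero Ω] [Algebra C Ω]
  [AddCommGroup W] [Module ℚ W]

/-- the field of constants of a set of derivations `DD φ`, `φ ∈ 𝒟` -/
def Tor.Cst (S : Tor C Ω W) (𝒟 : Submodule Ω (W →ₗ[ℚ] Ω)) : IntermediateField C Ω where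
  carrier := {h | ∀ φ ∈ 𝒟, S.DD φ h = 0}
  mul_mem' := by
    intro a b ha hb φ hφ
    rw [Derivation.leibniz, ha φ hφ, hb φ hφ, smul_zero, smul_zero, add_zero]
  add_mem' := by
    intro a b ha hb φ hφ
    rw [map_add, ha φ hφ, hb φ hφ, add_zero]
  algebraMap_mem' := fun c φ _ => (S.DD φ).map_algebraMap c
  inv_mem' := by
    intro a ha φ hφ
    rw [Derivation.leibniz_inv, ha φ hφ, smul_zero]

/-- the derivations killing the constants of `𝒟` -/
def Tor.Tan (S : Tor C Ω W) (𝒟 : Submodule Ω (W →ₗ[ℚ] Ω)) : Submodule Ω (W →ₗ[ℚ] Ω) where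
  carrier := {ψ | ∀ h ∈ S.Cst 𝒟, S.DD ψ h = 0}
  zero_mem' := fun h _ => by rw [map_zero, Derivation.zero_apply]
  add_mem' := by
    intro a b ha hb h hh
    rw [map_add, Derivation.add_apply, ha h hh, hb h hh, add_zero]
  smul_mem' := by
    intro c a ha h hh
    rw [map_smul, Derivation.smul_apply, ha h hh, smul_zero]

/-- the exponents `w` such that `x w` is a constant of `𝒟` -/
def Tor.V0 (𝒟 : Submodule Ω (W →ₗ[ℚ] Ω)) : Submodule ℚ W where
  carrier := {w | ∀ φ ∈ 𝒟, φ w = 0}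
  zero_mem' := fun φ _ => map_zero φ
  add_mem' := by
    intro a b ha hb φ hφ
    rw [map_add, ha φ hφ, hb φ hφ, add_zero]
  smul_mem' := by
    intro c a ha φ hφ
    rw [map_smul, ha φ hφ, smul_zero]

end

/-- **(BRK)** The bracket of two derivations; a derivation over `C` is a `DD ψ`.

Proof. (1) Both sides are derivations of `Ω` over `C` with the same value at `x w`:
`DD φ (ψ w * x w) - DD ψ (φ w * x w)`. A derivation over `C` which kills all `x w` kills
`C(x w)` (adjoin induction), and everything algebraic over this field (minimal polynomials,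
characteristic zero), i.e. all of `Ω` (`S.alg`); compare `MP52exp.P_dst`, `MP52aaf2.der_zero_alg`.
(2) `ψ w = E (x w) / x w` is additive in `w` because `x (v + w) = x v * x w`, and additive maps of
rational vector spaces are linear; `E - DD ψ` kills all `x w`. -/
def BRK : Prop := ∀ (C Ω W : Type) [Field C] [CharZero C] [Field Ω] [CharZero Ω] [Algebra C Ω]
  [AddCommGroup W] [Module ℚ W] (S : Tor C Ω W),
  (∀ (φ ψ χ : W →ₗ[ℚ] Ω), (∀ w, χ w = S.DD φ (ψ w) - S.DD ψ (φ w)) →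
    ∀ z, S.DD χ z = S.DD φ (S.DD ψ z) - S.DD ψ (S.DD φ z)) ∧
  (∀ E : Derivation C Ω Ω, ∃ ψ : W →ₗ[ℚ] Ω, E = S.DD ψ)

/-- **(SZ)** The main step (after J. Ax). Let `𝒟 ≤ Ω ⊗ U₀`, `U₀` a space of linear maps to `C`
vanishing on `V₀ = Tor.V0 𝒟`. Then every linear map `ψ : W → Ω` vanishing on `V₀` is in
`Tan 𝒟 + Ω ⊗ U₀`.

Proof. Let `Y` be a complement of `V₀` in `W` with basis `y_1, …, y_p`, and
`S = {e ∈ Ωᵖ : ∑ e_j ψ(y_j) = 0 for all ψ ∈ Tan 𝒟, ∑ e_j u(y_j) = 0 for all u ∈ U₀}`.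
CLAIM: `S = 0`. The claim gives the assertion: elements of `Tan 𝒟` vanish on `V₀` (for `v ∈ V₀`,
`x v` is in `Cst 𝒟` by `DD_x`, and `DD ψ (x v) = ψ v * x v`); the image of `Tan 𝒟 + UpS Ω U₀` in
`Ωᵖ` under `ψ ↦ (ψ(y_j))_j` has orthogonal complement `0`, so it is everything; and a linear map
vanishing on `V₀` is determined by its values at the `y_j`.
Proof of the claim. `S` is stable under `D = DD φ`, `φ ∈ 𝒟`: let `e ∈ S`. (a) For `u ∈ U₀`:
`0 = D (∑ e_j u(y_j)) = ∑ D(e_j) u(y_j)` since `u(y_j) ∈ C`. (b) For `ψ ∈ Tan 𝒟` let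
`χ w = DD φ (ψ w) - DD ψ (φ w)`; by `BRK` `χ ∈ Tan 𝒟` (for `h ∈ Cst 𝒟`:
`DD χ h = DD φ 0 - DD ψ 0 = 0`). Now
`0 = D (∑ e_j ψ(y_j)) = ∑ D(e_j) ψ(y_j) + ∑ e_j DD φ (ψ(y_j))` and
`∑ e_j DD φ (ψ(y_j)) = ∑ e_j χ(y_j) + ∑ e_j DD ψ (φ(y_j)) = 0 + 0`: as `φ ∈ UpS Ω U₀` is a
combination `∑ g_k u_k`, `u_k ∈ U₀`, `g_k ∈ Ω`,
`∑_j e_j DD ψ (φ(y_j)) = ∑_k DD ψ (g_k) ∑_j e_j u_k(y_j) = 0`.
If `S ≠ 0` then by `DSC` there is `e ∈ S`, `e ≠ 0`, with all `e_j ∈ Cst 𝒟`. Let `ε_1, …, ε_s` be a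
basis of the `ℚ`-span of the `e_j` (in `Ω`), `e_j = ∑_k q_{jk} ε_k`, `a_k = ∑_j q_{jk} y_j ∈ Y`;
the `ε_k` are in `Cst 𝒟`. As `e ≠ 0` some `a_k ≠ 0`, say `a_1`; `a_1 ∉ V₀`, so
`x (a_1) ∉ Cst 𝒟`. `Cst 𝒟` is relatively algebraically closed in `Ω` (a derivation killing a field
kills what is algebraic over it). By `EXD` (`k = C`, `C' = Cst 𝒟`, `y = x (a_1)`) there are a field
`K ⊇ Cst 𝒟` and a derivation `E` over `K` with `E y = y` and `Ω` algebraic over `K(y)`. As a
derivation over `C`, `E = DD ψ` by `BRK`, `ψ ∈ Tan 𝒟`, and `ψ w = E (x w) / x w`. From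
`∑ e_j ψ(y_j) = 0` we get `∑_k ε_k ψ(a_k) = 0`, i.e.
`∑_{k ≠ 1} ε_k E (x (a_k)) / x (a_k) = - ε_1`. By `RES` (over `K`) `- ε_1` is a rational combination
of the `ε_k`, `k ≠ 1`: contradiction. -/
def SZ : Prop := ∀ (C Ω W : Type) [Field C] [CharZero C] [Field Ω] [CharZero Ω] [Algebra C Ω]
  [IsAlgClosed Ω] [AddCommGroup W] [Module ℚ W] [FiniteDimensional ℚ W] (S : Tor C Ω W)
  (𝒟 : Submodule Ω (W →ₗ[ℚ] Ω)) (U₀ : Submodule C (W →ₗ[ℚ] C)),
  𝒟 ≤ UpS Ω U₀ → (∀ u ∈ U₀, ∀ v ∈ Tor.V0 𝒟, u v = 0) →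
  ∀ ψ : W →ₗ[ℚ] Ω, (∀ v ∈ Tor.V0 𝒟, ψ v = 0) → ψ ∈ S.Tan 𝒟 ⊔ UpS Ω U₀

/-- **(RAT)** Rationality of the exceptional directions. If all `r × r` minors of the matrix
`DD u_a (f_i)` vanish for `δ` linearly independent `u_a : W → C`, then all `r × r` minors vanish
for the rational directions vanishing on some `V ≤ W` with `dim V + δ ≤ dim W`.

Proof (uses `LI`, `LIN`, `SZ`). Let `d = dim W`, `U = span_C (u_a)`, of dimension `δ`; by `LI`
`UpS Ω U` has dimension `δ`. Let `𝒟 = {φ ∈ UpS Ω U : DD φ (f_i) = 0 for all i}`, the kernel of the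
`Ω`-linear map `UpS Ω U → Ωʳ`, `φ ↦ (DD φ (f_i))_i`, whose rank is `ρ ≤ r - 1` because the `r × r`
minors vanish (so `r ≥ 1`); `κ = dim 𝒟 = δ - ρ`. Let `V₀ = Tor.V0 𝒟`, `U₀ = Van U V₀`,
`δ₀ = dim_C U₀`, `p = d - dim V₀`. By `LIN` `𝒟 ≤ UpS Ω U₀`. Clearly `δ₀ ≤ δ`, and `δ₀ ≤ p`.
By `SZ` the space `A₀` of all `ψ : W → Ω` vanishing on `V₀` (of dimension `p`) is
`Tan 𝒟 + UpS Ω U₀` (both are contained in `A₀`); `𝒟 ≤ Tan 𝒟 ∩ UpS Ω U₀` (clearly
`𝒟 ≤ Tan 𝒟`), so `p ≤ dim (Tan 𝒟) + δ₀ - κ`. Every `ψ ∈ Tan 𝒟` has `DD ψ (f_i) = 0` since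
`f_i ∈ Cst 𝒟`. So the map `m : ψ ↦ (DD ψ (f_i))_i` has rank `≤ p - dim (Tan 𝒟) ≤ δ₀ - κ` on `A₀`.
Case 1: `dim V₀ + δ ≤ d`. Take `V = V₀`: the rank is `≤ δ₀ - κ ≤ δ - κ = ρ ≤ r - 1`.
Case 2: otherwise choose `V ≤ V₀` with `dim V = d - δ`. The maps vanishing on `V` form a space
containing `A₀`, of dimension `p + (dim V₀ - dim V)`, so the rank of `m` on it is at most
`δ₀ - κ + dim V₀ - dim V ≤ p - κ + dim V₀ - dim V = δ - κ ≤ r - 1`. In both cases the vectors
`m (up ξ_1), …, m (up ξ_r)` are linearly dependent, so the determinant vanishes. -/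
def RAT : Prop := ∀ (C Ω W : Type) [Field C] [CharZero C] [Field Ω] [CharZero Ω] [Algebra C Ω]
  [IsAlgClosed Ω] [AddCommGroup W] [Module ℚ W] [FiniteDimensional ℚ W] (S : Tor C Ω W)
  (r δ : ℕ) (f : Fin r → Ω) (u : Fin δ → (W →ₗ[ℚ] C)), LinearIndependent C u →
  (∀ k : Fin r → Fin δ, (Matrix.of fun i j => S.DD (up Ω (u (k i))) (f j)).det = 0) →
  ∃ V : Submodule ℚ W, Module.finrank ℚ V + δ ≤ Module.finrank ℚ W ∧
    ∀ ξ : Fin r → (W →ₗ[ℚ] ℚ), (∀ i, ∀ v ∈ V, ξ i v = 0) →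
      (Matrix.of fun i j => S.DD (up Ω (ξ i)) (f j)).det = 0

/-! ### ultrapowers -/

/-- the ultrapower of `F` -/
abbrev UP (F : Type) : Type := Filter.Germ (Filter.hyperfilter ℕ : Filter ℕ) F

/-- **(UAC)** An ultrapower of an algebraically closed field is algebraically closed.

Proof. `IsAlgClosed.of_exists_root`: let `p` be a monic (irreducible) polynomial over the
ultrapower, of degree `n ≥ 1`, with coefficients `c_i`, `i < n`, germs of sequences `a_i : ℕ → F`.
For every `m` the polynomial `X ^ n + ∑_{i < n} C (a_i m) * X ^ i` over `F` is monic of degree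
`n ≥ 1` and has a root `z m`. Let `z` be the germ: `z ^ n + ∑_{i < n} c_i z ^ i` is the germ of
`m ↦ (z m) ^ n + ∑ (a_i m) (z m) ^ i = 0`. -/
def UAC : Prop := ∀ (F : Type) [Field F] [IsAlgClosed F], IsAlgClosed (UP F)

/-- **(UDR)** A derivation of `F` acts on the ultrapower.

Proof. `Filter.Germ.map D`; all identities hold for representatives
(`Filter.Germ.inductionOn`, `Filter.Germ.coe_eq`). -/
def UDR : Prop := ∀ (F : Type) [Field F] (D : Derivation ℤ F F),
  ∃ D' : Derivation ℤ (UP F) (UP F), ∀ f : ℕ → F, D' (f : UP F) = ((fun m => D (f m)) : ℕ → F)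

/-- the common constants of finitely many derivations -/
def Cst0 {F : Type} [Field F] {d : ℕ} (D : Fin d → Derivation ℤ F F) : Subfield F where
  carrier := {h | ∀ a, D a h = 0}
  zero_mem' := fun a => map_zero (D a)
  one_mem' := fun a => (D a).map_one_eq_zero
  neg_mem' := fun {h} hh a => by rw [map_neg, hh a, neg_zero]
  mul_mem' := fun {g h} hg hh a => by
    rw [Derivation.leibniz, hg a, hh a, smul_zero, smul_zero, add_zero]
  add_mem' := fun {g h} hg hh a => by rw [map_add, hg a, hh a, add_zero]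
  inv_mem' := fun h hh a => by rw [Derivation.leibniz_inv, hh a, smul_zero]

/-- **(TORC)** Construction of a `Tor` inside a field `F` with derivations `D a`.

Proof. `C = Cst0 D`, `Ω` = the algebraic closure in `F` of `C(x w : w ∈ W)`
(`(algebraicClosure (IntermediateField.adjoin C (Set.range x)) F).restrictScalars C`, algebraically
closed because `F` is: `algebraicClosure.isAlgClosure` or directly), `j` the inclusion. The `D a`
are derivations over `C` and map `Ω` into `Ω`: they map the `x w` into `Ω`, so `C(x w)` into `Ω`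
(adjoin induction), and then everything algebraic over it (if `m` is the minimal polynomial of `z`,
`m^D(z) + m'(z) D z = 0`; compare `MP52exp.P_dst` in Lib/MP_52aaf2_al/EX/P_dst.lean, whose
proof can be copied). Put `DD φ z = ∑ a, φ (b a) * D a z`; it is `Ω`-linear in `φ`, and
`DD φ (x w) = ∑ φ (b a) (b.coord a w) x w = φ w * x w` (`Module.Basis.sum_repr`). -/
def TORC : Prop := ∀ (F W : Type) [Field F] [CharZero F] [IsAlgClosed F] [AddCommGroup W]
  [Module ℚ W] (d : ℕ) (b : Module.Basis (Fin d) ℚ W) (D : Fin d → Derivation ℤ F F) (x : W → F),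
  (∀ w, x w ≠ 0) → (∀ v w, x (v + w) = x v * x w) →
  (∀ a w, D a (x w) = (b.coord a w : F) * x w) →
  ∃ (C Ω : Type) (_ : Field C) (_ : CharZero C) (_ : Field Ω) (_ : CharZero Ω) (_ : Algebra C Ω)
    (_ : IsAlgClosed Ω) (S : Tor C Ω W) (j : Ω →+* F),
    (∀ w, j (S.x w) = x w) ∧
    (∀ (φ : W →ₗ[ℚ] Ω) (z : Ω), j (S.DD φ z) = ∑ a, j (φ (b a)) * D a (j z)) ∧
    (∀ c ∈ Cst0 D, ∃ c' : C, j (algebraMap C Ω c') = c) ∧
    (∀ c' : C, j (algebraMap C Ω c') ∈ Cst0 D) ∧
    (∀ z : F, IsAlgebraic (IntermediateField.adjoin (Cst0 D) (Set.range x)) z → ∃ z', j z' = z)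

/-- **(GNA)** From all rational combinations to the numbers themselves. Let `m_1, …, m_N ∈ F` be
algebraic over `C(x w : w ∈ W)`, `C` the field of constants of the `D a`, and for a linear form `ξ`
on `W` put `D_ξ = ∑ ξ(b_a) D a`. Suppose that for all rational `r × N` matrices `t`, with
`l_k = ∑_j t_{kj} m_j`, there is `V ≤ W` of dimension `≤ n` such that all determinants
`det (D_{ξ_i} l_k)` with `ξ_1, …, ξ_r` vanishing on `V` are zero. Then there is one such `V` of
dimension `≤ n` which serves for all `r`-tuples `(m_{k_1}, …, m_{k_r})`.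

Proof (uses `RAT`, `UAC`, `UDR`, `TORC`; ultrapower). If `n ≥ d = dim W` take `V = ⊤`
(if `r = 0` the hypothesis is absurd, the determinant of an empty matrix is `1`). Let `δ = d - n`.
The polynomials in `MvPolynomial (Fin r × Fin N) ℚ` are countable; let `P_0, P_1, …` be an
enumeration of the nonzero ones. For every `q : ℕ` choose `t⁽q⁾` with `P_i (t⁽q⁾) ≠ 0` for all
`i ≤ q` (`MvPolynomial.funext`: a nonzero polynomial over an infinite field does not vanish
everywhere), `V_q` for `t⁽q⁾` by hypothesis, and `δ` linearly independent forms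
`ξ⁽q⁾_1, …, ξ⁽q⁾_δ` on `W` vanishing on `V_q`. Let `F* = UP F`, an algebraically closed field
(`UAC`) with derivations `D*_a` (`UDR`) and `x* : W → F*` (constant germs). `TORC` gives
`C*, Ω*, S, j`. Let `u_α : W → C*` be the linear map whose value at `b_a` is the (preimage of
the) germ of `q ↦ ξ⁽q⁾_α (b_a)` (germs of rational numbers are constants). The `u_α` are linearly
independent over `C*`: if `∑ c_α u_α = 0` with `c_α` the germ of `c_α⁽q⁾`, then for almost all `q`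
`∑_α c_α⁽q⁾ ξ⁽q⁾_α (b_a) = 0` for all `a` in `F`, so `c_α⁽q⁾ = 0` because vectors in `ℚᵈ`
which are linearly independent over `ℚ` are so over `F` (`LI` for `C = ℚ` may be used). Let
`f_k ∈ Ω*` be the germ of `l⁽q⁾_k = ∑_j t⁽q⁾_{kj} m_j`: it is `∑_j t*_{kj} m_j`, `t*_{kj}` the germ
of the rationals, a constant, and `m_j` is algebraic over `C(x w)` hence its constant germ is
algebraic over `C*(x* w)`. All `r × r` minors of `DD u_α (f_k)` vanish: they are the germs of
`det (D_{ξ⁽q⁾_{α_i}} l⁽q⁾_k) = 0`. `RAT` gives `V ≤ W` with `dim V + δ ≤ d`, so `dim V ≤ n`, such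
that for all `ξ_1, …, ξ_r` vanishing on `V` the germ of `q ↦ det (D_{ξ_i} l⁽q⁾_k)` is zero, so the
determinant is zero for infinitely many `q`. Now `det (∑_j t_{kj} D_{ξ_i} m_j) = Q(t)` for a
polynomial `Q ∈ F[t]`. If `Q ≠ 0` choose a `ℚ`-linear `λ : F → ℚ` which is not zero at some
coefficient of `Q`; applying `λ` to the coefficients gives `Q_λ ≠ 0` over `ℚ` with
`Q_λ(t) = λ(Q(t))` for rational `t`; `Q_λ = P_i` for some `i` and `Q_λ(t⁽q⁾) ≠ 0` for `q ≥ i`,
contradiction. So `Q = 0`; evaluating at `t_{kj} = 1` if `j = k_k`, and `0` otherwise gives the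
assertion. -/
def GNA : Prop := ∀ (F W : Type) [Field F] [CharZero F] [IsAlgClosed F] [AddCommGroup W]
  [Module ℚ W] (d : ℕ) (b : Module.Basis (Fin d) ℚ W) (D : Fin d → Derivation ℤ F F) (x : W → F),
  (∀ w, x w ≠ 0) → (∀ v w, x (v + w) = x v * x w) →
  (∀ a w, D a (x w) = (b.coord a w : F) * x w) →
  ∀ (r N n : ℕ) (m : Fin N → F),
  (∀ j, IsAlgebraic (IntermediateField.adjoin (Cst0 D) (Set.range x)) (m j)) →
  (∀ t : Fin r × Fin N → ℚ, ∃ V : Submodule ℚ W, Module.finrank ℚ V ≤ n ∧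
    ∀ ξ : Fin r → (W →ₗ[ℚ] ℚ), (∀ i, ∀ v ∈ V, ξ i v = 0) →
      (Matrix.of fun i k => ∑ a, (ξ i (b a) : F) * D a (∑ j, (t (k, j) : F) * m j)).det = 0) →
  ∃ V : Submodule ℚ W, Module.finrank ℚ V ≤ n ∧
    ∀ ξ : Fin r → (W →ₗ[ℚ] ℚ), (∀ i, ∀ v ∈ V, ξ i v = 0) →
      ∀ k : Fin r → Fin N,
        (Matrix.of fun i i' => ∑ a, (ξ i (b a) : F) * D a (m (k i'))).det = 0

/-! ### Jacobians -/

/-- **(JAC)** Let `D_ξ`, `ξ ∈ X`, be derivations of `F` killing a subfield `K`.
(1) If `f_1, …, f_r` are algebraically dependent over `K` then all `det (D_{ξ_i} f_k)` vanish.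

Proof. Take a nonzero polynomial `P` over `K` in `r` variables with `P(f) = 0` of the least total
degree. Then `0 = D_ξ (P(f)) = ∑_k (∂_k P)(f) D_ξ f_k` for all `ξ`. Some `∂_k P` is not zero
(otherwise `P` is constant, characteristic zero) and has smaller total degree, so
`(∂_k P)(f) ≠ 0` by minimality. So the columns of the matrix are linearly dependent
(`Matrix.exists_mulVec_eq_zero_iff`). -/
def JAC : Prop := ∀ (K F : Type) [Field K] [Field F] [Algebra K F] [CharZero K] (r : ℕ)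
  (f : Fin r → F) (D : Fin r → Derivation K F F), ¬ AlgebraicIndependent K f →
  (Matrix.of fun i k => D i (f k)).det = 0

end Pool.Agent.Lib.MP_c82530_nt.UR
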