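import Pool.Agent.Lib.MP_c82530_nt.UR.Many
import Pool.Agent.Lib.MP_c82530_nt.UR.Stm

/-!
# MP_c82530_nt, project UR: the Jacobian criterion for the derivations `dd`
-/

set_option autoImplicit false

open Set Module

namespace Pool.Agent.Lib.MP_c82530_nt.UR

open Pool.Agent.Lib.MP_c82530_nt Pool.Agent.Lib.MP_c82530_nt.UL

lemma dsum {ι : Type*} (s : Finset ι) (D : ι → Derivation ℚ ℂ ℂ) (a : ℂ) :
    (∑ j ∈ s, D j) a = ∑ j ∈ s, D j a := by
  classical
  induction s using Finset.induction_on with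
  | empty => rfl
  | insert j s hj ih =>
    rw [Finset.sum_insert hj, Finset.sum_insert hj, Derivation.add_apply, ih]

lemma mem_KL' {S : Set ℂ} {z : ℂ} : z ∈ KL S ↔ z ∈ clF S := by
  rw [mem_KL, mem_clF]

/-- dependence implies vanishing determinants -/
theorem det_eq_zero (hJ : JAC) {B : Set ℂ} {W V : Submodule ℚ ℂ} (h : FreeOn B W) (hV : V ≤ W)
    {r : ℕ} {l : Fin r → ℂ} (hdep : ¬ AlgebraicIndependent (KL (B ∪ expSet V)) l)
    (ξ : Fin r → Module.Dual ℚ W) (hξ : ∀ i, ∀ b : W, (b : ℂ) ∈ V → ξ i b = 0) :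
    (Matrix.of fun i k => dd h (ξ i) (l k)).det = 0 := by
  have hK : ∀ i, ∀ c : KL (B ∪ expSet V), dd h (ξ i) (c : ℂ) = 0 := fun i c =>
    dd_zero h hV (ξ i) (hξ i) (mem_KL'.1 c.2)
  let D : Fin r → Derivation (KL (B ∪ expSet V)) ℂ ℂ := fun i => Derivation.mk'
    { toFun := dd h (ξ i)
      map_add' := map_add _
      map_smul' := fun c z => by
        rw [RingHom.id_apply, Algebra.smul_def, Algebra.smul_def, Derivation.leibniz]
        rw [show dd h (ξ i) (algebraMap (KL (B ∪ expSet V)) ℂ c) = 0 from hK i c, smul_zero,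
          add_zero, smul_eq_mul] }
    (fun a b => (dd h (ξ i)).leibniz a b)
  exact hJ (KL (B ∪ expSet V)) ℂ r l D hdep

/-- the vectors of derivatives span a proper subspace if all determinants vanish -/
lemma exists_ker {ι : Type*} {r : ℕ} (ρ : ι → Fin r → ℂ)
    (h : ∀ k : Fin r → ι, (Matrix.of fun i j => ρ (k i) j).det = 0) :
    ∃ g : Fin r → ℂ, g ≠ 0 ∧ ∀ i, ∑ j, g j * ρ i j = 0 := by
  classical
  have hne : Submodule.span ℂ (range ρ) ≠ ⊤ := by
    intro htop
    -- choose a basis among the vectors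
    obtain ⟨κ, e, hκ, hspan, hli⟩ := exists_linearIndependent' ℂ ρ
    have hb : Submodule.span ℂ (range (ρ ∘ e)) = ⊤ := by rw [hspan, htop]
    let b := Basis.mk hli hb.ge
    have hfin : Finite κ := Module.Finite.finite_basis b
    have : Fintype κ := Fintype.ofFinite κ
    have hcard : Fintype.card κ = r := by
      have := Module.finrank_eq_card_basis b
      rw [Module.finrank_fin_fun] at this
      exact this.symm
    let f : Fin r ≃ κ := (Fintype.equivFinOfCardEq hcard).symm
    have hli2 : LinearIndependent ℂ (fun i : Fin r => ρ (e (f i))) := hli.comp f f.injective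
    have h1 := h (fun i => e (f i))
    rw [← Matrix.exists_vecMul_eq_zero_iff] at h1
    obtain ⟨v, hv0, hv⟩ := h1
    apply hv0
    funext i
    refine Fintype.linearIndependent_iff.1 hli2 v ?_ i
    rw [← hv]
    funext j
    rw [Finset.sum_apply, Matrix.vecMul, dotProduct]
    rfl
  obtain ⟨φ, hφ0, hφ⟩ := Submodule.exists_le_ker_of_lt_top _ (lt_top_iff_ne_top.2 hne)
  refine ⟨fun j => φ (Pi.single j 1), fun h0 => hφ0 ?_, fun i => ?_⟩
  · apply LinearMap.pi_ext'
    intro j
    ext
    rw [LinearMap.comp_apply, LinearMap.coe_single, LinearMap.comp_apply, LinearMap.zero_apply]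
    exact congrFun h0 j
  · have h1 : φ (ρ i) = 0 := hφ (Submodule.subset_span ⟨i, rfl⟩)
    rw [← h1, LinearMap.pi_apply_eq_sum_univ φ (ρ i)]
    refine Finset.sum_congr rfl fun j _ => ?_
    rw [smul_eq_mul, mul_comm]
    congr 1
    change φ (Pi.single j 1) = _
    congr 1
    funext k
    rw [Pi.single_apply]
    simp only [eq_comm]

/-- independence implies that some determinant does not vanish -/
theorem exists_det_ne {B : Set ℂ} {W V : Submodule ℚ ℂ} (h : FreeOn B W) (hV : V ≤ W)
    [FiniteDimensional ℚ W] (hfin : AM.eRk (B ∪ expSet V) ≠ ⊤)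
    {r : ℕ} {l : Fin r → ℂ} (hl : ∀ k, l k ∈ clF (B ∪ expSet W))
    (hind : AlgebraicIndependent (KL (B ∪ expSet V)) l) :
    ∃ ξ : Fin r → Module.Dual ℚ W, (∀ i, ∀ b : W, (b : ℂ) ∈ V → ξ i b = 0) ∧
      (Matrix.of fun i k => dd h (ξ i) (l k)).det ≠ 0 := by
  classical
  by_contra hcon
  push Not at hcon
  obtain ⟨g, hg0, hg⟩ := exists_ker
    (fun (ξ : {ξ : Module.Dual ℚ W // ∀ b : W, (b : ℂ) ∈ V → ξ b = 0}) (k : Fin r) =>
      dd h ξ.1 (l k)) (fun k => hcon (fun i => (k i).1) (fun i => (k i).2))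
  obtain ⟨k₀, hk₀⟩ : ∃ k, g k ≠ 0 := by
    by_contra h0
    push Not at h0
    exact hg0 (funext h0)
  -- `l k₀` is not algebraic over the others
  have hnot : l k₀ ∉ clF ((B ∪ expSet V) ∪ l '' {k₀}ᶜ) := by
    intro hmem
    have h1 := (ind_iff_rk hfin l).1 hind
    have h2 : range l = insert (l k₀) (l '' {k₀}ᶜ) := by
      rw [← image_univ, ← image_insert_eq]
      congr 1
      ext k
      simp only [mem_univ, mem_insert_iff, mem_compl_iff, mem_singleton_iff, true_iff]
      exact em _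
    have h3 : AM.eRk ((B ∪ expSet V) ∪ range l) ≤ AM.eRk ((B ∪ expSet V) ∪ l '' {k₀}ᶜ) := by
      rw [h2, union_insert, ← AM.eRk_closure_eq ((B ∪ expSet V) ∪ l '' {k₀}ᶜ)]
      apply AM.eRk_mono
      rintro z (rfl | hz)
      · exact mem_clF.1 hmem
      · exact AM.mem_closure_of_mem' hz (mem_univ _)
    have h4 : AM.eRk (l '' {k₀}ᶜ) ≤ (r - 1 : ℕ) := by
      refine (AM.eRk_le_encard _).trans ((encard_image_le _ _).trans ?_)
      rw [Set.encard_eq_coe_toFinset_card, Set.toFinset_compl, Finset.card_compl]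
      simp
    have h5 := h3.trans (AM.eRk_union_le_eRk_add_eRk _ _)
    rw [h1] at h5
    have h6 := h5.trans (add_le_add_right h4 _)
    obtain ⟨c, hc⟩ := ENat.ne_top_iff_exists.1 hfin
    rw [← hc] at h6
    norm_cast at h6
    have : 0 < r := Fin.pos k₀
    omega
  obtain ⟨D, hD, hD1⟩ := der_exists hnot
  -- the linear map `φ w = D (exp w) / exp w`
  let φ : W →+ ℂ :=
    { toFun := fun w => D (Complex.exp (w : ℂ)) / Complex.exp (w : ℂ)
      map_zero' := by simp
      map_add' := fun v w => by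
        have h1 : Complex.exp ((v : ℂ) + w) = Complex.exp v * Complex.exp w :=
          Complex.exp_add _ _
        have hv := Complex.exp_ne_zero (v : ℂ)
        have hw := Complex.exp_ne_zero (w : ℂ)
        rw [Submodule.coe_add, h1, Derivation.leibniz, smul_eq_mul, smul_eq_mul]
        field_simp
        ring }
  let φ' : W →ₗ[ℚ] ℂ := φ.toRatLinearMap
  have hφ : ∀ w : W, D (Complex.exp (w : ℂ)) = φ' w * Complex.exp (w : ℂ) := by
    intro w
    change _ = D (Complex.exp (w : ℂ)) / Complex.exp (w : ℂ) * _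
    rw [div_mul_cancel₀ _ (Complex.exp_ne_zero _)]
  have hφV : ∀ w : W, (w : ℂ) ∈ V → φ' w = 0 := by
    intro w hw
    change D (Complex.exp (w : ℂ)) / Complex.exp (w : ℂ) = 0
    rw [hD _ (subset_clF _ (Or.inl (Or.inr ⟨w, hw, rfl⟩))), zero_div]
  -- adapted forms
  obtain ⟨Y, hY⟩ := Submodule.exists_isCompl (V.comap W.subtype)
  let b := Module.finBasis ℚ Y
  let pr := Y.projectionOnto (V.comap W.subtype) hY.symm
  let η : Fin (finrank ℚ Y) → Module.Dual ℚ W := fun j => (b.coord j).comp pr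
  have hηV : ∀ j, ∀ w : W, (w : ℂ) ∈ V → η j w = 0 := by
    intro j w hw
    have h1 : pr w = 0 := (Submodule.projectionOnto_apply_eq_zero_iff hY.symm).2 hw
    change b.coord j (pr w) = 0
    rw [h1, map_zero]
  have hφη : ∀ w : W, φ' w = ∑ j, φ' (b j) * (η j w : ℂ) := by
    intro w
    have h1 : w - (pr w : W) ∈ V.comap W.subtype := by
      rw [← Submodule.projectionOnto_apply_eq_zero_iff hY.symm, map_sub,
        Submodule.projectionOnto_apply_left, sub_self]
    have h2 : φ' w = φ' (pr w : W) := by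
      have := hφV (w - (pr w : W)) h1
      rw [map_sub, sub_eq_zero] at this
      exact this
    have h3 : (pr w : W) = ∑ j, (η j w) • (b j : W) := by
      have := b.sum_repr (pr w)
      have h4 := congrArg Y.subtype this
      rw [map_sum] at h4
      exact h4.symm
    rw [h2, h3, map_sum]
    refine Finset.sum_congr rfl fun j _ => ?_
    rw [map_smul, Algebra.smul_def, mul_comm]
    simp
  have hDl : ∀ z ∈ clF (B ∪ expSet W), D z = ∑ j, φ' (b j) * dd h (η j) z := by
    intro z hz
    have h1 : (D - ∑ j, φ' (b j) • dd h (η j)) z = 0 := by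
      refine der_zero _ ?_ hz
      rintro a (ha | ⟨w, hw, rfl⟩)
      · rw [Derivation.sub_apply, hD a (subset_clF _ (Or.inl (Or.inl ha))), dsum]
        simp [dd_B h _ ha]
      · rw [Derivation.sub_apply, hφ ⟨w, hw⟩, hφη ⟨w, hw⟩, dsum, Finset.sum_mul, sub_eq_zero]
        refine Finset.sum_congr rfl fun j _ => ?_
        rw [Derivation.smul_apply, dd_exp h (η j) ⟨w, hw⟩, mul_assoc, smul_eq_mul]
    rw [Derivation.sub_apply, sub_eq_zero] at h1
    rw [h1, dsum]
    exact Finset.sum_congr rfl fun j _ => by rw [Derivation.smul_apply, smul_eq_mul]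
  have hDk : ∀ k, k ≠ k₀ → D (l k) = 0 := fun k hk =>
    hD _ (subset_clF _ (Or.inr ⟨k, hk, rfl⟩))
  have h1 : ∑ k, g k * D (l k) = g k₀ := by
    rw [Finset.sum_eq_single k₀ (fun k _ hk => by rw [hDk k hk, mul_zero])
      (fun h => absurd (Finset.mem_univ _) h), hD1, mul_one]
  have h2 : ∑ k, g k * D (l k) = 0 := by
    have h3 : ∀ k, g k * D (l k) = ∑ j, φ' (b j) * (g k * dd h (η j) (l k)) := by
      intro k
      rw [hDl _ (hl k), Finset.mul_sum]
      exact Finset.sum_congr rfl fun j _ => by ring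
    rw [Finset.sum_congr rfl fun k _ => h3 k, Finset.sum_comm]
    refine Finset.sum_eq_zero fun j _ => ?_
    rw [← Finset.mul_sum]
    have h4 := hg ⟨η j, hηV j⟩
    rw [h4, mul_zero]
  exact hk₀ (h1.symm.trans h2)

end Pool.Agent.Lib.MP_c82530_nt.UR
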