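import Pool.Agent.Lib.MP_c82530_nt.UR.Asm

/-!
# MP_c82530_nt, project UR: the quantifier exchange
-/

set_option autoImplicit false

open Set Module

namespace Pool.Agent.Lib.MP_c82530_nt.UR

open Pool.Agent.Lib.MP_c82530_nt Pool.Agent.Lib.MP_c82530_nt.UL

/-- the second alternative: rank of `Λ` over `exp V` at most `r` -/
def Low (Λ : Submodule ℚ ℂ) (n r : ℕ) : Prop :=
  ∃ V ≤ Kalg, FiniteDimensional ℚ V ∧ finrank ℚ V ≤ n ∧ ∃ m : Fin r → ℂ, (∀ i, m i ∈ Λ) ∧
    ∀ x ∈ Λ, x ∈ AM.closure (expSet V ∪ range m)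

lemma not_low {Λ : Submodule ℚ ℂ} {n r : ℕ} {l : Fin (r + 1) → ℂ} (hlΛ : ∀ i, l i ∈ Λ)
    (hl : UnivR n l) : ¬ Low Λ n r := by
  rintro ⟨V, hVK, hVfd, hVn, m, -, hm⟩
  have h1 := hl V hVK hVfd hVn
  have h2 : AM.eRk (expSet V ∪ range l) ≤ AM.eRk (expSet V ∪ range m) := by
    rw [← AM.eRk_closure_eq (expSet V ∪ range m)]
    apply AM.eRk_mono
    rintro z (hz | ⟨i, rfl⟩)
    · exact AM.mem_closure_of_mem' (Or.inl hz) (mem_univ _)
    · exact hm _ (hlΛ i)
  have h3 := h2.trans (rk_union_le hVK m)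
  rw [h1] at h3
  norm_cast at h3
  omega

/-- independence over all `exp V` gives freeness on all algebraic numbers -/
lemma freeOn_Kalg_of {s : ℕ} {b : Fin s → ℂ} (hb : ∀ N, UnivR N b) : FreeOn (range b) Kalg := by
  intro V hV a ha haV hmem
  obtain ⟨V', hV'V, hV'fd, hV'⟩ := exists_fdB hmem
  set W := V' ⊔ Submodule.span ℚ {a} with hW
  have hWK : W ≤ Kalg := sup_le (hV'V.trans hV) (Submodule.span_le.2 (singleton_subset_iff.2 ha))
  have hWfd : FiniteDimensional ℚ W := by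
    have : FiniteDimensional ℚ (Submodule.span ℚ {a}) :=
      FiniteDimensional.span_of_finite ℚ (finite_singleton a)
    infer_instance
  have h1 := freeOn_of_univR (hb (finrank ℚ W)) hWK le_rfl
  exact h1 V' le_sup_left a (Submodule.mem_sup_right (Submodule.mem_span_singleton_self a))
    (fun h => haV (hV'V h)) hV'

lemma ai_cons {S : Set ℂ} (hS : AM.eRk S ≠ ⊤) {q : ℕ} {x : Fin q → ℂ}
    (hx : AlgebraicIndependent (KL S) x) {y : ℂ} (hy : y ∉ AM.closure (S ∪ range x)) :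
    AlgebraicIndependent (KL S) (Fin.cons y x : Fin (q + 1) → ℂ) := by
  rw [ind_iff_rk hS] at hx ⊢
  have h2 : S ∪ range (Fin.cons y x : Fin (q + 1) → ℂ) = insert y (S ∪ range x) := by
    rw [Fin.range_cons, union_insert]
  rw [h2, Matroid.eRk_insert_eq_add_one ⟨mem_univ _, hy⟩, hx, add_assoc]
  push_cast
  rfl

lemma ai_zero {S : Set ℂ} (hS : AM.eRk S ≠ ⊤) (x : Fin 0 → ℂ) :
    AlgebraicIndependent (KL S) x := by
  rw [ind_iff_rk hS, range_eq_empty, union_empty]
  simp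

/-- padding -/
lemma exists_pad {Λ : Submodule ℚ ℂ} {s q r : ℕ} (b : Fin s → ℂ) (c : Fin q → ℂ)
    (hb : ∀ i, b i ∈ Λ) (hc : ∀ i, c i ∈ Λ) (h : s + q ≤ r) :
    ∃ m : Fin r → ℂ, (∀ i, m i ∈ Λ) ∧ range b ∪ range c ⊆ range m := by
  refine ⟨fun i => if h1 : (i : ℕ) < s then b ⟨i, h1⟩ else
    if h2 : (i : ℕ) - s < q then c ⟨i - s, h2⟩ else 0, fun i => ?_, ?_⟩
  · dsimp only
    split_ifs
    · exact hb _
    · exact hc _
    · exact Λ.zero_mem
  · rintro z (⟨i, rfl⟩ | ⟨i, rfl⟩)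
    · refine ⟨⟨i, by omega⟩, ?_⟩
      dsimp only
      rw [dif_pos i.2]
    · refine ⟨⟨s + i, by omega⟩, ?_⟩
      dsimp only
      rw [dif_neg (by omega), dif_pos (by omega)]
      congr 1
      apply Fin.ext
      change s + (i : ℕ) - s = i
      omega

/-- the concatenation of `b` and `l` -/
lemma univR_append {n s q : ℕ} {b : Fin s → ℂ} (hb : UnivR n b) {l : Fin q → ℂ}
    (h : ∀ V ≤ Kalg, FiniteDimensional ℚ V → finrank ℚ V ≤ n →
      AlgebraicIndependent (KL (range b ∪ expSet V)) l) : UnivR n (Fin.append b l) := by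
  intro V hVK hVfd hVn
  have h1 := hb V hVK hVfd hVn
  have h2 := h V hVK hVfd hVn
  rw [union_comm] at h1
  rw [ind_iff_rk (by rw [h1]; exact ENat.natCast_ne_top _), h1] at h2
  have h3 : expSet V ∪ range (Fin.append b l) = range b ∪ expSet V ∪ range l := by
    have h4 : range (Fin.append b l) = range b ∪ range l := by
      ext z
      constructor
      · rintro ⟨i, rfl⟩
        refine Fin.addCases (fun j => ?_) (fun j => ?_) i
        · rw [Fin.append_left]
          exact Or.inl ⟨j, rfl⟩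
        · rw [Fin.append_right]
          exact Or.inr ⟨j, rfl⟩
      · rintro (⟨j, rfl⟩ | ⟨j, rfl⟩)
        · exact ⟨Fin.castAdd q j, Fin.append_left _ _ _⟩
        · exact ⟨Fin.natAdd s j, Fin.append_right _ _ _⟩
    rw [h4, ← union_assoc, union_comm (expSet V)]
  rw [h3, h2]
  push_cast
  rw [add_assoc]

/-- **Quantifier exchange.** -/
theorem exchange (hG : GNA) (hJ : JAC) (Λ : Submodule ℚ ℂ) (n r : ℕ) :
    (∃ l : Fin (r + 1) → ℂ, (∀ i, l i ∈ Λ) ∧ UnivR n l) ∨ Low Λ n r := by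
  classical
  by_contra hcon
  push Not at hcon
  obtain ⟨hno, hlow⟩ := hcon
  apply hlow
  have hno' : ∀ q, q = r + 1 → ∀ l : Fin q → ℂ, (∀ i, l i ∈ Λ) → ¬ UnivR n l := by
    rintro _ rfl l hl
    exact hno l hl
  -- finite rank
  obtain ⟨X, hXfin, hX⟩ : ∃ X : Set ℂ, X.Finite ∧ ∀ l ∈ Λ, l ∈ AM.closure X := by
    rcases fin_or_univ Λ (r + 1) n with ⟨l, h1, h2⟩ | h
    · exact absurd h2 (hno l h1)
    · exact h
  obtain ⟨N, m, hmΛ, hm⟩ : ∃ (N : ℕ) (m : Fin N → ℂ), (∀ j, m j ∈ Λ) ∧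
      ∀ x ∈ Λ, x ∈ AM.closure (range m) := by
    obtain ⟨I, hI⟩ := AM.exists_isBasis (Λ : Set ℂ) (subset_univ _)
    have hIfin : I.Finite := by
      rw [← encard_ne_top_iff, hI.encard_eq_eRk]
      have h1 : AM.eRk (Λ : Set ℂ) ≤ AM.eRk X := by
        rw [← AM.eRk_closure_eq X]
        exact AM.eRk_mono hX
      exact ne_top_of_le_ne_top (eRk_L_ne_top hXfin) h1
    have := hIfin.to_subtype
    obtain ⟨N, ⟨e⟩⟩ := Finite.exists_equiv_fin I
    refine ⟨N, fun j => (e.symm j : ℂ), fun j => hI.subset (e.symm j).2, fun x hx => ?_⟩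
    have h1 : range (fun j => (e.symm j : ℂ)) = I := by
      ext z
      constructor
      · rintro ⟨j, rfl⟩
        exact (e.symm j).2
      · intro hz
        refine ⟨e ⟨z, hz⟩, ?_⟩
        change ((e.symm (e ⟨z, hz⟩) : I) : ℂ) = z
        rw [Equiv.symm_apply_apply]
    rw [h1, hI.closure_eq_closure]
    exact AM.mem_closure_of_mem' hx (mem_univ _)
  -- the part independent of all exponentials
  obtain ⟨s, hs, ⟨b, hbΛ, hb⟩, hnext⟩ : ∃ s < r + 1,
      (∃ b : Fin s → ℂ, (∀ i, b i ∈ Λ) ∧ ∀ N, UnivR N b) ∧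
      ¬ ∃ b : Fin (s + 1) → ℂ, (∀ i, b i ∈ Λ) ∧ ∀ N, UnivR N b := by
    by_contra hc
    push Not at hc
    have h1 : ∀ s ≤ r + 1, ∃ b : Fin s → ℂ, (∀ i, b i ∈ Λ) ∧ ∀ N, UnivR N b := by
      intro s
      induction s with
      | zero => exact fun _ => ⟨Fin.elim0, fun i => i.elim0, fun N => univR_zero N _⟩
      | succ s ih =>
        intro hs
        exact hc s (by omega) (ih (by omega))
    obtain ⟨b, hb1, hb2⟩ := h1 (r + 1) le_rfl
    exact hno b hb1 (hb2 n)
  have hBK : FreeOn (range b) Kalg := freeOn_Kalg_of hb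
  have hΛE : ∀ x ∈ Λ, x ∈ clF (range b ∪ expSet Kalg) := by
    intro x hx
    by_contra hxE
    apply hnext
    refine ⟨Fin.cons x b, fun i => ?_, fun N => univR_cons (hb N) ?_⟩
    · refine Fin.cases ?_ (fun j => ?_) i
      · exact hx
      · exact hbΛ j
    · rintro ⟨S, hSK, -, -, hS⟩
      exact hxE (clF_mono (union_subset_union_right _ (image_mono hSK)) hS)
  obtain ⟨q, hq⟩ : ∃ q, s + q = r + 1 := ⟨r + 1 - s, by omega⟩
  -- apply theorem T
  obtain ⟨V, hVK, hVfd, hVn, hV⟩ := thmT hG hJ (finite_range b) hBK (n := n) (r := q) m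
    (fun j => hΛE _ (hmΛ j)) (by
      intro t
      by_contra hc
      push Not at hc
      refine hno' (s + q) hq (Fin.append b (fun k : Fin q => ∑ j, (t (k, j) : ℂ) * m j)) ?_
        (univR_append (hb n) hc)
      intro i
      refine Fin.addCases (fun j => ?_) (fun k => ?_) i
      · rw [Fin.append_left]
        exact hbΛ j
      · rw [Fin.append_right]
        refine Λ.sum_mem fun j _ => ?_
        have h1 := Λ.smul_mem (t (k, j)) (hmΛ j)
        rwa [Algebra.smul_def, eq_ratCast] at h1)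
  have hfin : AM.eRk (range b ∪ expSet V) ≠ ⊤ := by
    rw [union_comm, hb n V hVK hVfd hVn]
    exact ENat.natCast_ne_top _
  -- a maximal independent subfamily of `m`
  obtain ⟨p, hp, ⟨k, hk⟩, hpnext⟩ : ∃ p < q,
      (∃ k : Fin p → Fin N, AlgebraicIndependent (KL (range b ∪ expSet V)) (fun i => m (k i))) ∧
      ¬ ∃ k : Fin (p + 1) → Fin N,
        AlgebraicIndependent (KL (range b ∪ expSet V)) (fun i => m (k i)) := by
    by_contra hc
    push Not at hc
    have h1 : ∀ p ≤ q, ∃ k : Fin p → Fin N,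
        AlgebraicIndependent (KL (range b ∪ expSet V)) (fun i => m (k i)) := by
      intro p
      induction p with
      | zero => exact fun _ => ⟨Fin.elim0, ai_zero hfin _⟩
      | succ p ih =>
        intro hp
        exact hc p (by omega) (ih (by omega))
    obtain ⟨k, hk⟩ := h1 q le_rfl
    exact hV k hk
  have hmcl : ∀ j, m j ∈ AM.closure ((range b ∪ expSet V) ∪ range (fun i => m (k i))) := by
    intro j
    by_contra hj
    apply hpnext
    refine ⟨Fin.cons j k, ?_⟩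
    have h1 := ai_cons hfin hk hj
    convert h1 using 1
    funext i
    refine Fin.cases ?_ (fun i' => ?_) i <;> rfl
  obtain ⟨m', hm'Λ, hm'⟩ := exists_pad (r := r) b (fun i => m (k i)) hbΛ (fun i => hmΛ _)
    (by omega)
  refine ⟨V, hVK, hVfd, hVn, m', hm'Λ, fun x hx => ?_⟩
  have h1 : range m ⊆ AM.closure ((range b ∪ expSet V) ∪ range (fun i => m (k i))) := by
    rintro _ ⟨j, rfl⟩
    exact hmcl j
  have h2 := AM.closure_subset_closure h1 (hm x hx)
  rw [Matroid.closure_closure] at h2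
  refine AM.closure_subset_closure ?_ h2
  rintro z ((hz | hz) | hz)
  · exact Or.inr (hm' (Or.inl hz))
  · exact Or.inl hz
  · exact Or.inr (hm' (Or.inr hz))

end Pool.Agent.Lib.MP_c82530_nt.UR
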