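import Pool.Agent.Lib.MP_c82530_nt.UR.Rk

/-!
# MP_c82530_nt, project UR: universal tuples exist unless the rank is finite
-/

set_option autoImplicit false

open Set Module

namespace Pool.Agent.Lib.MP_c82530_nt.UR

open Pool.Agent.Lib.MP_c82530_nt Pool.Agent.Lib.MP_c82530_nt.UL

lemma freeOn_of_univR {r N : ℕ} {l : Fin r → ℂ} (hl : UnivR N l) {W : Submodule ℚ ℂ}
    (hWK : W ≤ Kalg) [FiniteDimensional ℚ W] (hWN : finrank ℚ W ≤ N) : FreeOn (range l) W := by
  intro V hVW a ha haV hmem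
  have hVfd : FiniteDimensional ℚ V := Submodule.finiteDimensional_of_le hVW
  set V' := V ⊔ Submodule.span ℚ {a} with hV'
  have hV'W : V' ≤ W := sup_le hVW (Submodule.span_le.2 (singleton_subset_iff.2 ha))
  have hV'fd : FiniteDimensional ℚ V' := Submodule.finiteDimensional_of_le hV'W
  have hlt : V < V' := by
    refine lt_of_le_of_ne le_sup_left fun h => haV ?_
    rw [h]
    exact Submodule.mem_sup_right (Submodule.mem_span_singleton_self a)
  have h1 := hl V (hVW.trans hWK) hVfd ((Submodule.finrank_mono hVW).trans hWN)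
  have h2 := hl V' (hV'W.trans hWK) hV'fd ((Submodule.finrank_mono hV'W).trans hWN)
  have h3 : expSet V' ∪ range l ⊆ AM.closure (expSet V ∪ range l) := by
    intro z hz
    have h4 := expSet_sup_le (B := range l) (V := V) a (by rwa [union_comm] at hz)
    have h5 := clF_insert hmem h4
    rw [mem_clF, union_comm] at h5
    exact h5
  have h4 : AM.eRk (expSet V' ∪ range l) ≤ AM.eRk (expSet V ∪ range l) := by
    rw [← AM.eRk_closure_eq (expSet V ∪ range l)]
    exact AM.eRk_mono h3
  rw [h1, h2] at h4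
  have h5 := Submodule.finrank_lt_finrank_of_lt hlt
  norm_cast at h4
  omega

lemma univR_zero (n : ℕ) (l : Fin 0 → ℂ) : UnivR n l := by
  intro V hVK hVfd _
  rw [range_eq_empty, union_empty, rk_expSet hVK, add_zero]

lemma univR_mono {n m r : ℕ} {l : Fin r → ℂ} (h : UnivR m l) (hnm : n ≤ m) : UnivR n l :=
  fun V h1 h2 h3 => h V h1 h2 (h3.trans hnm)

lemma univR_cons {n r : ℕ} {l : Fin r → ℂ} (h : UnivR n l) {x : ℂ}
    (hx : ¬ Small (range l) n x) : UnivR n (Fin.cons x l : Fin (r + 1) → ℂ) := by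
  intro V hVK hVfd hVn
  have h1 := h V hVK hVfd hVn
  have h2 : expSet V ∪ range (Fin.cons x l : Fin (r + 1) → ℂ) =
      insert x (expSet V ∪ range l) := by
    rw [Fin.range_cons, union_insert]
  have h3 : x ∉ AM.closure (expSet V ∪ range l) := by
    intro h4
    apply hx
    refine ⟨V, hVK, hVfd, hVn, ?_⟩
    rw [mem_clF, union_comm]
    exact h4
  rw [h2, Matroid.eRk_insert_eq_add_one ⟨mem_univ _, h3⟩, h1]
  push_cast
  rw [add_assoc]

lemma clF_fin {B : Set ℂ} (hB : B.Finite) (V : Submodule ℚ ℂ) [FiniteDimensional ℚ V] :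
    ∃ X : Set ℂ, X.Finite ∧ ∀ z ∈ clF (B ∪ expSet V), z ∈ AM.closure X := by
  obtain ⟨b, _, hbs⟩ := exists_fin_basis V
  refine ⟨B ∪ range (fun i => Complex.exp (b i)), hB.union (finite_range _), fun z hz => ?_⟩
  rw [mem_clF, ← AM.closure_union_closure_right_eq, ← hbs, ← cl_range_eq,
    AM.closure_union_closure_right_eq] at hz
  exact hz

theorem fin_or_univ (Λ : Submodule ℚ ℂ) : ∀ r n : ℕ,
    (∃ l : Fin r → ℂ, (∀ i, l i ∈ Λ) ∧ UnivR n l) ∨
      ∃ X : Set ℂ, X.Finite ∧ ∀ l ∈ Λ, l ∈ AM.closure X := by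
  intro r
  induction r with
  | zero => exact fun n => Or.inl ⟨Fin.elim0, fun i => i.elim0, univR_zero n _⟩
  | succ r ih =>
    intro n
    rcases ih (3 * n) with ⟨l, hlΛ, hl⟩ | h
    · by_cases hex : ∃ x ∈ Λ, ¬ Small (range l) n x
      · obtain ⟨x, hxΛ, hx⟩ := hex
        refine Or.inl ⟨Fin.cons x l, fun i => ?_, univR_cons (univR_mono hl (by omega)) hx⟩
        refine Fin.cases ?_ (fun j => ?_) i
        · exact hxΛ
        · exact hlΛ j
      · push Not at hex
        right
        obtain ⟨V, -, hVfd, -, hV⟩ := rel (B := range l) (n := n)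
          (fun W hW _ hWn => freeOn_of_univR hl hW hWn) Λ hex
        obtain ⟨X, hX, hXV⟩ := clF_fin (finite_range l) V
        exact ⟨X, hX, fun z hz => hXV z (hV z hz)⟩
    · exact Or.inr h

end Pool.Agent.Lib.MP_c82530_nt.UR
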