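import Pool.Agent.Lib.MP_c82530_nt.UR.Stm

set_option autoImplicit false

open Polynomial IntermediateField

namespace Pool.Agent.Lib.MP_c82530_nt.UR

/-- rank and nullity on a submodule -/
private theorem RAT_rn {K Y Z : Type} [Field K] [AddCommGroup Y] [Module K Y] [AddCommGroup Z]
    [Module K Z] [FiniteDimensional K Y] (m : Y →ₗ[K] Z) (P : Submodule K Y) :
    Module.finrank K (P.map m) + Module.finrank K (P ⊓ LinearMap.ker m : Submodule K Y) =
      Module.finrank K P := by
  have h := LinearMap.finrank_range_add_finrank_ker (m.domRestrict P)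
  have h1 : LinearMap.range (m.domRestrict P) = P.map m := LinearMap.range_domRestrict P m
  have h2 : (LinearMap.ker (m.domRestrict P)).map P.subtype = P ⊓ LinearMap.ker m := by
    rw [LinearMap.ker_domRestrict, Submodule.map_comap_subtype]
  have h3 : Module.finrank K (LinearMap.ker (m.domRestrict P)) =
      Module.finrank K (P ⊓ LinearMap.ker m : Submodule K Y) := by
    rw [← h2, Submodule.finrank_map_subtype_eq]
  rw [h1, h3] at h
  exact h

/-- rows in a space of small dimension -/
private theorem RAT_det0 {K : Type} [Field K] {r : ℕ} (Q : Submodule K (Fin r → K))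
    (hQ : Module.finrank K Q < r) (w : Fin r → (Fin r → K)) (hw : ∀ i, w i ∈ Q) :
    (Matrix.of fun i j => w i j).det = 0 := by
  by_contra h
  have h1 := Matrix.linearIndependent_rows_of_det_ne_zero h
  have h2 : LinearIndependent K w := h1
  have h3 := finrank_span_eq_card h2
  rw [Fintype.card_fin] at h3
  have h4 : Submodule.span K (Set.range w) ≤ Q := by
    rw [Submodule.span_le]
    rintro _ ⟨i, rfl⟩
    exact hw i
  have h5 := Submodule.finrank_mono h4
  omega

/-- vanishing minors -/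
private theorem RAT_minor {K : Type} [Field K] {r δ : ℕ} (w : Fin δ → (Fin r → K))
    (h : ∀ k : Fin r → Fin δ, (Matrix.of fun i j => w (k i) j).det = 0) :
    Module.finrank K (Submodule.span K (Set.range w)) < r := by
  by_contra hlt
  have h1 : Module.finrank K (Submodule.span K (Set.range w)) ≤ r := by
    have := Submodule.finrank_le (Submodule.span K (Set.range w))
    rwa [Module.finrank_fin_fun] at this
  have h2 : Module.finrank K (Submodule.span K (Set.range w)) = r := by omega
  obtain ⟨f, hf, -, hli⟩ := Submodule.exists_fun_fin_finrank_span_eq K (Set.range w)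
  choose k hk using hf
  let k' : Fin r → Fin δ := fun i => k (Fin.cast h2.symm i)
  have h3 := h k'
  have h4 : LinearIndependent K (Matrix.of fun i j => w (k' i) j).row := by
    have h5 : (Matrix.of fun i j => w (k' i) j).row = f ∘ (Fin.cast h2.symm) := by
      funext i
      show w (k (Fin.cast h2.symm i)) = f (Fin.cast h2.symm i)
      exact hk _
    rw [h5]
    exact hli.comp _ (Fin.cast_injective _)
  rw [Matrix.linearIndependent_rows_iff_isUnit, Matrix.isUnit_iff_isUnit_det, h3] at h4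
  exact not_isUnit_zero h4

private theorem RAT_fam {K Y : Type} [Field K] [AddCommGroup Y] [Module K Y]
    [FiniteDimensional K Y] (U : Submodule K Y) : ∃ v : Fin (Module.finrank K U) → Y,
    LinearIndependent K v ∧ Submodule.span K (Set.range v) = U := by
  have b := Module.finBasis K U
  refine ⟨fun i => (b i : Y), b.linearIndependent.map' U.subtype (Submodule.ker_subtype U), ?_⟩
  have h2 : (Set.range fun i => (b i : Y)) = U.subtype '' (Set.range b) := by
    rw [← Set.range_comp]
    rfl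
  rw [h2, Submodule.span_image, b.span_eq, Submodule.map_top, Submodule.range_subtype]

private theorem RAT_sub {K Y : Type} [Field K] [AddCommGroup Y] [Module K Y]
    [FiniteDimensional K Y] (U : Submodule K Y) (n : ℕ) (hn : n ≤ Module.finrank K U) :
    ∃ V : Submodule K Y, V ≤ U ∧ Module.finrank K V = n := by
  obtain ⟨v, hv, hs⟩ := RAT_fam U
  refine ⟨Submodule.span K (Set.range (v ∘ Fin.castLE hn)), ?_, ?_⟩
  · conv_rhs => rw [← hs]
    exact Submodule.span_mono (Set.range_comp_subset_range _ _)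
  · rw [finrank_span_eq_card (hv.comp _ (Fin.castLE_injective hn)), Fintype.card_fin]

section

variable {C Ω W : Type} [Field C] [CharZero C] [Field Ω] [CharZero Ω] [Algebra C Ω]
  [AddCommGroup W] [Module ℚ W]

private theorem RAT_upadd (u v : W →ₗ[ℚ] C) : up Ω (u + v) = up Ω u + up Ω v := by
  ext w
  simp [up_apply]

private theorem RAT_upsmul (c : C) (u : W →ₗ[ℚ] C) : up Ω (c • u) = algebraMap C Ω c • up Ω u := by
  ext w
  rw [up_apply, LinearMap.smul_apply, LinearMap.smul_apply, up_apply, smul_eq_mul, smul_eq_mul,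
    map_mul]

private theorem RAT_upzero : up Ω (0 : W →ₗ[ℚ] C) = 0 := by
  ext w
  simp [up_apply]

private theorem RAT_span {ι : Type} (v : ι → (W →ₗ[ℚ] C)) :
    UpS Ω (Submodule.span C (Set.range v)) = Submodule.span Ω (Set.range fun i => up Ω (v i)) := by
  apply le_antisymm
  · unfold UpS
    rw [Submodule.span_le]
    rintro _ ⟨u, hu, rfl⟩
    have hu' : u ∈ Submodule.span C (Set.range v) := hu
    induction hu' using Submodule.span_induction with
    | mem x hx =>
      obtain ⟨i, rfl⟩ := hx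
      exact Submodule.subset_span ⟨i, rfl⟩
    | zero =>
      rw [RAT_upzero]
      exact Submodule.zero_mem _
    | add x y hx hy ihx ihy =>
      rw [RAT_upadd]
      exact Submodule.add_mem _ (ihx hx) (ihy hy)
    | smul c x hx ihx =>
      rw [RAT_upsmul]
      exact Submodule.smul_mem _ _ (ihx hx)
  · rw [Submodule.span_le]
    rintro _ ⟨i, rfl⟩
    exact Submodule.subset_span ⟨v i, Submodule.subset_span ⟨i, rfl⟩, rfl⟩

/-- the linear maps vanishing on `V` -/
private def RAT_B (Ω : Type) [Field Ω] [CharZero Ω] (V : Submodule ℚ W) :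
    Submodule Ω (W →ₗ[ℚ] Ω) where
  carrier := {ψ | ∀ v ∈ V, ψ v = 0}
  zero_mem' := fun v _ => rfl
  add_mem' := by
    intro a b ha hb v hv
    rw [LinearMap.add_apply, ha v hv, hb v hv, add_zero]
  smul_mem' := by
    intro c a ha v hv
    rw [LinearMap.smul_apply, ha v hv, smul_zero]

private def RAT_pull (Ω : Type) [Field Ω] [CharZero Ω] (V : Submodule ℚ W) :
    ((W ⧸ V) →ₗ[ℚ] Ω) →ₗ[Ω] (W →ₗ[ℚ] Ω) where
  toFun φ := φ.comp V.mkQ
  map_add' := by
    intro a b
    ext w
    rfl
  map_smul' := by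
    intro c a
    ext w
    rfl

private theorem RAT_Bdim [FiniteDimensional ℚ W] (V : Submodule ℚ W) :
    Module.finrank Ω (RAT_B Ω V) + Module.finrank ℚ V = Module.finrank ℚ W := by
  have h1 : LinearMap.range (RAT_pull Ω V) = RAT_B Ω V := by
    ext ψ
    constructor
    · rintro ⟨φ, rfl⟩ v hv
      show φ (V.mkQ v) = 0
      rw [Submodule.mkQ_apply, (Submodule.Quotient.mk_eq_zero V).2 hv, map_zero]
    · intro hψ
      refine ⟨V.liftQ ψ (fun v hv => hψ v hv), ?_⟩
      exact V.liftQ_mkQ ψ _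
  have h2 : Function.Injective (RAT_pull Ω V) := by
    intro φ φ' h
    apply LinearMap.ext
    intro x
    obtain ⟨w, rfl⟩ := V.mkQ_surjective x
    exact LinearMap.congr_fun h w
  have h3 := LinearMap.finrank_range_of_inj h2
  rw [h1, Module.finrank_linearMap_self] at h3
  rw [h3]
  exact Submodule.finrank_quotient_add_finrank V

private theorem RAT_updim (h1 : LI) [FiniteDimensional ℚ W] (U : Submodule C (W →ₗ[ℚ] C)) :
    Module.finrank Ω (UpS Ω U) = Module.finrank C U := by
  obtain ⟨v, hv, hs⟩ := RAT_fam U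
  have h3 := finrank_span_eq_card (h1 C Ω W _ v hv)
  rw [← RAT_span, hs, Fintype.card_fin] at h3
  exact h3

end

theorem p_RAT (h1 : LI) (h2 : LIN) (h3 : SZ) : RAT := by
  intro C Ω W _ _ _ _ _ _ _ _ _ S r δ f u hu hdet
  -- the map `m`
  let m : (W →ₗ[ℚ] Ω) →ₗ[Ω] (Fin r → Ω) :=
    { toFun := fun ψ j => S.DD ψ (f j)
      map_add' := by
        intro a b
        funext j
        rw [map_add]
        rfl
      map_smul' := by
        intro c a
        funext j
        rw [map_smul]
        rfl }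
  have hm : ∀ ψ j, m ψ j = S.DD ψ (f j) := fun ψ j => rfl
  set U : Submodule C (W →ₗ[ℚ] C) := Submodule.span C (Set.range u) with hU
  have hUfin : Module.finrank C U = δ := by
    rw [hU, finrank_span_eq_card hu, Fintype.card_fin]
  have hUU : Module.finrank Ω (UpS Ω U) = δ := by rw [RAT_updim h1, hUfin]
  -- the rank of `m` on `UpS Ω U`
  have hrank : Module.finrank Ω ((UpS Ω U).map m) < r := by
    have h4 : (UpS Ω U).map m = Submodule.span Ω (Set.range fun a => m (up Ω (u a))) := by
      rw [hU, RAT_span, Submodule.map_span, ← Set.range_comp]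
      rfl
    rw [h4]
    apply RAT_minor
    intro k
    exact hdet k
  set 𝒟 : Submodule Ω (W →ₗ[ℚ] Ω) := UpS Ω U ⊓ LinearMap.ker m with h𝒟
  have hrn := RAT_rn m (UpS Ω U)
  rw [← h𝒟, hUU] at hrn
  set V₀ : Submodule ℚ W := Tor.V0 𝒟 with hV₀
  set U₀ : Submodule C (W →ₗ[ℚ] C) := Van U V₀ with hU₀
  have hDU : 𝒟 ≤ UpS Ω U₀ := by
    intro φ hφ
    refine h2 C Ω W U V₀ φ (Submodule.mem_inf.1 hφ).1 ?_
    intro v hv
    exact hv φ hφ
  have hU₀V : ∀ u' ∈ U₀, ∀ v ∈ V₀, u' v = 0 := fun u' hu' v hv => hu'.2 v hv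
  have hsz := h3 C Ω W S 𝒟 U₀ hDU hU₀V
  -- `Tan 𝒟` is in the kernel
  have hTan : S.Tan 𝒟 ≤ LinearMap.ker m := by
    intro ψ hψ
    rw [LinearMap.mem_ker]
    funext j
    rw [hm]
    refine hψ (f j) ?_
    intro φ hφ
    have h5 : m φ = 0 := LinearMap.mem_ker.1 (Submodule.mem_inf.1 hφ).2
    have h6 := congrFun h5 j
    exact h6
  have hA : (RAT_B Ω V₀).map m ≤ (UpS Ω U₀).map m := by
    rintro _ ⟨ψ, hψ, rfl⟩
    obtain ⟨t, ht, s, hs, hts⟩ := Submodule.mem_sup.1 (hsz ψ hψ)
    refine ⟨s, hs, ?_⟩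
    rw [← hts, map_add, LinearMap.mem_ker.1 (hTan ht), zero_add]
  have hUU₀le : UpS Ω U₀ ≤ UpS Ω U :=
    Submodule.span_mono (Set.image_mono (fun u' hu' => hu'.1))
  have hUU₀A : UpS Ω U₀ ≤ RAT_B Ω V₀ := by
    unfold UpS
    rw [Submodule.span_le]
    rintro _ ⟨u', hu', rfl⟩ v hv
    rw [up_apply, hU₀V u' hu' v hv, map_zero]
  -- the final step
  have hfin : ∀ V : Submodule ℚ W, Module.finrank Ω ((RAT_B Ω V).map m) < r →
      ∀ ξ : Fin r → (W →ₗ[ℚ] ℚ), (∀ i, ∀ v ∈ V, ξ i v = 0) →
      (Matrix.of fun i j => S.DD (up Ω (ξ i)) (f j)).det = 0 := by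
    intro V hV ξ hξ
    refine RAT_det0 _ hV (fun i => m (up Ω (ξ i))) ?_
    intro i
    refine ⟨up Ω (ξ i), ?_, rfl⟩
    intro v hv
    rw [up_apply, hξ i v hv, map_zero]
  by_cases hc : Module.finrank ℚ V₀ + δ ≤ Module.finrank ℚ W
  · refine ⟨V₀, hc, hfin V₀ ?_⟩
    have h7 := Submodule.finrank_mono (hA.trans (Submodule.map_mono hUU₀le))
    omega
  · have hδ : δ ≤ Module.finrank ℚ W := by
      have h8 := Submodule.finrank_le (UpS Ω U)
      rw [hUU, Module.finrank_linearMap_self] at h8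
      exact h8
    obtain ⟨V, hVle, hVdim⟩ : ∃ V : Submodule ℚ W, V ≤ V₀ ∧
        Module.finrank ℚ V = Module.finrank ℚ W - δ := RAT_sub V₀ _ (by omega)
    refine ⟨V, by omega, hfin V ?_⟩
    have hBle : RAT_B Ω V₀ ≤ RAT_B Ω V := fun ψ hψ v hv => hψ v (hVle hv)
    have e1 := RAT_rn m (RAT_B Ω V)
    have e2 := RAT_rn m (RAT_B Ω V₀)
    have e3 := RAT_rn m (UpS Ω U₀)
    have e4 : Module.finrank Ω (RAT_B Ω V₀ ⊓ LinearMap.ker m : Submodule Ω (W →ₗ[ℚ] Ω)) ≤
        Module.finrank Ω (RAT_B Ω V ⊓ LinearMap.ker m : Submodule Ω (W →ₗ[ℚ] Ω)) :=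
      Submodule.finrank_mono (inf_le_inf_right _ hBle)
    have e5 : Module.finrank Ω 𝒟 ≤
        Module.finrank Ω (UpS Ω U₀ ⊓ LinearMap.ker m : Submodule Ω (W →ₗ[ℚ] Ω)) :=
      Submodule.finrank_mono (le_inf hDU inf_le_right)
    have e6 := Submodule.finrank_mono hA
    have e7 := Submodule.finrank_mono hUU₀A
    have e8 := RAT_Bdim (Ω := Ω) V
    have e9 := RAT_Bdim (Ω := Ω) V₀
    omega

end Pool.Agent.Lib.MP_c82530_nt.UR
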