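import Pool.Agent.Lib.MP_c82530_nt.UR.Stm

/-!
# MP_c82530_nt, project UR (universal tuples), second part: finiteness
-/

set_option autoImplicit false

open Polynomial IntermediateField

namespace Pool.Agent.Lib.MP_c82530_nt.UR

/-- the rank of the derivatives of `f` in the directions `φ ∈ X` -/
noncomputable def Tor.rk {C Ω W : Type} [Field C] [CharZero C] [Field Ω] [CharZero Ω] [Algebra C Ω]
    [AddCommGroup W] [Module ℚ W] (S : Tor C Ω W) {r : ℕ} (f : Fin r → Ω)
    (X : Set (W →ₗ[ℚ] Ω)) : ℕ :=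
  Module.finrank Ω (Submodule.span Ω ((fun φ => fun i : Fin r => S.DD φ (f i)) '' X))

/-- **(RT2)** Rationality of the exceptional directions, rank version of `RAT`.

Proof (uses `LI`, `LIN`, `SZ`; compare UR/P_RAT.lean, whose proof can be copied in part). Let
`d = dim W`, `U = span_C (u_a)`, of dimension `δ`; by `LI` `UpS Ω U` has dimension `δ`. Let
`𝒟 = {φ ∈ UpS Ω U : DD φ (f_i) = 0 for all i}`, the kernel of the `Ω`-linear map
`m : UpS Ω U → Ωʳ`, `φ ↦ (DD φ (f_i))_i`; the range of `m` is the span of the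
`(DD (up u_a) (f_i))_i`, so its rank is `ρ = S.rk f (range up u)` and `κ = dim 𝒟 = δ - ρ`.
Let `V₀ = Tor.V0 𝒟`, `U₀ = Van U V₀`, `δ₀ = dim_C U₀`, `p = d - dim V₀`. By `LIN`
`𝒟 ≤ UpS Ω U₀`. By `SZ` the space `A₀` of all `ψ : W → Ω` vanishing on `V₀` (of dimension `p`)
is `Tan 𝒟 + UpS Ω U₀` (both are contained in `A₀`), and `𝒟 ≤ Tan 𝒟 ∩ UpS Ω U₀`, so
`p ≤ dim (Tan 𝒟) + δ₀ - κ`. Every `ψ ∈ Tan 𝒟` has `DD ψ (f_i) = 0` since `f_i ∈ Cst 𝒟`. So
`ψ ↦ (DD ψ (f_i))_i` has rank `≤ p - dim (Tan 𝒟) ≤ δ₀ - κ = δ₀ - δ + ρ` on `A₀`, which contains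
all `up ξ` with `ξ` vanishing on `V₀`. Take `V = V₀`. -/
def RT2 : Prop := ∀ (C Ω W : Type) [Field C] [CharZero C] [Field Ω] [CharZero Ω] [Algebra C Ω]
  [IsAlgClosed Ω] [AddCommGroup W] [Module ℚ W] [FiniteDimensional ℚ W] (S : Tor C Ω W)
  (r δ : ℕ) (f : Fin r → Ω) (u : Fin δ → (W →ₗ[ℚ] C)), LinearIndependent C u →
  ∃ V : Submodule ℚ W,
    S.rk f {φ | ∃ ξ : W →ₗ[ℚ] ℚ, (∀ v ∈ V, ξ v = 0) ∧ φ = up Ω ξ} + δ ≤
      S.rk f (Set.range fun a => up Ω (u a)) +
        Module.finrank C (Van (Submodule.span C (Set.range u)) V)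

/-- **(RKU)** Ranks in an ultrapower.

Proof. There are finitely many subsets `A` of `Fin p`; for almost all `q` some `A` with `R`
elements is such that `(v q a)_{a ∈ A}` is linearly independent and spans `span (range (v q))`; as
there are finitely many `A`, one `A` works for almost all `q` (`Ultrafilter.eventually_or`,
`Ultrafilter.finite_biUnion_mem_iff` or similar). The germs `(v_a)_{a ∈ A}` are linearly
independent: if `∑ c_a v_a = 0` with `c_a` the germ of `c_a⁽q⁾` then for almost all `q`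
`∑ c_a⁽q⁾ v q a = 0`, so `c_a⁽q⁾ = 0`. They span: `v q a' = ∑_{a ∈ A} c⁽q⁾_{a', a} v q a` for
almost all `q` gives `v_{a'} = ∑ c_{a', a} v_a`. -/
def RKU : Prop := ∀ (F : Type) [Field F] (p r : ℕ) (v : ℕ → Fin p → Fin r → F) (R : ℕ),
  (∀ᶠ q in (Filter.hyperfilter ℕ : Filter ℕ),
    Module.finrank F (Submodule.span F (Set.range (v q))) = R) →
  Module.finrank (UP F) (Submodule.span (UP F)
    (Set.range fun (a : Fin p) (i : Fin r) => (((fun q => v q a i) : ℕ → F) : UP F))) = R

/-- the rank of the derivatives of `f` in the rational directions vanishing on `V` -/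
noncomputable def rkF {F W : Type} [Field F] [CharZero F] [AddCommGroup W] [Module ℚ W] {d : ℕ}
    (b : Module.Basis (Fin d) ℚ W) (D : Fin d → Derivation ℤ F F) {r : ℕ} (f : Fin r → F)
    (V : Submodule ℚ W) : ℕ :=
  Module.finrank F (Submodule.span F
    ((fun (ξ : W →ₗ[ℚ] ℚ) (k : Fin r) => ∑ a, (ξ (b a) : F) * D a (f k)) ''
      {ξ | ∀ v ∈ V, ξ v = 0}))

/-- **(FLD)** Extending the field does not change ranks.

Proof. Choose a maximal linearly independent subfamily of the `v i` (`exists_linearIndependent'` or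
a basis of the span): the images under `j` span the span of all images, and they are linearly
independent over `F`: if `∑ c_i j(v_i k) = 0` for all `k` with some `c_{i₀} ≠ 0`, regard `F` as a
vector space over `Ω` via `j` (`j.toAlgebra`) and apply an `Ω`-linear functional `λ : F → Ω` with
`λ (c_{i₀}) ≠ 0`: `∑ λ(c_i) v_i k = 0` (compare UR/P_LI.lean). -/
def FLD : Prop := ∀ (Ω F ι : Type) [Field Ω] [Field F] (j : Ω →+* F) (r : ℕ)
  (v : ι → Fin r → Ω),
  Module.finrank F (Submodule.span F (Set.range fun (i : ι) (k : Fin r) => j (v i k))) =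
    Module.finrank Ω (Submodule.span Ω (Set.range v))

/-- **(UVN)** Spaces of linear forms in an ultrapower. Let `ξ⁽q⁾_α`, `α < δ`, be a basis of the
forms vanishing on `U⁽q⁾` for almost all `q` and `u_α : W → C` their ultrapower.

Proof (`LI` may be used). (1) The `u_α` are linearly independent over `C`: see the proof of `hui`
in UR/P_GNA.lean: if `∑ g_α u_α = 0` with `j g_α` the germ of `γ_α⁽q⁾ ∈ F`, then for almost all `q`
`∑_α γ_α⁽q⁾ ξ⁽q⁾_α (b_a) = 0` for all elements `b_a` of a basis of `W`, so `γ_α⁽q⁾ = 0` because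
linear forms which are linearly independent over `ℚ` are so over `F` (`LI` for `C = ℚ`).
(2) Let `V ≤ W`. For almost all `q` the number `dim (V ∩ U⁽q⁾) = κ` is constant (finitely many
values), and the forms vanishing on `U⁽q⁾` and on `V` have dimension
`dim W - dim (U⁽q⁾ + V) = δ - dim V + κ =: δ₀`, so the restrictions of `ξ⁽q⁾_1, …, ξ⁽q⁾_δ` to `V`
span a space of dimension `δ - δ₀ = dim V - κ` (`Submodule.finrank_sup_add_finrank_inf_eq`,
`Subspace.finrank_add_finrank_dualAnnihilator_eq`, rank-nullity for the restriction map). So some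
`A⁽q⁾ ⊆ Fin δ` with `δ - δ₀` elements is such that the restrictions to `V` of the `ξ⁽q⁾_α`,
`α ∈ A⁽q⁾`, are linearly independent over `ℚ`; one `A = A⁽q⁾` works for almost all `q` (finitely
many subsets). By (1) for the space `V` and the family `α ∈ A` the restrictions of the `u_α`,
`α ∈ A`, to `V` are linearly independent over `C`. So the restriction map from `span_C (u_α)`, of
dimension `δ`, to `V →ₗ[ℚ] C`, whose kernel is `Van (span u) V`, has rank `≥ δ - δ₀`, and its
kernel has dimension `≤ δ₀`. (It is convenient to state and prove (1) first for arbitrary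
sequences `ξ⁽q⁾ : ι → (V →ₗ[ℚ] ℚ)` which are linearly independent for almost all `q`.) -/
def UVN : Prop := ∀ (C F W : Type) [Field C] [CharZero C] [Field F] [CharZero F]
  [AddCommGroup W] [Module ℚ W] [FiniteDimensional ℚ W] (j : C →+* UP F) (δ : ℕ)
  (U : ℕ → Submodule ℚ W) (ξ : ℕ → Fin δ → (W →ₗ[ℚ] ℚ)) (u : Fin δ → (W →ₗ[ℚ] C)),
  (∀ α w, j (u α w) = (((fun q => ((ξ q α w : ℚ) : F)) : ℕ → F) : UP F)) →
  (∀ᶠ q in (Filter.hyperfilter ℕ : Filter ℕ), LinearIndependent ℚ (ξ q)) →
  (∀ᶠ q in (Filter.hyperfilter ℕ : Filter ℕ), (∀ α, ∀ v ∈ U q, ξ q α v = 0) ∧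
    Module.finrank ℚ (U q) + δ = Module.finrank ℚ W) →
  LinearIndependent C u ∧ ∀ V : Submodule ℚ W, ∀ᶠ q in (Filter.hyperfilter ℕ : Filter ℕ),
    Module.finrank C (Van (Submodule.span C (Set.range u)) V) + Module.finrank ℚ V ≤
      δ + Module.finrank ℚ (V ⊓ U q : Submodule ℚ W)

/-- **(FNB)** Finiteness, the version for sequences. Let `m_1, …, m_N ∈ F` be algebraic over
`C(x w : w ∈ W)`, `C` the field of constants of the `D a`. For every sequence of rational
`r × N` matrices `t⁽q⁾` and of spaces `U⁽q⁾ ≤ W` there is `V ≤ W` such that for almost all `q`, with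
`l⁽q⁾_k = ∑_j t⁽q⁾_{kj} m_j` and `ρ_q(V) = rkF b D l⁽q⁾ V`:
`ρ_q(V) + dim V ≤ ρ_q(U⁽q⁾) + dim (V ∩ U⁽q⁾)`.

Proof (uses `RT2`, `RKU`, `FLD`, `UVN`, `UAC`, `UDR`, `TORC`; ultrapower; compare UR/P_GNA.lean,
whose proof can be copied in large part). The numbers `dim W - dim U⁽q⁾` take finitely many
values, so one of them, `δ`, is taken for almost all `q` (hyperfilter), and similarly
`ρ_q(U⁽q⁾) = ρ` for almost all `q` (it is `≤ r`). For these `q` let `ξ⁽q⁾_1, …, ξ⁽q⁾_δ` be a basis of
the space of linear forms on `W` vanishing on `U⁽q⁾`, otherwise arbitrary. Let `F* = UP F`, an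
algebraically closed field (`UAC`) with derivations `D*_a` (`UDR`) and `x* : W → F*` (constant
germs). `TORC` gives `C*, Ω*, S, j`. Let `u_α : W → C*` be the linear map whose value at `b_a` is
the (preimage of the) germ of `q ↦ ξ⁽q⁾_α (b_a)`; then the value at any `w ∈ W` is the germ of
`q ↦ ξ⁽q⁾_α w`. By `UVN` the `u_α` are linearly independent over `C*`. As in `P_GNA` the germs of
the `l⁽q⁾_k` are in the image of `Ω*`, say of `f_k ∈ Ω*`. `RT2` gives `V ≤ W` with
`rk f V^⊥ + δ ≤ rk f (u) + dim_C (Van (span u) V)`. We have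
(i) `rk f (u) = ρ`: the vectors `(DD (up u_α) (f_k))_k` have as images under `j` the germs
of the vectors `(D_{ξ⁽q⁾_α} l⁽q⁾_k)_k`; by `RKU` the span of these has dimension `ρ` over `F*`, and
by `FLD` the span of the vectors `(DD (up u_α) (f_k))_k` has the same dimension. (The forms
vanishing on `U⁽q⁾` are the rational combinations of the `ξ⁽q⁾_α`, so the span over `F` in the
definition of `rkF` is the span of the `δ` vectors `(D_{ξ⁽q⁾_α} l⁽q⁾_k)_k`.)
(ii) `ρ_q(V) = rk f V^⊥` for almost all `q`: the same for a basis of the forms vanishing on `V`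
(fixed, independent of `q`); the value of `ρ_q(V)` is constant for almost all `q`.
(iii) `dim_C (Van (span u) V) + dim V ≤ δ + dim (V ∩ U⁽q⁾)` for almost all `q`, by `UVN`.
Together: `ρ_q(V) + dim V ≤ ρ_q(U⁽q⁾) + dim (V ∩ U⁽q⁾)` for almost all `q`. -/
def FNB : Prop := ∀ (F W : Type) [Field F] [CharZero F] [IsAlgClosed F] [AddCommGroup W]
  [Module ℚ W] (d : ℕ) (b : Module.Basis (Fin d) ℚ W) (D : Fin d → Derivation ℤ F F) (x : W → F),
  (∀ w, x w ≠ 0) → (∀ v w, x (v + w) = x v * x w) →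
  (∀ a w, D a (x w) = (b.coord a w : F) * x w) →
  ∀ (r N : ℕ) (m : Fin N → F),
  (∀ j, IsAlgebraic (IntermediateField.adjoin (Cst0 D) (Set.range x)) (m j)) →
  ∀ (t : ℕ → Fin r × Fin N → ℚ) (U : ℕ → Submodule ℚ W), ∃ V : Submodule ℚ W,
    ∀ᶠ q in (Filter.hyperfilter ℕ : Filter ℕ),
      rkF b D (fun k => ∑ j, (t q (k, j) : F) * m j) V + Module.finrank ℚ V ≤
        rkF b D (fun k => ∑ j, (t q (k, j) : F) * m j) (U q) +
          Module.finrank ℚ (V ⊓ U q : Submodule ℚ W)

/-- **(FNA)** Finiteness. Let `m_1, …, m_N ∈ F` be algebraic over `C(x w : w ∈ W)`, `C` the field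
of constants of the `D a`. There is a finite set `𝒱` of subspaces of `W` such that for all rational
`r × N` matrices `t`, with `l_k = ∑_j t_{kj} m_j` and `ρ(V) = rkF b D l V`, and for all `U ≤ W`:
`ρ(V) + dim V ≤ ρ(U) + dim (V ∩ U)` for some `V ∈ 𝒱`.

Proof (from `FNB`). Suppose not. `Submodule ℚ W` is countable; let `V_0, V_1, …` be an
enumeration. For every `q` there are `t⁽q⁾` and `U⁽q⁾` with
`ρ_q(V_j) + dim V_j > ρ_q(U⁽q⁾) + dim (V_j ∩ U⁽q⁾)` for all `j ≤ q` (`𝒱 = {V_0, …, V_q}`). Take `V`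
by `FNB`, `V = V_j`, and `q ≥ j`. -/
def FNA : Prop := ∀ (F W : Type) [Field F] [CharZero F] [IsAlgClosed F] [AddCommGroup W]
  [Module ℚ W] (d : ℕ) (b : Module.Basis (Fin d) ℚ W) (D : Fin d → Derivation ℤ F F) (x : W → F),
  (∀ w, x w ≠ 0) → (∀ v w, x (v + w) = x v * x w) →
  (∀ a w, D a (x w) = (b.coord a w : F) * x w) →
  ∀ (r N : ℕ) (m : Fin N → F),
  (∀ j, IsAlgebraic (IntermediateField.adjoin (Cst0 D) (Set.range x)) (m j)) →
  ∃ 𝒱 : Finset (Submodule ℚ W), ∀ (t : Fin r × Fin N → ℚ) (U : Submodule ℚ W), ∃ V ∈ 𝒱,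
    rkF b D (fun k => ∑ j, (t (k, j) : F) * m j) V + Module.finrank ℚ V ≤
      rkF b D (fun k => ∑ j, (t (k, j) : F) * m j) U +
        Module.finrank ℚ (V ⊓ U : Submodule ℚ W)

/-- **(MNR)** Rank and minors.

Proof. If the span has dimension `≤ R` then any `R + 1` of the `v i` are linearly dependent, so the
rows of the matrix are linearly dependent (select coordinates) and the determinant vanishes
(`Matrix.exists_vecMul_eq_zero_iff`). Conversely suppose that the span has dimension `> R`. Then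
there are `R + 1` linearly independent `v (k i)`; the `(R + 1) × r` matrix with these rows has rank
`R + 1`, so it has `R + 1` linearly independent columns `c j` (`Matrix.rank_transpose` or
`Matrix.rank_eq_finrank_span_cols`, `exists_linearIndependent'`), and the
`(R + 1) × (R + 1)` matrix of these columns has a nonzero determinant. -/
def MNR : Prop := ∀ (F ι : Type) [Field F] (r : ℕ) (v : ι → Fin r → F) (R : ℕ),
  Module.finrank F (Submodule.span F (Set.range v)) ≤ R ↔
    ∀ (k : Fin (R + 1) → ι) (c : Fin (R + 1) → Fin r),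
      (Matrix.of fun i j => v (k i) (c j)).det = 0

end Pool.Agent.Lib.MP_c82530_nt.UR
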