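import Pool.Agent.Lib.MP_c82530_nt.UR.Setup
import Pool.Agent.Lib.MP_c82530_nt.UR.Stm2

/-!
# MP_c82530_nt, project UR: transcendence degrees as ranks of matrices of derivatives
-/

set_option autoImplicit false

open Set Module

namespace Pool.Agent.Lib.MP_c82530_nt.UR

open Pool.Agent.Lib.MP_c82530_nt Pool.Agent.Lib.MP_c82530_nt.UL

/-- rank of the derivatives of `l` in the directions vanishing on `V` -/
noncomputable def rho {W : Submodule ℚ ℂ} (h : FreeOn ∅ W) {r : ℕ} (l : Fin r → ℂ)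
    (V : Submodule ℚ W) : ℕ :=
  finrank ℂ (Submodule.span ℂ ((fun (ξ : Module.Dual ℚ W) (k : Fin r) => dd h ξ (l k)) ''
    {ξ | ∀ v ∈ V, ξ v = 0}))

lemma fsc {r : ℕ} {s t : Set (Fin r → ℂ)} (h : s = t) :
    finrank ℂ (Submodule.span ℂ s) = finrank ℂ (Submodule.span ℂ t) := by rw [h]

/-- a maximal independent subfamily -/
lemma exists_sub {S : Set ℂ} (hS : AM.eRk S ≠ ⊤) {r : ℕ} (l : Fin r → ℂ) :
    ∃ R : ℕ, (∃ c : Fin R → Fin r, AlgebraicIndependent (KL S) (fun i => l (c i))) ∧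
      AM.eRk (S ∪ range l) = AM.eRk S + R ∧
      ∀ c : Fin (R + 1) → Fin r, ¬ AlgebraicIndependent (KL S) (fun i => l (c i)) := by
  obtain ⟨R, ⟨c, hc⟩, hnext⟩ : ∃ R : ℕ,
      (∃ c : Fin R → Fin r, AlgebraicIndependent (KL S) (fun i => l (c i))) ∧
      ¬ ∃ c : Fin (R + 1) → Fin r, AlgebraicIndependent (KL S) (fun i => l (c i)) := by
    by_contra hc
    push Not at hc
    have h1 : ∀ R, ∃ c : Fin R → Fin r, AlgebraicIndependent (KL S) (fun i => l (c i)) := by
      intro R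
      induction R with
      | zero => exact ⟨Fin.elim0, ai_zero hS _⟩
      | succ R ih => exact hc R ih
    obtain ⟨c, h⟩ := h1 (r + 1)
    have h2 : Function.Injective c := fun i j hij => h.injective (by rw [hij])
    have := Fintype.card_le_of_injective c h2
    simp at this
  push Not at hnext
  refine ⟨R, ⟨c, hc⟩, ?_, hnext⟩
  rw [← (ind_iff_rk hS _).1 hc]
  apply le_antisymm
  · rw [← AM.eRk_closure_eq (S ∪ range (fun i => l (c i)))]
    apply AM.eRk_mono
    rintro z (hz | ⟨j, rfl⟩)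
    · exact AM.mem_closure_of_mem' (Or.inl hz) (mem_univ _)
    · by_contra hj
      apply hnext (Fin.cons j c)
      have h1 := ai_cons hS hc hj
      convert h1 using 1
      funext i
      refine Fin.cases ?_ (fun i' => ?_) i <;> rfl
  · apply AM.eRk_mono
    apply union_subset_union_right
    rintro _ ⟨i, rfl⟩
    exact ⟨c i, rfl⟩

theorem rk_eq_rho (hJ : JAC) (hM : MNR) {W V : Submodule ℚ ℂ} (h : FreeOn ∅ W) (hV : V ≤ W)
    [FiniteDimensional ℚ W] {r : ℕ} {l : Fin r → ℂ} (hl : ∀ k, l k ∈ clF (∅ ∪ expSet W)) :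
    AM.eRk (expSet V ∪ range l) = AM.eRk (expSet V) + rho h l (V.comap W.subtype) := by
  classical
  have hVfd : FiniteDimensional ℚ V := Submodule.finiteDimensional_of_le hV
  have hS0 : AM.eRk (expSet V) ≠ ⊤ := ne_top_of_le_ne_top (ENat.natCast_ne_top _) (rk_expSet_le V)
  have hS : AM.eRk (∅ ∪ expSet V) ≠ ⊤ := by rwa [empty_union]
  obtain ⟨R, ⟨c, hc⟩, hR, hR'⟩ := exists_sub hS l
  rw [empty_union] at hR
  rw [hR]
  congr 2
  have hset : rho h l (V.comap W.subtype) = finrank ℂ (Submodule.span ℂ (range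
      (fun (ξ : {ξ : Module.Dual ℚ W // ∀ b : W, (b : ℂ) ∈ V → ξ b = 0}) (k : Fin r) =>
        dd h ξ.1 (l k)))) := by
    refine fsc ?_
    ext z
    constructor
    · rintro ⟨ξ, hξ, rfl⟩
      exact ⟨⟨ξ, fun b hb => hξ b hb⟩, rfl⟩
    · rintro ⟨ξ, rfl⟩
      exact ⟨ξ.1, fun b hb => ξ.2 b hb, rfl⟩
  rw [hset]
  apply le_antisymm
  · by_contra hlt
    push Not at hlt
    obtain ⟨R', rfl⟩ : ∃ R', R = R' + 1 := ⟨R - 1, by omega⟩
    have h1 := (hM ℂ _ r (fun (ξ : {ξ : Module.Dual ℚ W // ∀ b : W, (b : ℂ) ∈ V → ξ b = 0})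
      (k : Fin r) => dd h ξ.1 (l k)) R').1 (by omega)
    obtain ⟨ξ, hξ, hdet⟩ := exists_det_ne h hV hS (l := fun i => l (c i)) (fun i => hl (c i)) hc
    exact hdet (h1 (fun i => ⟨ξ i, hξ i⟩) c)
  · refine (hM ℂ _ r _ R).2 fun k c' => ?_
    exact det_eq_zero hJ h hV (hR' c') (fun i => (k i).1) (fun i => (k i).2)

/-- the rank does not depend on the space of exponents -/
theorem rho_comap {W W'' A : Submodule ℚ ℂ} (h : FreeOn ∅ W) (h'' : FreeOn ∅ W'') (hW : W ≤ W'')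
    {r : ℕ} {l : Fin r → ℂ} (hl : ∀ k, l k ∈ clF (∅ ∪ expSet W)) :
    rho h'' l (A.comap W''.subtype) = rho h l (A.comap W.subtype) := by
  have key : ∀ (ξ'' : Module.Dual ℚ W'') (ξ : Module.Dual ℚ W),
      (∀ w : W, ξ'' ⟨w, hW w.2⟩ = ξ w) → ∀ k, dd h'' ξ'' (l k) = dd h ξ (l k) := by
    intro ξ'' ξ hξ k
    symm
    refine dd_unique h le_rfl ξ _ (fun z hz => absurd hz (notMem_empty z)) ?_ (hl k)
    intro w _
    have h3 := dd_exp h'' ξ'' ⟨(w : ℂ), hW w.2⟩
    rw [hξ w] at h3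
    exact h3
  refine fsc ?_
  ext z
  constructor
  · rintro ⟨ξ'', hξ'', rfl⟩
    refine ⟨ξ''.comp (Submodule.inclusion hW), fun w hw => hξ'' _ hw, ?_⟩
    funext k
    exact (key ξ'' _ (fun w => rfl) k).symm
  · rintro ⟨ξ, hξ, rfl⟩
    obtain ⟨g, hg1, hg2⟩ := exists_ext (V := A) ξ (fun w hw => hξ w hw)
    refine ⟨g.comp W''.subtype, fun w hw => hg2 _ hw, ?_⟩
    funext k
    exact key _ ξ (fun w => hg1 w) k

/-- **Rank formula.** -/
theorem rk_eq (hJ : JAC) (hM : MNR) {W : Submodule ℚ ℂ} (hE : Full (Kalg ⊔ W))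
    (h : FreeOn ∅ W) [FiniteDimensional ℚ W] {r : ℕ} {l : Fin r → ℂ}
    (hl : ∀ k, l k ∈ clF (∅ ∪ expSet W)) {A : Submodule ℚ ℂ} (hA : A ≤ Kalg ⊔ W)
    [FiniteDimensional ℚ A] :
    AM.eRk (expSet A ∪ range l) = (finrank ℚ A + rho h l (A.comap W.subtype) : ℕ) := by
  have hW'' : A ⊔ W ≤ Kalg ⊔ W := sup_le hA le_sup_right
  have hfd : FiniteDimensional ℚ (A ⊔ W : Submodule ℚ ℂ) := Submodule.finiteDimensional_sup A W
  have h'' : FreeOn ∅ (A ⊔ W) := (hE.mono hW'').freeOn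
  have hsub : (∅ : Set ℂ) ∪ expSet W ⊆ ∅ ∪ expSet (A ⊔ W) :=
    union_subset_union_right _ (expSet_mono (le_sup_right : W ≤ A ⊔ W))
  have hl' : ∀ k, l k ∈ clF (∅ ∪ expSet (A ⊔ W)) := fun k => clF_mono hsub (hl k)
  have h1 := rk_eq_rho hJ hM h'' (V := A) le_sup_left hl'
  have h2 := rho_comap (A := A) h h'' le_sup_right hl
  have h3 : AM.eRk (expSet A) = finrank ℚ A := hE A hA inferInstance
  rw [h1, h2, h3, Nat.cast_add]

lemma rho_mono (hJ : JAC) (hM : MNR) {W : Submodule ℚ ℂ} (hE : Full (Kalg ⊔ W))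
    (h : FreeOn ∅ W) [FiniteDimensional ℚ W] {r : ℕ} {l : Fin r → ℂ}
    (hl : ∀ k, l k ∈ clF (∅ ∪ expSet W)) {U V : Submodule ℚ W} (hUV : U ≤ V) :
    rho h l U + finrank ℚ U ≤ rho h l V + finrank ℚ V := by
  have h1 : ∀ U : Submodule ℚ W, U.map W.subtype ≤ Kalg ⊔ W := by
    rintro U _ ⟨w, _, rfl⟩
    exact Submodule.mem_sup_right w.2
  have h2 : ∀ U : Submodule ℚ W, (U.map W.subtype).comap W.subtype = U := fun U =>
    Submodule.comap_map_eq_of_injective W.subtype_injective U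
  have h3 : ∀ U : Submodule ℚ W, AM.eRk (expSet (U.map W.subtype) ∪ range l) =
      (finrank ℚ U + rho h l U : ℕ) := by
    intro U
    rw [rk_eq hJ hM hE h hl (h1 U), h2 U, Submodule.finrank_map_subtype_eq]
  have h4 : AM.eRk (expSet (U.map W.subtype) ∪ range l) ≤
      AM.eRk (expSet (V.map W.subtype) ∪ range l) :=
    AM.eRk_mono (union_subset_union_left _ (image_mono (Submodule.map_mono hUV)))
  rw [h3, h3] at h4
  have h5 : finrank ℚ U + rho h l U ≤ finrank ℚ V + rho h l V := by exact_mod_cast h4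
  omega

/-- universality as a rank condition -/
theorem univR_iff_rho (hJ : JAC) (hM : MNR) {W : Submodule ℚ ℂ} (hE : Full (Kalg ⊔ W))
    (h : FreeOn ∅ W) [FiniteDimensional ℚ W] {r : ℕ} {l : Fin r → ℂ}
    (hl : ∀ k, l k ∈ clF (∅ ∪ expSet W)) (n : ℕ) :
    UnivR n l ↔ ∀ U ≤ Kalg.comap W.subtype, finrank ℚ U ≤ n → r ≤ rho h l U := by
  constructor
  · intro hu U hU hUn
    have h1 : U.map W.subtype ≤ Kalg := by
      rintro _ ⟨w, hw, rfl⟩
      exact hU hw
    have h2 := hu (U.map W.subtype) h1 inferInstance (by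
      rw [Submodule.finrank_map_subtype_eq]; exact hUn)
    rw [rk_eq hJ hM hE h hl (h1.trans le_sup_left),
      Submodule.comap_map_eq_of_injective W.subtype_injective U] at h2
    have h3 : finrank ℚ (U.map W.subtype) + rho h l U = finrank ℚ (U.map W.subtype) + r := by
      exact_mod_cast h2
    omega
  · intro hr A hAK hAfd hAn
    have h1 : rho h l (A.comap W.subtype) ≤ r := by
      unfold rho
      refine (Submodule.finrank_le _).trans ?_
      simp
    have h2 := hr (A.comap W.subtype) (Submodule.comap_mono hAK) (by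
      refine le_trans ?_ hAn
      rw [← Submodule.finrank_map_subtype_eq]
      apply Submodule.finrank_mono
      rintro _ ⟨w, hw, rfl⟩
      exact hw)
    rw [rk_eq hJ hM hE h hl (hAK.trans le_sup_left)]
    congr 2
    omega

end Pool.Agent.Lib.MP_c82530_nt.UR
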