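import Pool.Agent.Lib.MP_c82530_nt.Bridge
import Pool.Agent.Lib.MP_c82530_nt.UL.One

/-!
# MP_c82530_nt, project UR: algebraic independence and ranks
-/

set_option autoImplicit false

open Set Module

namespace Pool.Agent.Lib.MP_c82530_nt.UR

open Pool.Agent.Lib.MP_c82530_nt Pool.Agent.Lib.MP_c82530_nt.UL

/-- algebraic independence of a finite family as a rank -/
lemma ai_iff_rk {ι : Type*} [Fintype ι] (y : ι → ℂ) :
    AlgebraicIndependent ℚ y ↔ AM.eRk (range y) = Fintype.card ι := by
  constructor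
  · intro h
    have h2 : AM.Indep (range y) := by
      rw [AM, AlgebraicIndependent.matroid_indep_iff]
      exact h.to_subtype_range
    rw [h2.eRk_eq_encard, ← image_univ, h.injective.encard_image, encard_univ]
    simp
  · intro h
    have h1 : (range y).encard ≤ Fintype.card ι := by
      rw [← image_univ]
      refine (encard_image_le _ _).trans ?_
      rw [encard_univ]
      simp
    have h2 : (range y).encard = Fintype.card ι :=
      le_antisymm h1 (by rw [← h]; exact AM.eRk_le_encard _)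
    have h3 : AM.Indep (range y) := by
      apply (Matroid.indep_iff_eRk_eq_encard_of_finite (finite_range y)).mpr
      rw [h, h2]
    have hinj : Function.Injective y := by
      rw [← injOn_univ]
      apply Set.Finite.injOn_of_encard_image_eq finite_univ
      rw [image_univ, h2, encard_univ]
      simp
    rw [← algebraicIndependent_subtype_range hinj]
    exact h3

/-- algebraic independence over a closure as a rank -/
lemma ind_iff_rk {S : Set ℂ} (hS : AM.eRk S ≠ ⊤) {n : ℕ} (x : Fin n → ℂ) :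
    AlgebraicIndependent (KL S) x ↔ AM.eRk (S ∪ range x) = AM.eRk S + n := by
  obtain ⟨J, hJ⟩ := AM.exists_isBasis S (subset_univ S)
  have hJe : J.encard = AM.eRk S := hJ.encard_eq_eRk
  have hJfin : J.Finite := by
    rw [← encard_ne_top_iff, hJe]
    exact hS
  have := hJfin.to_subtype
  have : Fintype J := hJfin.fintype
  have hJind : AlgebraicIndependent ℚ ((↑) : J → ℂ) := hJ.indep
  rw [indep_KL_iff hJ.closure_eq_closure]
  have h1 : AlgebraicIndependent (Algebra.adjoin ℚ J) x ↔
      AlgebraicIndependent ℚ (Sum.elim x ((↑) : J → ℂ)) := by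
    rw [AlgebraicIndependent.sumElim_iff, Subtype.range_coe]
    exact ⟨fun h => ⟨hJind, h⟩, fun h => h.2⟩
  rw [h1, ai_iff_rk, Sum.elim_range, Subtype.range_coe]
  have h2 : AM.eRk (range x ∪ J) = AM.eRk (S ∪ range x) := by
    apply eRk_congr_closure
    rw [← AM.closure_union_closure_right_eq, hJ.closure_eq_closure,
      AM.closure_union_closure_right_eq, union_comm]
  have h3 : ((Fintype.card (Fin n ⊕ J) : ℕ) : ℕ∞) = AM.eRk S + n := by
    rw [Fintype.card_sum, Fintype.card_fin, ← hJe, add_comm]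
    push_cast
    congr 1
    rw [← Set.toFinset_card, ← Set.encard_coe_eq_coe_finsetCard, Set.coe_toFinset]
  rw [h2, h3]

/-- the numbers `l` are algebraically independent of all exponentials of `n`-dimensional spaces -/
def UnivR (n : ℕ) {r : ℕ} (l : Fin r → ℂ) : Prop :=
  ∀ V ≤ Kalg, FiniteDimensional ℚ V → finrank ℚ V ≤ n →
    AM.eRk (expSet V ∪ range l) = (finrank ℚ V + r : ℕ)

lemma alg_of_le {V : Submodule ℚ ℂ} (hV : V ≤ Kalg) : ∀ v ∈ V, IsAlgebraic ℚ v :=
  fun v hv => mem_Kalg.1 (hV hv)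

lemma rk_expSet {V : Submodule ℚ ℂ} (hV : V ≤ Kalg) [FiniteDimensional ℚ V] :
    AM.eRk (expSet V) = finrank ℚ V := eRk_expSet (alg_of_le hV)

lemma rk_union_le {V : Submodule ℚ ℂ} (hV : V ≤ Kalg) [FiniteDimensional ℚ V] {r : ℕ}
    (l : Fin r → ℂ) : AM.eRk (expSet V ∪ range l) ≤ (finrank ℚ V + r : ℕ) := by
  refine (AM.eRk_union_le_eRk_add_eRk _ _).trans ?_
  rw [rk_expSet hV]
  push_cast
  gcongr
  refine (AM.eRk_le_encard _).trans ?_
  rw [← image_univ]
  refine (encard_image_le _ _).trans ?_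
  rw [encard_univ]
  simp

/-- adding exponents -/
lemma rk_sup_le {V V' : Submodule ℚ ℂ} (hV : V ≤ V') (hV' : V' ≤ Kalg) [FiniteDimensional ℚ V']
    (X : Set ℂ) : AM.eRk (expSet V' ∪ X) + finrank ℚ V ≤ AM.eRk (expSet V ∪ X) + finrank ℚ V' := by
  have : FiniteDimensional ℚ V := Submodule.finiteDimensional_of_le hV
  obtain ⟨C, hC⟩ := Submodule.exists_isCompl V
  have : FiniteDimensional ℚ (C ⊓ V' : Submodule ℚ ℂ) :=
    Submodule.finiteDimensional_of_le inf_le_right
  have h3 : V ⊔ C ⊓ V' = V' := by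
    rw [← sup_inf_assoc_of_le C hV, hC.sup_eq_top, top_inf_eq]
  have h4 : V ⊓ (C ⊓ V') = ⊥ := by
    rw [← inf_assoc, hC.inf_eq_bot, bot_inf_eq]
  have a6 := Submodule.finrank_sup_add_finrank_inf_eq V (C ⊓ V')
  rw [h3, h4, finrank_bot, add_zero] at a6
  have h5 := fr_le_add X V (C ⊓ V')
  rw [h3, rk_expSet (inf_le_right.trans hV' : C ⊓ V' ≤ Kalg)] at h5
  unfold fr at h5
  calc AM.eRk (expSet V' ∪ X) + finrank ℚ V
      ≤ AM.eRk (expSet V ∪ X) + finrank ℚ (C ⊓ V' : Submodule ℚ ℂ) + finrank ℚ V := by gcongr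
    _ = AM.eRk (expSet V ∪ X) + finrank ℚ V' := by
        rw [a6]
        push_cast
        rw [add_assoc, add_comm ((finrank ℚ (C ⊓ V' : Submodule ℚ ℂ) : ℕ∞))]

lemma ai_iff {n r : ℕ} {a : Fin n → ℂ} (hli : LinearIndependent ℚ a) (l : Fin r → ℂ) :
    AlgebraicIndependent (integralClosure ℚ ℂ) (Sum.elim (fun i => Complex.exp (a i)) l) ↔
      AM.eRk (expSet (Submodule.span ℚ (range a)) ∪ range l) =
        (finrank ℚ (Submodule.span ℚ (range a)) + r : ℕ) := by
  have hinj : Function.Injective (algebraMap ℚ (integralClosure ℚ ℂ)) :=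
    (algebraMap ℚ (integralClosure ℚ ℂ)).injective
  rw [← Algebra.IsIntegral.algebraicIndependent_iff ℚ (integralClosure ℚ ℂ), ai_iff_rk,
    Sum.elim_range, eRk_congr_closure (closure_exp_union a (range l)),
    finrank_span_eq_card hli]
  simp

theorem univR_iff {n r : ℕ} {l : Fin r → ℂ} : UnivR n l ↔
    ∀ a : Fin n → ℂ, (∀ i, IsAlgebraic ℚ (a i)) → LinearIndependent ℚ a →
      AlgebraicIndependent (integralClosure ℚ ℂ) (Sum.elim (fun i => Complex.exp (a i)) l) := by
  constructor
  · intro h a ha hli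
    rw [ai_iff hli]
    exact h _ (span_le_Kalg ha) (FiniteDimensional.span_of_finite ℚ (finite_range a))
      (finrank_span_le' a)
  · intro h V hVK hVfd hVn
    obtain ⟨a, ha, hli, hVa⟩ := exists_tuple hVK hVn
    have h1 := h a ha hli
    rw [ai_iff hli] at h1
    have : FiniteDimensional ℚ (Submodule.span ℚ (range a)) :=
      FiniteDimensional.span_of_finite ℚ (finite_range a)
    have h2 := rk_sup_le hVa (span_le_Kalg ha) (range l)
    rw [h1] at h2
    refine le_antisymm (rk_union_le hVK l) ?_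
    have hne : AM.eRk (expSet V ∪ range l) ≠ ⊤ :=
      ne_top_of_le_ne_top (ENat.natCast_ne_top _) (rk_union_le hVK l)
    obtain ⟨k, hk⟩ := ENat.ne_top_iff_exists.1 hne
    rw [← hk] at h2 ⊢
    norm_cast at h2 ⊢
    omega

end Pool.Agent.Lib.MP_c82530_nt.UR
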