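import Pool.Agent.Lib.MP_c82530_nt.UR.Main

/-!
# MP_c82530_nt, project UR: a finite dimensional space of exponents for finitely many numbers
-/

set_option autoImplicit false

open Set Module

namespace Pool.Agent.Lib.MP_c82530_nt.UR

open Pool.Agent.Lib.MP_c82530_nt Pool.Agent.Lib.MP_c82530_nt.UL

/-- the rank of the exponentials is at most the dimension -/
lemma rk_expSet_le (V : Submodule ℚ ℂ) [FiniteDimensional ℚ V] :
    AM.eRk (expSet V) ≤ finrank ℚ V := by
  obtain ⟨b, hb, hbs⟩ := exists_fin_basis V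
  have h3 : AM.closure (range fun i => Complex.exp (b i)) = AM.closure (expSet V) := by
    rw [cl_range_eq, hbs]
  rw [← eRk_congr_closure h3]
  refine (AM.eRk_le_encard _).trans ?_
  rw [← image_univ]
  refine (encard_image_le _ _).trans ?_
  rw [encard_univ]
  simp

/-- adding exponents, no hypothesis -/
lemma rk_sup_le' {V V' : Submodule ℚ ℂ} (hV : V ≤ V') [FiniteDimensional ℚ V']
    (X : Set ℂ) : AM.eRk (expSet V' ∪ X) + finrank ℚ V ≤ AM.eRk (expSet V ∪ X) + finrank ℚ V' := by
  have : FiniteDimensional ℚ V := Submodule.finiteDimensional_of_le hV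
  obtain ⟨C, hC⟩ := Submodule.exists_isCompl V
  have : FiniteDimensional ℚ (C ⊓ V' : Submodule ℚ ℂ) :=
    Submodule.finiteDimensional_of_le inf_le_right
  have h3 : V ⊔ C ⊓ V' = V' := by
    rw [← sup_inf_assoc_of_le C hV, hC.sup_eq_top, top_inf_eq]
  have h4 : V ⊓ (C ⊓ V') = ⊥ := by
    rw [← inf_assoc, hC.inf_eq_bot, bot_inf_eq]
  have a6 := Submodule.finrank_sup_add_finrank_inf_eq V (C ⊓ V')
  rw [h3, h4, finrank_bot, add_zero] at a6
  have h5 := fr_le_add X V (C ⊓ V')
  rw [h3] at h5
  unfold fr at h5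
  calc AM.eRk (expSet V' ∪ X) + finrank ℚ V
      ≤ AM.eRk (expSet V ∪ X) + AM.eRk (expSet (C ⊓ V')) + finrank ℚ V := by gcongr
    _ ≤ AM.eRk (expSet V ∪ X) + finrank ℚ (C ⊓ V' : Submodule ℚ ℂ) + finrank ℚ V := by
        gcongr
        exact rk_expSet_le _
    _ = AM.eRk (expSet V ∪ X) + finrank ℚ V' := by
        rw [a6]
        push_cast
        rw [add_assoc, add_comm ((finrank ℚ (C ⊓ V' : Submodule ℚ ℂ) : ℕ∞))]

/-- `E` is free: ranks of exponentials are dimensions -/
def Full (E : Submodule ℚ ℂ) : Prop :=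
  ∀ V ≤ E, FiniteDimensional ℚ V → AM.eRk (expSet V) = finrank ℚ V

lemma Full.mono {E E' : Submodule ℚ ℂ} (h : Full E') (hE : E ≤ E') : Full E :=
  fun V hV hfd => h V (hV.trans hE) hfd

lemma Full.freeOn {E : Submodule ℚ ℂ} (h : Full E) : FreeOn ∅ E := by
  intro V hVE a ha haV hmem
  obtain ⟨V₁, hV₁V, hV₁fd, hV₁⟩ := exists_fdB hmem
  set V' := V₁ ⊔ Submodule.span ℚ {a} with hV'
  have : FiniteDimensional ℚ (Submodule.span ℚ {a}) :=
    FiniteDimensional.span_of_finite ℚ (finite_singleton a)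
  have hV'fd : FiniteDimensional ℚ V' := inferInstance
  have hV'E : V' ≤ E := sup_le (hV₁V.trans hVE) (Submodule.span_le.2 (singleton_subset_iff.2 ha))
  have hlt : V₁ < V' := by
    refine lt_of_le_of_ne le_sup_left fun h => haV (hV₁V ?_)
    rw [h]
    exact Submodule.mem_sup_right (Submodule.mem_span_singleton_self a)
  have h1 := h V₁ (hV₁V.trans hVE) hV₁fd
  have h2 := h V' hV'E hV'fd
  have h3 : expSet V' ⊆ AM.closure (expSet V₁) := by
    intro z hz
    have h4 := expSet_sup_le (B := ∅) (V := V₁) a (Or.inr hz)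
    have h5 := clF_insert hV₁ h4
    rw [mem_clF, empty_union] at h5
    exact h5
  have h4 : AM.eRk (expSet V') ≤ AM.eRk (expSet V₁) := by
    rw [← AM.eRk_closure_eq (expSet V₁)]
    exact AM.eRk_mono h3
  rw [h1, h2] at h4
  have h5 := Submodule.finrank_lt_finrank_of_lt hlt
  norm_cast at h4
  omega

/-- logarithms of numbers independent of all exponentials -/
lemma full_sup {s : ℕ} {b lam : Fin s → ℂ} (hb : ∀ N, UnivR N b)
    (hlam : ∀ i, Complex.exp (lam i) = b i) :
    Full (Kalg ⊔ Submodule.span ℚ (range lam)) := by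
  intro V hVE hVfd
  have hLfd : FiniteDimensional ℚ (Submodule.span ℚ (range lam)) :=
    FiniteDimensional.span_of_finite ℚ (finite_range lam)
  -- `V ≤ A ⊔ L` with `A` algebraic, finite dimensional
  obtain ⟨A, hAK, hAfd, hVA⟩ : ∃ A ≤ Kalg, FiniteDimensional ℚ A ∧
      V ≤ A ⊔ Submodule.span ℚ (range lam) := by
    obtain ⟨v, -, hvs⟩ := exists_fin_basis V
    have h1 : ∀ i, ∃ k ∈ Kalg, ∃ l ∈ Submodule.span ℚ (range lam), k + l = v i := by
      intro i
      have h2 : v i ∈ Kalg ⊔ Submodule.span ℚ (range lam) := by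
        apply hVE
        rw [← hvs]
        exact Submodule.subset_span ⟨i, rfl⟩
      exact Submodule.mem_sup.1 h2
    choose k hk l hl hkl using h1
    refine ⟨Submodule.span ℚ (range k), Submodule.span_le.2 ?_,
      FiniteDimensional.span_of_finite ℚ (finite_range k), ?_⟩
    · rintro _ ⟨i, rfl⟩
      exact hk i
    · refine hvs.symm.le.trans (Submodule.span_le.2 ?_)
      rintro _ ⟨i, rfl⟩
      rw [SetLike.mem_coe, ← hkl i]
      exact Submodule.add_mem_sup (Submodule.subset_span ⟨i, rfl⟩) (hl i)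
  refine le_antisymm (rk_expSet_le V) ?_
  have h1 := hb (finrank ℚ A) A hAK hAfd le_rfl
  have h2 : AM.eRk (expSet (A ⊔ Submodule.span ℚ (range lam)) ∪ ∅) =
      AM.eRk (expSet A ∪ range b) := by
    apply eRk_congr_closure
    rw [union_empty, cl_sup, ← AM.closure_union_closure_right_eq, ← cl_range_eq,
      AM.closure_union_closure_right_eq]
    congr 3
    funext i
    exact hlam i
  have h3 := rk_sup_le' hVA ∅
  rw [h2, h1, union_empty] at h3
  have h4 : finrank ℚ (A ⊔ Submodule.span ℚ (range lam) : Submodule ℚ ℂ) ≤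
      finrank ℚ A + s := by
    have h5 := Submodule.finrank_add_le_finrank_add_finrank A (Submodule.span ℚ (range lam))
    have h6 := finrank_range_le_card (R := ℚ) lam
    rw [Fintype.card_fin] at h6
    unfold Set.finrank at h6
    omega
  have hne : AM.eRk (expSet V) ≠ ⊤ := ne_top_of_le_ne_top (ENat.natCast_ne_top _) (rk_expSet_le V)
  obtain ⟨e, he⟩ := ENat.ne_top_iff_exists.1 hne
  rw [← he] at h3 ⊢
  norm_cast at h3 ⊢
  omega

/-- **Setup.** Finitely many numbers are algebraic over the exponentials of a finite dimensional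
space of exponents such that the exponentials of this space and of the algebraic numbers are
independent. -/
theorem exists_setup {N : ℕ} (m : Fin N → ℂ) : ∃ W : Submodule ℚ ℂ, FiniteDimensional ℚ W ∧
    Full (Kalg ⊔ W) ∧ ∀ j, m j ∈ clF (∅ ∪ expSet W) := by
  classical
  -- a maximal part independent of all exponentials
  have hbound : ∀ (s : ℕ) (b : Fin s → ℂ), (∀ i, b i ∈ range m) → UnivR 0 b → s ≤ N := by
    intro s b hb hu
    have h1 := hu ⊥ bot_le inferInstance (by simp)
    have h2 : AM.eRk (expSet (⊥ : Submodule ℚ ℂ) ∪ range b) ≤ 0 + N := by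
      refine (AM.eRk_union_le_eRk_add_eRk _ _).trans (add_le_add ?_ ?_)
      · refine (rk_expSet_le ⊥).trans ?_
        simp
      · refine (AM.eRk_mono (range_subset_iff.2 hb)).trans ((AM.eRk_le_encard _).trans ?_)
        rw [← image_univ]
        refine (encard_image_le _ _).trans ?_
        rw [encard_univ]
        simp
    rw [h1] at h2
    simpa using h2
  obtain ⟨s, ⟨b, hbm, hb⟩, hnext⟩ : ∃ s,
      (∃ b : Fin s → ℂ, (∀ i, b i ∈ range m) ∧ ∀ N, UnivR N b) ∧
      ¬ ∃ b : Fin (s + 1) → ℂ, (∀ i, b i ∈ range m) ∧ ∀ N, UnivR N b := by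
    by_contra hc
    push Not at hc
    have h1 : ∀ s, ∃ b : Fin s → ℂ, (∀ i, b i ∈ range m) ∧ ∀ N, UnivR N b := by
      intro s
      induction s with
      | zero => exact ⟨Fin.elim0, fun i => i.elim0, fun N => univR_zero N _⟩
      | succ s ih => exact hc s ih
    obtain ⟨b, h1, h2⟩ := h1 (N + 1)
    have := hbound (N + 1) b h1 (h2 0)
    omega
  have hmE : ∀ j, m j ∈ clF (range b ∪ expSet Kalg) := by
    intro j
    by_contra hxE
    apply hnext
    refine ⟨Fin.cons (m j) b, fun i => ?_, fun N => univR_cons (hb N) ?_⟩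
    · refine Fin.cases ?_ (fun j => ?_) i
      · exact ⟨j, rfl⟩
      · exact hbm j
    · rintro ⟨S, hSK, -, -, hS⟩
      exact hxE (clF_mono (union_subset_union_right _ (image_mono hSK)) hS)
  have hb0 : ∀ i, b i ≠ 0 := by
    intro i hi
    have h1 := hb 0 ⊥ bot_le inferInstance (by simp)
    have h2 : AlgebraicIndependent (KL (expSet (⊥ : Submodule ℚ ℂ))) b := by
      have h3 : AM.eRk (expSet (⊥ : Submodule ℚ ℂ)) = 0 := by
        have := rk_expSet (V := ⊥) bot_le
        simpa using this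
      rw [ind_iff_rk (by rw [h3]; exact ENat.zero_ne_top), h1, h3]
      simp
    have h3 := h2.transcendental i
    rw [hi] at h3
    exact h3 (isAlgebraic_zero)
  obtain ⟨lam, hlam⟩ : ∃ lam : Fin s → ℂ, ∀ i, Complex.exp (lam i) = b i :=
    ⟨fun i => Complex.log (b i), fun i => Complex.exp_log (hb0 i)⟩
  have hfull := full_sup hb hlam
  choose Wj hWjK hWjfd hWj using fun j => exists_fdB (hmE j)
  have hLfd : FiniteDimensional ℚ (Submodule.span ℚ (range lam)) :=
    FiniteDimensional.span_of_finite ℚ (finite_range lam)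
  refine ⟨(⨆ j, Wj j) ⊔ Submodule.span ℚ (range lam), inferInstance, hfull.mono ?_, fun j => ?_⟩
  · exact sup_le le_sup_left (sup_le ((iSup_le hWjK).trans le_sup_left) le_sup_right)
  · refine clF_mono ?_ (hWj j)
    rintro z (⟨i, rfl⟩ | hz)
    · right
      refine ⟨lam i, ?_, hlam i⟩
      exact Submodule.mem_sup_right (Submodule.subset_span ⟨i, rfl⟩)
    · right
      exact image_mono ((le_iSup Wj j).trans le_sup_left) hz

end Pool.Agent.Lib.MP_c82530_nt.UR
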